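import Pool.Agent.H424R2.SG.Tile
import Pool.Agent.H424R2.PPAD.Defs

/-!
# The planar colouring of an instance of End-of-Line
-/

namespace Pool.Agent.H424R2.SG

open Pool.Agent.NPC Pool.Agent.H424R2.PPAD

/-! ## Abstract version: graph on numbers -/

section abs

variable (N : ℕ) (s p : ℕ → ℕ)

/-- `u` has an outgoing edge -/
def outb (u : ℕ) : Bool := decide (u < N ∧ p (s u) = u ∧ s u ≠ u)

/-- `w` has an incoming edge -/
def inb (w : ℕ) : Bool := decide (w < N ∧ s (p w) = w ∧ p w ≠ w)

/-- signal on the side between the tiles `(X, Y)` and `(X + 1, Y)` -/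
def sigH (X Y : ℕ) : ℕ :=
  if Y = 0 then 1
  else if Y = 1 then
    (if X % 2 = 1 ∧ inb N s p ((X - 1) / 2) = true ∧ outb N s p ((X - 1) / 2) = true then 2 else 1)
  else if outb N s p (Y - 2) = true then
    1 + (if 2 * (Y - 2) + 2 ≤ X then 1 else 0) - (if 2 * s (Y - 2) + 1 ≤ X then 1 else 0)
  else 1

/-- signal on the side between the tiles `(X, Y)` and `(X, Y + 1)` -/
def sigV (X Y : ℕ) : ℕ :=
  if Y = 0 then (if X = 2 then 2 else 1)
  else if X % 2 = 1 then
    (if inb N s p ((X - 1) / 2) = true ∧ Y ≤ p ((X - 1) / 2) + 1 then 0 else 1)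
  else if 2 ≤ X ∧ outb N s p ((X - 2) / 2) = true ∧ Y ≤ (X - 2) / 2 + 1 then 2 else 1

/-- colour of a cell -/
def colN (x y : ℕ) : ℕ :=
  if x < 7 then 1
  else if y < 7 then (if x < 16 then 1 else 2)
  else tile (sigH N s p (x / 7 - 1) (y / 7)) (sigV N s p (x / 7) (y / 7 - 1))
    (sigH N s p (x / 7) (y / 7)) (sigV N s p (x / 7) (y / 7)) (x % 7) (y % 7)

/-- the assumptions on the graph -/
structure GraphOK : Prop where
  hs : ∀ u < N, s u < N
  hp : ∀ u < N, p u < N
  hN : 0 < N
  p0 : p 0 = 0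
  s0 : s 0 ≠ 0

theorem colN_lt (x y : ℕ) : colN N s p x y < 3 := by
  unfold colN
  split_ifs <;> first | omega | exact tile_lt _ _ _ _ _ _

theorem colN_B0 (x y : ℕ) (h : x < 2 ∨ y < 2) : colN N s p x y ≠ 0 := by
  unfold colN
  split_ifs <;> omega

end abs

/-! ## The colouring of an instance -/

/-- the list of the `n` lowest bits of `u` -/
def bl (n u : ℕ) : List Bool := (List.range n).map fun i => u.bits.getD i false

/-- successor -/
def sN (I : Circ × Circ) (u : ℕ) : ℕ := valB (I.1.eval (bl (eolN I) u))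

/-- predecessor -/
def pN (I : Circ × Circ) (u : ℕ) : ℕ := valB (I.2.eval (bl (eolN I) u))

/-- the colouring of the instance `I` -/
def colI (I : Circ × Circ) (x y : ℕ) : ℕ := colN (2 ^ eolN I) (sN I) (pN I) x y

/-- number of bits of the coordinates -/
def bitsI (I : Circ × Circ) : ℕ := eolN I + 6

/-- reading off the solution -/
def ansI (I : Circ × Circ) (x : ℕ) : List Bool := bl (eolN I) ((x / 7 - 1) / 2)

theorem length_bl (n u : ℕ) : (bl n u).length = n := by simp [bl]

end Pool.Agent.H424R2.SG
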