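import Pool.Agent.H424R2.SG.Col

/-!
# The planar colouring: trichromatic triples give solutions (task COLA, helper584)
-/

namespace Pool.Agent.H424R2.SG

variable {N : ℕ} {s p : ℕ → ℕ}

theorem colA_outb {u : ℕ} : outb N s p u = true ↔ u < N ∧ p (s u) = u ∧ s u ≠ u := by
  unfold outb
  rw [decide_eq_true_eq]

theorem colA_inb {u : ℕ} : inb N s p u = true ↔ u < N ∧ s (p u) = u ∧ p u ≠ u := by
  unfold inb
  rw [decide_eq_true_eq]

theorem colA_sigH_lt (X Y : ℕ) : sigH N s p X Y < 3 := by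
  unfold sigH
  split_ifs <;> omega

theorem colA_sigV_lt (X Y : ℕ) : sigV N s p X Y < 3 := by
  unfold sigV
  split_ifs <;> omega

theorem colA_sigH_two (X u : ℕ) : sigH N s p X (u + 2) = if outb N s p u = true then
    1 + (if 2 * u + 2 ≤ X then 1 else 0) - (if 2 * s u + 1 ≤ X then 1 else 0) else 1 := by
  unfold sigH
  rw [if_neg (by omega), if_neg (by omega), Nat.add_sub_cancel]

theorem colA_sigH_one_even (w : ℕ) : sigH N s p (2 * w) 1 = 1 := by
  unfold sigH
  rw [if_neg (by omega), if_pos rfl, if_neg (by omega)]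

theorem colA_sigH_one_odd (w : ℕ) : sigH N s p (2 * w + 1) 1 =
    if inb N s p w = true ∧ outb N s p w = true then 2 else 1 := by
  unfold sigH
  rw [if_neg (by omega), if_pos rfl]
  have h1 : (2 * w + 1 - 1) / 2 = w := by omega
  have h2 : (2 * w + 1) % 2 = 1 := by omega
  rw [h1, h2]
  simp

theorem colA_sigV_odd (w Y : ℕ) (hY : 1 ≤ Y) : sigV N s p (2 * w + 1) Y =
    if inb N s p w = true ∧ Y ≤ p w + 1 then 0 else 1 := by
  unfold sigV
  rw [if_neg (by omega), if_pos (by omega)]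
  have h1 : (2 * w + 1 - 1) / 2 = w := by omega
  rw [h1]

theorem colA_sigV_even (w Y : ℕ) (hY : 1 ≤ Y) : sigV N s p (2 * w + 2) Y =
    if outb N s p w = true ∧ Y ≤ w + 1 then 2 else 1 := by
  unfold sigV
  rw [if_neg (by omega), if_neg (by omega)]
  have h1 : (2 * w + 2 - 2) / 2 = w := by omega
  have h2 : 2 ≤ 2 * w + 2 := by omega
  rw [h1]
  simp [h2]

theorem colA_sigV_zero (X : ℕ) : sigV N s p X 0 = if X = 2 then 2 else 1 := by
  unfold sigV
  rw [if_pos rfl]

theorem colA_edge (h : GraphOK N s p) (u w : ℕ) :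
    (inb N s p w = true ∧ p w = u) ↔ (outb N s p u = true ∧ s u = w) := by
  rw [colA_inb, colA_outb]
  constructor
  · rintro ⟨⟨h1, h2, h3⟩, rfl⟩
    exact ⟨⟨h.hp w h1, by rw [h2], by rw [h2]; exact h3.symm⟩, h2⟩
  · rintro ⟨⟨h1, h2, h3⟩, rfl⟩
    exact ⟨⟨h.hs u h1, by rw [h2], by rw [h2]; exact h3.symm⟩, h2⟩

/-- conservation of the signals, rows `≥ 2` -/
theorem colA_cons2 (h : GraphOK N s p) (X u : ℕ) (hX : 1 ≤ X) :
    sigH N s p (X - 1) (u + 2) + sigV N s p X (u + 1) =
      sigH N s p X (u + 2) + sigV N s p X (u + 2) := by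
  obtain ⟨w, hw⟩ : ∃ w, X = 2 * w + 1 ∨ X = 2 * w + 2 := ⟨(X - 1) / 2, by omega⟩
  have hE := colA_edge h u w
  rcases hw with rfl | rfl
  · rw [colA_sigH_two, colA_sigH_two, colA_sigV_odd _ _ (by omega), colA_sigV_odd _ _ (by omega)]
    by_cases hO : outb N s p u = true
    · by_cases hs : s u = w
      · obtain ⟨hI, hp⟩ := hE.2 ⟨hO, hs⟩
        simp only [hO, hI, true_and, if_true]
        split_ifs <;> omega
      · by_cases hI : inb N s p w = true
        · have hp : p w ≠ u := fun e => hs (hE.1 ⟨hI, e⟩).2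
          simp only [hO, hI, true_and, if_true]
          split_ifs <;> omega
        · simp only [hO, hI, false_and, if_true, if_false, Bool.false_eq_true]
          split_ifs <;> omega
    · by_cases hI : inb N s p w = true
      · have hp : p w ≠ u := fun e => hO (hE.1 ⟨hI, e⟩).1
        simp only [hO, hI, true_and, if_false, Bool.false_eq_true]
        split_ifs <;> omega
      · simp only [hO, hI, false_and, if_false, Bool.false_eq_true]
  · rw [colA_sigH_two, colA_sigH_two, colA_sigV_even _ _ (by omega),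
      colA_sigV_even _ _ (by omega)]
    by_cases hu : w = u
    · subst hu
      by_cases hO : outb N s p w = true
      · simp only [hO, true_and, if_true]
        split_ifs <;> omega
      · simp only [hO, false_and, if_false, Bool.false_eq_true]
    · by_cases hO : outb N s p u = true
      · by_cases hO' : outb N s p w = true
        · simp only [hO, hO', true_and, if_true]
          split_ifs <;> omega
        · simp only [hO, hO', false_and, if_true, if_false, Bool.false_eq_true]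
          split_ifs <;> omega
      · by_cases hO' : outb N s p w = true
        · simp only [hO, hO', true_and, if_false, Bool.false_eq_true]
          split_ifs <;> omega
        · simp only [hO, hO', false_and, if_false, Bool.false_eq_true]

/-- conservation of the signals, row `1` -/
theorem colA_cons1 (h : GraphOK N s p) (X : ℕ) (hX : 1 ≤ X)
    (hn : ¬ (((X - 1) / 2) < N ∧ (p (s ((X - 1) / 2)) ≠ (X - 1) / 2 ∨
      ((X - 1) / 2 ≠ 0 ∧ s (p ((X - 1) / 2)) ≠ (X - 1) / 2)))) :
    sigH N s p (X - 1) 1 + sigV N s p X 0 = sigH N s p X 1 + sigV N s p X 1 := by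
  obtain ⟨w, hw⟩ : ∃ w, X = 2 * w + 1 ∨ X = 2 * w + 2 := ⟨(X - 1) / 2, by omega⟩
  have hXw : (X - 1) / 2 = w := by omega
  rw [hXw] at hn
  have hI' : inb N s p w = true ↔ w < N ∧ s (p w) = w ∧ p w ≠ w := colA_inb
  have hO' : outb N s p w = true ↔ w < N ∧ p (s w) = w ∧ s w ≠ w := colA_outb
  have hIO : w ≠ 0 → (inb N s p w = true ↔ outb N s p w = true) := by
    intro hw0
    rw [hI', hO']
    constructor
    · rintro ⟨h1, h2, h3⟩
      have h4 : p (s w) = w := by
        by_contra hc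
        exact hn ⟨h1, Or.inl hc⟩
      refine ⟨h1, h4, fun e => ?_⟩
      rw [e] at h4
      exact h3 h4
    · rintro ⟨h1, h2, h3⟩
      have h4 : s (p w) = w := by
        by_contra hc
        exact hn ⟨h1, Or.inr ⟨hw0, hc⟩⟩
      refine ⟨h1, h4, fun e => ?_⟩
      rw [e] at h4
      exact h3 h4
  have hI0 : w = 0 → ¬ inb N s p w = true := by
    rintro rfl
    rw [hI']
    rintro ⟨_, _, h3⟩
    exact h3 h.p0
  have hO0 : w = 0 → outb N s p w = true := by
    rintro rfl
    rw [hO']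
    refine ⟨h.hN, ?_, h.s0⟩
    by_contra hc
    exact hn ⟨h.hN, Or.inl hc⟩
  have hIO2 : inb N s p w = true → outb N s p w = true := by
    intro h1
    by_cases hw0 : w = 0
    · exact hO0 hw0
    · exact (hIO hw0).1 h1
  rcases hw with rfl | rfl
  · have e1 : 2 * w + 1 - 1 = 2 * w := by omega
    rw [e1, colA_sigH_one_even, colA_sigH_one_odd, colA_sigV_zero, colA_sigV_odd _ _ le_rfl,
      if_neg (by omega)]
    by_cases hI : inb N s p w = true
    · have hO := hIO2 hI
      rw [if_pos ⟨hI, hO⟩, if_pos ⟨hI, by omega⟩]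
    · rw [if_neg (fun hc => hI hc.1), if_neg (fun hc => hI hc.1)]
  · have e1 : 2 * w + 2 - 1 = 2 * w + 1 := by omega
    have e2 : 2 * w + 2 = 2 * (w + 1) := by omega
    have e3 : sigH N s p (2 * w + 2) 1 = 1 := by rw [e2, colA_sigH_one_even]
    rw [e1, e3, colA_sigH_one_odd, colA_sigV_zero, colA_sigV_even _ _ le_rfl]
    by_cases hw0 : w = 0
    · have hO := hO0 hw0
      have hI := hI0 hw0
      rw [if_neg (fun hc => hI hc.1), if_pos (by omega), if_pos ⟨hO, by omega⟩]
    · rw [if_neg (show ¬ 2 * w + 2 = 2 by omega)]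
      by_cases hO : outb N s p w = true
      · have hI := (hIO hw0).2 hO
        rw [if_pos ⟨hI, hO⟩, if_pos ⟨hO, by omega⟩]
      · rw [if_neg (fun hc => hO hc.2), if_neg (fun hc => hO hc.1)]

/-- conservation of the signals -/
theorem colA_cons (h : GraphOK N s p) (X Y : ℕ) (hX : 1 ≤ X) (hY : 1 ≤ Y)
    (hn : ¬ (((X - 1) / 2) < N ∧ (p (s ((X - 1) / 2)) ≠ (X - 1) / 2 ∨
      ((X - 1) / 2 ≠ 0 ∧ s (p ((X - 1) / 2)) ≠ (X - 1) / 2)))) :
    sigH N s p (X - 1) Y + sigV N s p X (Y - 1) = sigH N s p X Y + sigV N s p X Y := by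
  by_cases h1 : Y = 1
  · subst h1
    exact colA_cons1 h X hX hn
  · obtain ⟨u, rfl⟩ : ∃ u, Y = u + 2 := ⟨Y - 2, by omega⟩
    exact colA_cons2 h X u hX

theorem colN_B1 (h : GraphOK N s p) (x y : ℕ) (hx : 14 * N + 16 ≤ x) : colN N s p x y ≠ 1 := by
  unfold colN
  rw [if_neg (by omega)]
  by_cases hy : y < 7
  · rw [if_pos hy, if_neg (by omega)]
    omega
  · rw [if_neg hy]
    have hX : 2 * N + 2 ≤ x / 7 := by omega
    have hY : 1 ≤ y / 7 := by omega
    have hNH : ∀ X Y : ℕ, 2 * N + 1 ≤ X → 1 ≤ Y → sigH N s p X Y = 1 := by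
      intro X Y hX hY
      by_cases h1 : Y = 1
      · subst h1
        unfold sigH
        rw [if_neg (by omega), if_pos rfl, if_neg]
        rintro ⟨_, h2, _⟩
        rw [colA_inb] at h2
        omega
      · obtain ⟨u, rfl⟩ : ∃ u, Y = u + 2 := ⟨Y - 2, by omega⟩
        rw [colA_sigH_two]
        by_cases hO : outb N s p u = true
        · have h2 := (colA_outb.1 hO).1
          have h3 := h.hs u h2
          rw [if_pos hO, if_pos (by omega), if_pos (by omega)]
        · rw [if_neg hO]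
    have hNV : ∀ X Y : ℕ, 2 * N + 2 ≤ X → sigV N s p X Y = 1 := by
      intro X Y hX
      unfold sigV
      split_ifs with h1 h2 h3 h4 h5
      · have := h.hN
        omega
      · rfl
      · have h6 := (colA_inb.1 h4.1).1
        omega
      · rfl
      · have h6 := (colA_outb.1 h5.2.1).1
        omega
      · rfl
    rw [hNH _ _ (by omega) hY, hNV _ _ hX, hNH _ _ (by omega) hY, hNV _ _ hX,
      tile_zero (Nat.mod_lt _ (by norm_num)) (Nat.mod_lt _ (by norm_num))]
    omega

theorem colN_B2 (h : GraphOK N s p) (x y : ℕ) (hy : 14 * N + 16 ≤ y) : colN N s p x y ≠ 2 := by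
  unfold colN
  by_cases hx : x < 7
  · rw [if_pos hx]
    omega
  · rw [if_neg hx, if_neg (by omega)]
    have hN := h.hN
    have hNH : ∀ X Y : ℕ, N + 2 ≤ Y → sigH N s p X Y = 1 := by
      intro X Y hY
      obtain ⟨u, rfl⟩ : ∃ u, Y = u + 2 := ⟨Y - 2, by omega⟩
      rw [colA_sigH_two, if_neg]
      intro hO
      have h2 := (colA_outb.1 hO).1
      omega
    have hNV : ∀ X Y : ℕ, N + 1 ≤ Y → sigV N s p X Y = 1 := by
      intro X Y hY
      unfold sigV
      split_ifs with h1 h2 h3 h4 h5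
      · omega
      · rfl
      · have h6 := h.hp _ (colA_inb.1 h4.1).1
        omega
      · rfl
      · have h6 := (colA_outb.1 h5.2.1).1
        omega
      · rfl
    rw [hNH _ _ (by omega), hNV _ _ (by omega), hNH _ _ (by omega), hNV _ _ (by omega),
      tile_zero (Nat.mod_lt _ (by norm_num)) (Nat.mod_lt _ (by norm_num))]
    omega

theorem colA_col7 (y : ℕ) : colN N s p 7 y = 0 ∨ colN N s p 7 y = 1 := by
  unfold colN
  rw [if_neg (by omega)]
  by_cases hy : y < 7
  · rw [if_pos hy, if_pos (by omega)]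
    exact Or.inr rfl
  · rw [if_neg hy]
    left
    have h0 : ∀ Y, 1 ≤ Y → sigH N s p 0 Y = 1 := by
      intro Y hY
      by_cases h1 : Y = 1
      · subst h1
        exact colA_sigH_one_even 0
      · obtain ⟨u, rfl⟩ : ∃ u, Y = u + 2 := ⟨Y - 2, by omega⟩
        have a1 : ¬ 2 * u + 2 ≤ 0 := by omega
        have a2 : ¬ 2 * s u + 1 ≤ 0 := by omega
        rw [colA_sigH_two]
        simp only [a1, a2, if_false]
        split_ifs <;> rfl
    have h1 := (tile_ring (l := sigH N s p (7 / 7 - 1) (y / 7))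
      (b := sigV N s p (7 / 7) (y / 7 - 1)) (r := sigH N s p (7 / 7) (y / 7))
      (t := sigV N s p (7 / 7) (y / 7)) (j := y % 7) (colA_sigH_lt _ _) (colA_sigV_lt _ _)
      (colA_sigH_lt _ _) (colA_sigV_lt _ _) (Nat.mod_lt _ (by norm_num))).1
    rw [show (7 : ℕ) % 7 = 0 by norm_num, h1, show 7 / 7 - 1 = 0 by norm_num,
      h0 (y / 7) (by omega)]
    rfl

theorem colA_row7 (x : ℕ) (hx : 7 ≤ x) : colN N s p x 7 =
    if x = 15 then 1 else if x = 16 then 2 else 0 := by
  unfold colN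
  rw [if_neg (by omega), if_neg (by omega)]
  have h1 := (tile_ring (l := sigH N s p (x / 7 - 1) (7 / 7))
      (b := sigV N s p (x / 7) (7 / 7 - 1)) (r := sigH N s p (x / 7) (7 / 7))
      (t := sigV N s p (x / 7) (7 / 7)) (j := x % 7) (colA_sigH_lt _ _) (colA_sigV_lt _ _)
      (colA_sigH_lt _ _) (colA_sigV_lt _ _) (Nat.mod_lt _ (by norm_num))).2.2.1
  rw [show (7 : ℕ) % 7 = 0 by norm_num, h1, show 7 / 7 - 1 = 0 by norm_num, colA_sigV_zero]
  unfold sideH
  split_ifs <;> omega

theorem colA_right (x y : ℕ) (hx : 7 ≤ x) (hy : 7 ≤ y) (h6 : x % 7 = 6) :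
    colN N s p x y = colN N s p (x + 1) y := by
  unfold colN
  rw [if_neg (by omega), if_neg (by omega), if_neg (by omega), if_neg (by omega)]
  have e1 : (x + 1) / 7 = x / 7 + 1 := by omega
  have e2 : (x + 1) % 7 = 0 := by omega
  rw [e1, e2, h6, Nat.add_sub_cancel]
  have h1 := (tile_ring (l := sigH N s p (x / 7 - 1) (y / 7))
      (b := sigV N s p (x / 7) (y / 7 - 1)) (r := sigH N s p (x / 7) (y / 7))
      (t := sigV N s p (x / 7) (y / 7)) (j := y % 7) (colA_sigH_lt _ _) (colA_sigV_lt _ _)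
      (colA_sigH_lt _ _) (colA_sigV_lt _ _) (Nat.mod_lt _ (by norm_num))).2.1
  have h2 := (tile_ring (l := sigH N s p (x / 7) (y / 7))
      (b := sigV N s p (x / 7 + 1) (y / 7 - 1)) (r := sigH N s p (x / 7 + 1) (y / 7))
      (t := sigV N s p (x / 7 + 1) (y / 7)) (j := y % 7) (colA_sigH_lt _ _) (colA_sigV_lt _ _)
      (colA_sigH_lt _ _) (colA_sigV_lt _ _) (Nat.mod_lt _ (by norm_num))).1
  rw [h1, h2]

theorem colA_up (x y : ℕ) (hx : 7 ≤ x) (hy : 7 ≤ y) (h6 : y % 7 = 6) :
    colN N s p x y = colN N s p x (y + 1) := by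
  unfold colN
  rw [if_neg (by omega), if_neg (by omega), if_neg (by omega), if_neg (by omega)]
  have e1 : (y + 1) / 7 = y / 7 + 1 := by omega
  have e2 : (y + 1) % 7 = 0 := by omega
  rw [e1, e2, h6, Nat.add_sub_cancel]
  have h1 := (tile_ring (l := sigH N s p (x / 7 - 1) (y / 7))
      (b := sigV N s p (x / 7) (y / 7 - 1)) (r := sigH N s p (x / 7) (y / 7))
      (t := sigV N s p (x / 7) (y / 7)) (j := x % 7) (colA_sigH_lt _ _) (colA_sigV_lt _ _)
      (colA_sigH_lt _ _) (colA_sigV_lt _ _) (Nat.mod_lt _ (by norm_num))).2.2.2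
  have h2 := (tile_ring (l := sigH N s p (x / 7 - 1) (y / 7 + 1))
      (b := sigV N s p (x / 7) (y / 7)) (r := sigH N s p (x / 7) (y / 7 + 1))
      (t := sigV N s p (x / 7) (y / 7 + 1)) (j := x % 7) (colA_sigH_lt _ _) (colA_sigV_lt _ _)
      (colA_sigH_lt _ _) (colA_sigV_lt _ _) (Nat.mod_lt _ (by norm_num))).2.2.1
  rw [h1, h2]

theorem colA_left (x y : ℕ) (hx : x < 7) : colN N s p x y = 1 := by
  unfold colN
  rw [if_pos hx]

theorem colA_low (x y : ℕ) (hx : 7 ≤ x) (hy : y < 7) :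
    colN N s p x y = if x < 16 then 1 else 2 := by
  unfold colN
  rw [if_neg (by omega), if_pos hy]

/-- A trichromatic triple gives a solution of End-of-Line. -/
theorem colN_tri (h : GraphOK N s p) (x y x' y' : ℕ)
    (h' : (x' = x + 1 ∧ y' = y) ∨ (x' = x ∧ y' = y + 1))
    (ht : ¬ noTri (colN N s p x y) (colN N s p x' y') (colN N s p (x + 1) (y + 1))) :
    (x / 7 - 1) / 2 < N ∧ (p (s ((x / 7 - 1) / 2)) ≠ (x / 7 - 1) / 2 ∨
      ((x / 7 - 1) / 2 ≠ 0 ∧ s (p ((x / 7 - 1) / 2)) ≠ (x / 7 - 1) / 2)) := by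
  by_contra hn
  apply ht
  unfold noTri
  by_cases hx6 : x < 6
  · rw [colA_left x y (by omega), colA_left (x + 1) (y + 1) (by omega)]
    exact Or.inr (Or.inr rfl)
  by_cases hx6' : x = 6
  · subst hx6'
    rw [colA_left 6 y (by omega), show 6 + 1 = 7 by norm_num]
    have h1 := colA_col7 (N := N) (s := s) (p := p) (y + 1)
    rcases h' with ⟨rfl, rfl⟩ | ⟨rfl, rfl⟩
    · have h2 := colA_col7 (N := N) (s := s) (p := p) y'
      rw [show 6 + 1 = 7 by norm_num]
      omega
    · rw [colA_left 6 (y + 1) (by omega)]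
      omega
  have hx7 : 7 ≤ x := by omega
  by_cases hy6 : y < 6
  · rw [colA_low x y hx7 (by omega), colA_low (x + 1) (y + 1) (by omega) (by omega)]
    rcases h' with ⟨rfl, rfl⟩ | ⟨rfl, rfl⟩
    · rw [colA_low (x + 1) y' (by omega) (by omega)]
      split_ifs <;> omega
    · rw [colA_low x' (y + 1) (by omega) (by omega)]
      split_ifs <;> omega
  by_cases hy6' : y = 6
  · subst hy6'
    rw [colA_low x 6 hx7 (by omega), show 6 + 1 = 7 by norm_num, colA_row7 (x + 1) (by omega)]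
    rcases h' with ⟨rfl, rfl⟩ | ⟨rfl, rfl⟩
    · rw [colA_low (x + 1) 6 (by omega) (by omega)]
      split_ifs <;> omega
    · rw [colA_row7 x' hx7]
      split_ifs <;> omega
  have hy7 : 7 ≤ y := by omega
  by_cases hxm : x % 7 = 6
  · rcases h' with ⟨rfl, rfl⟩ | ⟨rfl, rfl⟩
    · exact Or.inl (colA_right x y' hx7 hy7 hxm)
    · exact Or.inr (Or.inl (colA_right x' (y + 1) hx7 (by omega) hxm))
  by_cases hym : y % 7 = 6
  · rcases h' with ⟨rfl, rfl⟩ | ⟨rfl, rfl⟩
    · exact Or.inr (Or.inl (colA_up (x + 1) y' (by omega) hy7 hym))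
    · exact Or.inl (colA_up x' y hx7 hy7 hym)
  have hc := colA_cons h (x / 7) (y / 7) (by omega) (by omega) hn
  have hb := tile_bal (l := sigH N s p (x / 7 - 1) (y / 7))
      (b := sigV N s p (x / 7) (y / 7 - 1)) (r := sigH N s p (x / 7) (y / 7))
      (t := sigV N s p (x / 7) (y / 7)) (x := x % 7) (y := y % 7) (colA_sigH_lt _ _)
      (colA_sigV_lt _ _) (colA_sigH_lt _ _) (colA_sigV_lt _ _) hc (by omega) (by omega)
  have e1 : (x + 1) / 7 = x / 7 := by omega
  have e2 : (x + 1) % 7 = x % 7 + 1 := by omega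
  have e3 : (y + 1) / 7 = y / 7 := by omega
  have e4 : (y + 1) % 7 = y % 7 + 1 := by omega
  have f : ∀ X Y : ℕ, 7 ≤ X → 7 ≤ Y → colN N s p X Y =
      tile (sigH N s p (X / 7 - 1) (Y / 7)) (sigV N s p (X / 7) (Y / 7 - 1))
        (sigH N s p (X / 7) (Y / 7)) (sigV N s p (X / 7) (Y / 7)) (X % 7) (Y % 7) := by
    intro X Y hX hY
    unfold colN
    rw [if_neg (by omega), if_neg (by omega)]
  rcases h' with ⟨rfl, rfl⟩ | ⟨rfl, rfl⟩
  · rw [f x y' hx7 hy7, f (x + 1) y' (by omega) hy7, f (x + 1) (y' + 1) (by omega) (by omega),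
      e1, e2, e3, e4]
    exact hb.1
  · rw [f x' y hx7 hy7, f x' (y + 1) hx7 (by omega), f (x' + 1) (y + 1) (by omega) (by omega),
      e1, e2, e3, e4]
    exact hb.2

end Pool.Agent.H424R2.SG
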