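import Pool.Agent.H424R2.SG.ColA

/-!
# Bits of numbers; the graph of an instance of End-of-Line (task COLB, helper584)
-/

namespace Pool.Agent.H424R2.SG

open Pool.Agent.NPC Pool.Agent.H424R2.PPAD

theorem colB_bits_zero (u : ℕ) : u.bits.getD 0 false = decide (u % 2 = 1) := by
  have h1 : u.bits.getD 0 false = u.bits.headI := by
    cases u.bits <;> rfl
  rw [h1, ← Nat.bodd_eq_bits_head]
  have h2 := Nat.mod_two_of_bodd u
  cases h : Nat.bodd u
  · rw [h] at h2
    simp at h2
    simp [h2]
  · rw [h] at h2
    simp at h2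
    simp [h2]

theorem colB_bits_succ (u i : ℕ) : u.bits.getD (i + 1) false = (u / 2).bits.getD i false := by
  rw [← Nat.div2_val, Nat.div2_bits_eq_tail]
  cases u.bits <;> simp

theorem colB_bl_succ (n u : ℕ) : bl (n + 1) u = decide (u % 2 = 1) :: bl n (u / 2) := by
  unfold bl
  rw [List.range_succ_eq_map, List.map_cons, List.map_map, colB_bits_zero]
  congr 1
  apply List.map_congr_left
  intro i _
  exact colB_bits_succ u i

theorem valB_bl {n u : ℕ} (h : u < 2 ^ n) : valB (bl n u) = u := by
  induction n generalizing u with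
  | zero =>
    have : u = 0 := by omega
    subst this
    rfl
  | succ n ih =>
    rw [colB_bl_succ, valB_cons, ih (by rw [pow_succ] at h; omega)]
    rcases Nat.mod_two_eq_zero_or_one u with h1 | h1
    · simp [h1]
      omega
    · simp [h1]
      omega

theorem bl_valB (l : List Bool) : bl l.length (valB l) = l := by
  induction l with
  | nil => rfl
  | cons b l ih =>
    rw [List.length_cons, colB_bl_succ, valB_cons]
    have h1 : ((if b = true then 1 else 0) + 2 * valB l) / 2 = valB l := by
      split_ifs <;> omega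
    rw [h1, ih]
    congr 1
    cases b
    · simp
    · simp [Nat.add_mod]

theorem colB_bl_valB {n : ℕ} {l : List Bool} (h : l.length = n) : bl n (valB l) = l := by
  subst h
  exact bl_valB l

theorem colB_valB_zeros (n : ℕ) : valB (zeros n) = 0 := by
  unfold zeros
  induction n with
  | zero => rfl
  | succ n ih => rw [List.replicate_succ, valB_cons, ih]; rfl

theorem colB_bl_zero (n : ℕ) : bl n 0 = zeros n := by
  have h : (zeros n).length = n := by simp [zeros]
  have h1 := colB_bl_valB h
  rwa [colB_valB_zeros] at h1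

theorem colB_length_eval (C : Circ) (x : List Bool) : (C.eval x).length = C.2.length := by
  simp [Circ.eval]

theorem colB_bl_sN (I : Circ × Circ) (u : ℕ) :
    bl (eolN I) (sN I u) = I.1.eval (bl (eolN I) u) :=
  colB_bl_valB (colB_length_eval _ _)

theorem colB_bl_pN (I : Circ × Circ) (h : I.2.2.length = eolN I) (u : ℕ) :
    bl (eolN I) (pN I u) = I.2.eval (bl (eolN I) u) :=
  colB_bl_valB ((colB_length_eval _ _).trans h)

theorem graphOK (I : Circ × Circ) (hI : EOL.Valid I) : GraphOK (2 ^ eolN I) (sN I) (pN I) := by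
  obtain ⟨h1, h2, h3⟩ := hI
  refine ⟨fun u _ => ?_, fun u _ => ?_, by positivity, ?_, ?_⟩
  · have h := valB_lt (I.1.eval (bl (eolN I) u))
    rwa [colB_length_eval] at h
  · have h := valB_lt (I.2.eval (bl (eolN I) u))
    rwa [colB_length_eval, h1] at h
  · unfold pN
    rw [colB_bl_zero, h2, colB_valB_zeros]
  · intro h
    have h4 := colB_bl_sN I 0
    rw [h, colB_bl_zero] at h4
    exact h3 h4.symm

theorem colI_sol (I : Circ × Circ) (hI : EOL.Valid I) (x y x' y' : ℕ)
    (h' : (x' = x + 1 ∧ y' = y) ∨ (x' = x ∧ y' = y + 1))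
    (ht : ¬ noTri (colI I x y) (colI I x' y') (colI I (x + 1) (y + 1))) :
    EOL.IsSol I (ansI I x) := by
  have hg := graphOK I hI
  obtain ⟨h1, h2⟩ := colN_tri hg x y x' y' h' ht
  have hP := hI.1
  unfold ansI
  set u := (x / 7 - 1) / 2 with hu
  refine ⟨length_bl _ _, ?_⟩
  rcases h2 with h2 | ⟨h2, h3⟩
  · left
    intro hc
    apply h2
    rw [← colB_bl_sN, ← colB_bl_pN I hP] at hc
    have h4 := congrArg valB hc
    rwa [valB_bl (hg.hp _ (hg.hs _ h1)), valB_bl h1] at h4
  · right
    refine ⟨fun hc => ?_, fun hc => ?_⟩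
    · have h4 := congrArg valB hc
      rw [valB_bl h1, colB_valB_zeros] at h4
      exact h2 h4
    · apply h3
      rw [← colB_bl_pN I hP, ← colB_bl_sN] at hc
      have h4 := congrArg valB hc
      rwa [valB_bl (hg.hs _ (hg.hp _ h1)), valB_bl h1] at h4

end Pool.Agent.H424R2.SG
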