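import Pool.Agent.H424R2.PPAD.Defs

/-!
# Symmetric Nash equilibria of symmetric games of given rank
-/

namespace Pool.Agent.H424R2.SG

open Pool.Agent.NPC Pool.Agent.H424R2.PPAD Matrix

/-- `(x, y)` is a Nash equilibrium of the bimatrix game `(A, B)`: `x`, `y` are mixed strategies
(probability vectors) and none of the two players can gain by a unilateral change of his mixed
strategy. -/
def IsNash {m n : ℕ} (A B : Matrix (Fin m) (Fin n) ℝ) (x : Fin m → ℝ) (y : Fin n → ℝ) : Prop :=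
  ((∀ i, 0 ≤ x i) ∧ ∑ i, x i = 1) ∧ ((∀ j, 0 ≤ y j) ∧ ∑ j, y j = 1) ∧
  (∀ x' : Fin m → ℝ, (∀ i, 0 ≤ x' i) → ∑ i, x' i = 1 → x' ⬝ᵥ (A *ᵥ y) ≤ x ⬝ᵥ (A *ᵥ y)) ∧
  (∀ y' : Fin n → ℝ, (∀ j, 0 ≤ y' j) → ∑ j, y' j = 1 → x ⬝ᵥ (B *ᵥ y') ≤ x ⬝ᵥ (B *ᵥ y))

/-- The square matrix given by the list of its rows. -/
def mat (A : List (List ℚ)) : Matrix (Fin A.length) (Fin A.length) ℝ :=
  fun i j => (((A.getD i []).getD j 0 : ℚ) : ℝ)

/-- The vector given by the list of its entries. -/
def vec (n : ℕ) (x : List ℚ) : Fin n → ℝ := fun i => ((x.getD i 0 : ℚ) : ℝ)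

/-- The search problem `SymNE(r)`: the input is a square rational matrix `A` (given by the list of
its rows) such that `A + Aᵀ` has rank at most `r`; the output is a (rational) mixed strategy `x`
such that `(x, x)` is a Nash equilibrium of the symmetric bimatrix game `(A, Aᵀ)`. -/
def SymNE (r : ℕ) : SearchProblem where
  Inst := List (List ℚ)
  Sol := List ℚ
  encInst := inferInstance
  encSol := inferInstance
  Valid A := A ≠ [] ∧ (∀ a ∈ A, a.length = A.length) ∧ (mat A + (mat A)ᵀ).rank ≤ r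
  IsSol A x := x.length = A.length ∧ IsNash (mat A) (mat A)ᵀ (vec A.length x) (vec A.length x)

end Pool.Agent.H424R2.SG
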