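import Pool.Agent.H532R2.RatPoly
import Pool.Agent.H671R2.PolyAuto

/-!
# Affine forms and gates
-/

namespace Pool.Agent.H424R2.SG

open Pool.Agent.NPC

/-- names of gates -/
abbrev Name := List ℕ

/-- affine forms with integer coefficients: the terms and the constant -/
abbrev Form := List (ℤ × Name) × ℤ

/-- a gate: its name, its stage and a form `L`; its value is `max 0 L` -/
abbrev Gate := Name × ℕ × Form

/-- constant form -/
def cst (d : ℤ) : Form := ([], d)

/-- variable -/
def vr (n : Name) : Form := ([(1, n)], 0)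

/-- sum of two forms -/
def fadd (f g : Form) : Form := (f.1 ++ g.1, f.2 + g.2)

/-- multiple of a form -/
def fsmul (a : ℤ) (f : Form) : Form := (f.1.map fun t => (a * t.1, t.2), a * f.2)

/-- sum of a list of forms -/
def fsum (l : List Form) : Form := (l.flatMap fun f => f.1, (l.map fun f => f.2).sum)

/-- value of a form -/
def ev (v : Name → ℚ) (f : Form) : ℚ := (f.1.map fun t => (t.1 : ℚ) * v t.2).sum + f.2

@[simp] theorem ev_cst (v : Name → ℚ) (d : ℤ) : ev v (cst d) = d := by simp [ev, cst]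

@[simp] theorem ev_vr (v : Name → ℚ) (n : Name) : ev v (vr n) = v n := by simp [ev, vr]

@[simp] theorem ev_fadd (v : Name → ℚ) (f g : Form) : ev v (fadd f g) = ev v f + ev v g := by
  simp [ev, fadd]; ring

@[simp] theorem ev_fsmul (v : Name → ℚ) (a : ℤ) (f : Form) : ev v (fsmul a f) = a * ev v f := by
  simp only [ev, fsmul, List.map_map, Function.comp_def, Int.cast_mul]
  rw [mul_add, ← List.sum_map_mul_left]
  congr 2
  apply List.map_congr_left
  intro t _
  ring

@[simp] theorem ev_fsum (v : Name → ℚ) (l : List Form) : ev v (fsum l) = (l.map (ev v)).sum := by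
  induction l with
  | nil => simp [ev, fsum]
  | cons f l ih =>
    simp only [ev, fsum, List.flatMap_cons, List.map_append, List.sum_append, List.map_cons,
      List.sum_cons, Int.cast_add] at ih ⊢
    rw [← ih]
    ring

/-- all variables of the form have names satisfying `P` -/
def FIn (P : Name → Prop) (f : Form) : Prop := ∀ t ∈ f.1, P t.2

theorem FIn.cst {P : Name → Prop} (d : ℤ) : FIn P (cst d) := by intro t ht; simp [SG.cst] at ht

theorem FIn.vr {P : Name → Prop} {n : Name} (h : P n) : FIn P (vr n) := by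
  intro t ht; simp only [SG.vr, List.mem_singleton] at ht; subst ht; exact h

theorem FIn.fadd {P : Name → Prop} {f g : Form} (hf : FIn P f) (hg : FIn P g) :
    FIn P (fadd f g) := by
  intro t ht
  simp only [SG.fadd, List.mem_append] at ht
  exact ht.elim (hf t) (hg t)

theorem FIn.fsmul {P : Name → Prop} {f : Form} (a : ℤ) (hf : FIn P f) : FIn P (fsmul a f) := by
  intro t ht
  simp only [SG.fsmul, List.mem_map] at ht
  obtain ⟨s, hs, rfl⟩ := ht
  exact hf s hs

theorem FIn.fsum {P : Name → Prop} {l : List Form} (h : ∀ f ∈ l, FIn P f) : FIn P (fsum l) := by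
  intro t ht
  simp only [SG.fsum, List.mem_flatMap] at ht
  obtain ⟨f, hf, ht⟩ := ht
  exact h f hf t ht

theorem FIn.mono {P Q : Name → Prop} {f : Form} (hf : FIn P f) (h : ∀ n, P n → Q n) :
    FIn Q f := fun t ht => h _ (hf t ht)

section Poly

variable {α : Type} [TEnc α]

@[fun_prop] theorem poly_cst {d : α → ℤ} (hd : NPC.Poly d) : NPC.Poly fun a => cst (d a) :=
  NPC.Poly.pair (NPC.Poly.const []) hd

@[fun_prop] theorem poly_vr {n : α → Name} (hn : NPC.Poly n) : NPC.Poly fun a => vr (n a) :=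
  NPC.Poly.pair (NPC.Poly.cons (NPC.Poly.pair (NPC.Poly.const 1) hn) (NPC.Poly.const []))
    (NPC.Poly.const 0)

@[fun_prop] theorem poly_fadd {f g : α → Form} (hf : NPC.Poly f) (hg : NPC.Poly g) :
    NPC.Poly fun a => fadd (f a) (g a) :=
  NPC.Poly.pair (NPC.Poly.append (NPC.Poly.fst hf) (NPC.Poly.fst hg))
    (H532.Poly_addZ (NPC.Poly.snd hf) (NPC.Poly.snd hg))

@[fun_prop] theorem poly_fsmul {c : α → ℤ} {f : α → Form} (hc : NPC.Poly c) (hf : NPC.Poly f) :
    NPC.Poly fun a => fsmul (c a) (f a) := by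
  refine NPC.Poly.pair (NPC.Poly.map (F := fun a (t : ℤ × Name) => (c a * t.1, t.2))
    (NPC.Poly.fst hf) ?_) (H532.Poly_mulZ hc (NPC.Poly.snd hf))
  exact NPC.Poly.pair (H532.Poly_mulZ (hc.comp (NPC.Poly.fst NPC.Poly.id))
    (NPC.Poly.fst (NPC.Poly.snd NPC.Poly.id))) (NPC.Poly.snd (NPC.Poly.snd NPC.Poly.id))

@[fun_prop] theorem poly_fsum {l : α → List Form} (hl : NPC.Poly l) :
    NPC.Poly fun a => fsum (l a) := by
  refine NPC.Poly.pair (NPC.Poly.flatMap (F := fun _ (f : Form) => f.1) hl
    (NPC.Poly.fst (NPC.Poly.snd NPC.Poly.id))) (H532.Poly_sumZ (NPC.Poly.map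
    (F := fun _ (f : Form) => f.2) hl (NPC.Poly.snd (NPC.Poly.snd NPC.Poly.id))))

end Poly

end Pool.Agent.H424R2.SG
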