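import Mathlib

/-!
# The resistor gadget
-/

namespace Pool.Agent.H424R2.SG

open Finset

/-- weights of the bits of the gadget -/
def rho (u : ℚ) (j : ℕ) : ℚ := 4 * u / 2 ^ j

/-- payoff of the strategy of bit `j` of the gadget; `bm`, `tm` are the masses of the bits and of
their caps, `g = γ + 4 u` is the input. -/
def payB (Nb : ℕ) (u th D γ : ℚ) (bm tm : ℕ → ℚ) (j : ℕ) : ℚ :=
  rho u j / th * (γ + 4 * u - ∑ i ∈ range j, rho u i * (bm i / th) +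
    ∑ k ∈ Ico (j + 1) Nb, rho u k * (bm k / th) - rho u j) - D / th * tm j

/-- equilibrium conditions for the gadget -/
structure Gad (Nb : ℕ) (u th D κ γ : ℚ) (bm tm : ℕ → ℚ) : Prop where
  bm0 : ∀ j < Nb, 0 ≤ bm j
  tm0 : ∀ j < Nb, 0 ≤ tm j
  hb : ∀ j < Nb, payB Nb u th D γ bm tm j ≤ κ
  hb' : ∀ j < Nb, 0 < bm j → payB Nb u th D γ bm tm j = κ
  ht : ∀ j < Nb, D * (bm j / th - 1) ≤ κ
  ht' : ∀ j < Nb, 0 < tm j → D * (bm j / th - 1) = κ

/-- output of the gadget -/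
def gout (Nb : ℕ) (u th : ℚ) (bm : ℕ → ℚ) : ℚ := ∑ j ∈ range Nb, rho u j * (bm j / th)

variable {Nb : ℕ} {u th D κ γ : ℚ} {bm tm : ℕ → ℚ}

theorem Gad.cap (h : Gad Nb u th D κ γ bm tm) (hD : 0 < D) {j : ℕ} (hj : j < Nb) :
    bm j / th ≤ 1 + κ / D := by
  have h1 := h.ht j hj
  have h2 : bm j / th - 1 ≤ κ / D := by
    rw [le_div_iff₀ hD]; linarith
  linarith

end Pool.Agent.H424R2.SG
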