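import Pool.Agent.H424R2.SG.Gadget

namespace Pool.Agent.H424R2.SG

open Finset

variable {Nb : ℕ} {u th D κ γ : ℚ} {bm tm : ℕ → ℚ}

theorem GadgetPf_rho_pos (hu : 0 < u) (j : ℕ) : 0 < rho u j := by
  unfold rho; positivity

theorem GadgetPf_sum_rho (u : ℚ) (n : ℕ) :
    ∑ j ∈ range (n + 1), rho u j = 8 * u - rho u n := by
  induction n with
  | zero => simp [rho]; ring
  | succ n ih =>
    rw [sum_range_succ, ih]
    unfold rho
    rw [pow_succ]
    field_simp
    ring

theorem GadgetPf_sum_Ico (u : ℚ) (j n : ℕ) (h : j ≤ n) :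
    ∑ k ∈ Ico (j + 1) (n + 1), rho u k = rho u j - rho u n := by
  induction n, h using Nat.le_induction with
  | base => simp
  | succ n h ih =>
    rw [sum_Ico_succ_top (by omega), ih]
    unfold rho
    rw [pow_succ]
    field_simp
    ring

theorem GadgetPf_rho_anti (hu : 0 < u) {j k : ℕ} (h : j ≤ k) : rho u k ≤ rho u j := by
  unfold rho
  have h1 : (2 : ℚ) ^ j ≤ 2 ^ k := pow_le_pow_right₀ (by norm_num) h
  have h2 : (0 : ℚ) < 2 ^ j := by positivity
  exact div_le_div_of_nonneg_left (by positivity) h2 h1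

theorem GadgetPf_split (x : ℕ → ℚ) {j N : ℕ} (hj : j < N) :
    ∑ i ∈ range N, x i = ∑ i ∈ range j, x i + x j + ∑ k ∈ Ico (j + 1) N, x k := by
  rw [← sum_range_succ]
  rw [range_eq_Ico, range_eq_Ico, sum_Ico_consecutive x (Nat.zero_le _) (by omega)]

/-- downward induction -/
theorem GadgetPf_down {P : ℕ → Prop} (N : ℕ) (h : ∀ j < N, (∀ k, j < k → k < N → P k) → P j) :
    ∀ j < N, P j := by
  have key : ∀ m j, j < N → N - j = m → P j := by
    intro m
    induction m using Nat.strong_induction_on with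
    | _ m ih =>
      intro j hj hm
      apply h j hj
      intro k hk hkN
      exact ih (N - k) (by omega) k hkN rfl
  intro j hj
  exact key (N - j) j hj rfl

theorem Gad.zero_of (h : Gad Nb u th D κ γ bm tm) (hD : 0 < D) (hth : 0 < th) (hu : 0 < u)
    (hκ : 0 ≤ κ) {j : ℕ} (hj : j < Nb)
    (hF : γ + 4 * u - ∑ i ∈ range j, rho u i * (bm i / th) +
      ∑ k ∈ Ico (j + 1) Nb, rho u k * (bm k / th) - rho u j < 0) : bm j / th = 0 := by
  have h0 := h.bm0 j hj
  rcases h0.lt_or_eq with h1 | h1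
  · exfalso
    have h2 := h.hb' j hj h1
    unfold payB at h2
    have h3 : rho u j / th * (γ + 4 * u - ∑ i ∈ range j, rho u i * (bm i / th) +
      ∑ k ∈ Ico (j + 1) Nb, rho u k * (bm k / th) - rho u j) < 0 :=
      mul_neg_of_pos_of_neg (div_pos (GadgetPf_rho_pos hu j) hth) hF
    have h4 : 0 ≤ D / th * tm j := mul_nonneg (div_nonneg hD.le hth.le) (h.tm0 j hj)
    linarith
  · rw [← h1, zero_div]

theorem Gad.one_of (h : Gad Nb u th D κ γ bm tm) (hD : 0 < D) (hth : 0 < th) (hu : 0 < u)
    (hκ : 0 ≤ κ) {j : ℕ} (hj : j < Nb)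
    (hF : κ * th / rho u j < γ + 4 * u - ∑ i ∈ range j, rho u i * (bm i / th) +
      ∑ k ∈ Ico (j + 1) Nb, rho u k * (bm k / th) - rho u j) : 1 ≤ bm j / th := by
  have h2 := h.hb j hj
  unfold payB at h2
  have hr := GadgetPf_rho_pos hu j
  have h3 : κ < rho u j / th * (γ + 4 * u - ∑ i ∈ range j, rho u i * (bm i / th) +
      ∑ k ∈ Ico (j + 1) Nb, rho u k * (bm k / th) - rho u j) := by
    have h4 := mul_lt_mul_of_pos_left hF (div_pos hr hth)
    have h5 : rho u j / th * (κ * th / rho u j) = κ := by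
      field_simp
    rw [h5] at h4
    exact h4
  have h4 : 0 < D / th * tm j := by linarith
  have h5 : 0 < tm j := by
    by_contra hcon
    push Not at hcon
    have := mul_nonpos_of_nonneg_of_nonpos (div_nonneg hD.le hth.le) hcon
    linarith
  have h6 := h.ht' j hj h5
  by_contra hcon
  push Not at hcon
  have := mul_neg_of_pos_of_neg hD (by linarith : bm j / th - 1 < 0)
  linarith

/-- The output is close to the input. -/
theorem Gad.err (h : Gad Nb u th D κ γ bm tm) (hD : 0 < D) (hth : 0 < th) (hu : 0 < u)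
    (hκ : 0 ≤ κ) (hN : 2 ≤ Nb) (hγ : |γ| ≤ u) :
    |gout Nb u th bm - (γ + 4 * u)| ≤
      4 * u * κ / D + rho u (Nb - 1) + κ * th / rho u (Nb - 1) := by
  obtain ⟨L, rfl⟩ : ∃ L, Nb = L + 1 := ⟨Nb - 1, by omega⟩
  rw [Nat.add_sub_cancel]
  have hL : 1 ≤ L := by omega
  rw [abs_le] at hγ
  have hrL := GadgetPf_rho_pos hu L
  have hkD : 0 ≤ κ / D := div_nonneg hκ hD.le
  have hkr : 0 ≤ κ * th / rho u L := div_nonneg (mul_nonneg hκ hth.le) hrL.le
  have hkk : 0 ≤ 4 * u * κ / D := by positivity
  have hb0 : ∀ j < L + 1, 0 ≤ bm j / th := fun j hj => div_nonneg (h.bm0 j hj) hth.le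
  set Yv := gout (L + 1) u th bm with hY
  have hsplit : ∀ j < L + 1, Yv = ∑ i ∈ range j, rho u i * (bm i / th) + rho u j * (bm j / th) +
      ∑ k ∈ Ico (j + 1) (L + 1), rho u k * (bm k / th) := by
    intro j hj
    rw [hY]
    unfold gout
    exact GadgetPf_split (fun i => rho u i * (bm i / th)) hj
  -- lower bound
  have hlow : -(4 * u * κ / D) ≤ γ + 4 * u - Yv := by
    by_contra hcon
    push Not at hcon
    have hz : ∀ j < L + 1, bm j / th = 0 := by
      apply GadgetPf_down
      intro j hj ih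
      apply h.zero_of hD hth hu hκ hj
      have hT : ∑ k ∈ Ico (j + 1) (L + 1), rho u k * (bm k / th) = 0 := by
        apply sum_eq_zero
        intro k hk
        rw [mem_Ico] at hk
        rw [ih k (by omega) hk.2, mul_zero]
      have h1 := hsplit j hj
      rw [hT] at h1 ⊢
      have h2 := h.cap hD hj
      have hr := GadgetPf_rho_pos hu j
      have h3 : rho u j ≤ 4 * u := by
        have := GadgetPf_rho_anti hu (Nat.zero_le j)
        simpa [rho] using this
      have h4 : rho u j * (bm j / th - 1) ≤ 4 * u * (κ / D) := by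
        calc rho u j * (bm j / th - 1) ≤ rho u j * (κ / D) :=
              mul_le_mul_of_nonneg_left (by linarith) hr.le
          _ ≤ 4 * u * (κ / D) := mul_le_mul_of_nonneg_right h3 hkD
      have h5 : 4 * u * (κ / D) = 4 * u * κ / D := by ring
      rw [h5] at h4
      have h6 : rho u j * (bm j / th - 1) = rho u j * (bm j / th) - rho u j := by ring
      rw [h6] at h4
      linarith
    have hY0 : Yv = 0 := by
      rw [hY]
      unfold gout
      apply sum_eq_zero
      intro j hj
      rw [hz j (mem_range.1 hj), mul_zero]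
    rw [hY0] at hcon
    linarith
  -- upper bound
  have hup : γ + 4 * u - Yv ≤ rho u L + κ * th / rho u L := by
    by_contra hcon
    push Not at hcon
    have hz : ∀ j < L + 1, 1 ≤ bm j / th := by
      apply GadgetPf_down
      intro j hj ih
      apply h.one_of hD hth hu hκ hj
      have hT : rho u j - rho u L ≤ ∑ k ∈ Ico (j + 1) (L + 1), rho u k * (bm k / th) := by
        rw [← GadgetPf_sum_Ico u j L (by omega)]
        apply sum_le_sum
        intro k hk
        rw [mem_Ico] at hk
        have h1 := ih k (by omega) hk.2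
        have h2 := GadgetPf_rho_pos hu k
        exact le_mul_of_one_le_right h2.le h1
      have h1 := hsplit j hj
      have hr := GadgetPf_rho_pos hu j
      have hrj := GadgetPf_rho_anti hu (by omega : j ≤ L)
      have h2 : 0 ≤ rho u j * (bm j / th) := mul_nonneg hr.le (hb0 j hj)
      have h3 : κ * th / rho u j ≤ κ * th / rho u L :=
        div_le_div_of_nonneg_left (mul_nonneg hκ hth.le) hrL hrj
      linarith
    have h1 : 8 * u - rho u L ≤ Yv := by
      rw [← GadgetPf_sum_rho, hY]
      unfold gout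
      apply sum_le_sum
      intro k hk
      have h1 := hz k (mem_range.1 hk)
      have h2 := GadgetPf_rho_pos hu k
      exact le_mul_of_one_le_right h2.le h1
    have h2 : rho u L ≤ 2 * u := by
      have := GadgetPf_rho_anti hu hL
      have h3 : rho u 1 = 2 * u := by unfold rho; ring
      rw [h3] at this
      exact this
    linarith
  rw [abs_le]
  constructor <;> linarith

theorem GadgetPf_cancel (x : ℕ → ℚ) (N : ℕ) :
    ∑ j ∈ range N, x j * ∑ k ∈ Ico (j + 1) N, x k = ∑ j ∈ range N, x j * ∑ i ∈ range j, x i := by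
  induction N with
  | zero => simp
  | succ N ih =>
    rw [sum_range_succ, sum_range_succ, Ico_self, sum_empty, mul_zero, add_zero]
    have h1 : ∑ j ∈ range N, x j * ∑ k ∈ Ico (j + 1) (N + 1), x k =
        ∑ j ∈ range N, (x j * ∑ k ∈ Ico (j + 1) N, x k + x N * x j) := by
      apply sum_congr rfl
      intro j hj
      rw [mem_range] at hj
      rw [sum_Ico_succ_top (by omega)]
      ring
    rw [h1, sum_add_distrib, ih, mul_sum]

/-- Balance of the gadget. -/
theorem Gad.balance (h : Gad Nb u th D κ γ bm tm) (hD : 0 < D) (hth : 0 < th) (hu : 0 < u)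
    (hκ : 0 ≤ κ) :
    κ * (∑ j ∈ range Nb, bm j + ∑ j ∈ range Nb, tm j) + D * ∑ j ∈ range Nb, tm j ≤
      gout Nb u th bm * (γ + 4 * u) := by
  have h1 : ∀ j < Nb, κ * bm j = bm j * payB Nb u th D γ bm tm j := by
    intro j hj
    rcases (h.bm0 j hj).lt_or_eq with h2 | h2
    · rw [h.hb' j hj h2]; ring
    · rw [← h2]; ring
  have h2 : ∀ j < Nb, κ * tm j = tm j * (D * (bm j / th - 1)) := by
    intro j hj
    rcases (h.tm0 j hj).lt_or_eq with h2 | h2
    · rw [h.ht' j hj h2]; ring
    · rw [← h2]; ring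
  set x : ℕ → ℚ := fun j => rho u j * (bm j / th) with hx
  have h3 : κ * (∑ j ∈ range Nb, bm j + ∑ j ∈ range Nb, tm j) + D * ∑ j ∈ range Nb, tm j =
      ∑ j ∈ range Nb, (x j * (γ + 4 * u) - x j * ∑ i ∈ range j, x i +
        x j * ∑ k ∈ Ico (j + 1) Nb, x k - rho u j * x j) := by
    rw [mul_add, mul_sum, mul_sum, mul_sum, ← sum_add_distrib, ← sum_add_distrib]
    apply sum_congr rfl
    intro j hj
    rw [mem_range] at hj
    rw [h1 j hj, h2 j hj]
    unfold payB
    simp only [hx]
    field_simp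
    ring
  have h4 : ∑ j ∈ range Nb, (x j * (γ + 4 * u) - x j * ∑ i ∈ range j, x i +
        x j * ∑ k ∈ Ico (j + 1) Nb, x k - rho u j * x j) =
      (∑ j ∈ range Nb, x j) * (γ + 4 * u) - ∑ j ∈ range Nb, rho u j * x j := by
    rw [sum_sub_distrib, sum_add_distrib, sum_sub_distrib, GadgetPf_cancel, sum_mul]
    ring
  have h5 : 0 ≤ ∑ j ∈ range Nb, rho u j * x j := by
    apply sum_nonneg
    intro j hj
    rw [mem_range] at hj
    have hr := GadgetPf_rho_pos hu j
    exact mul_nonneg hr.le (mul_nonneg hr.le (div_nonneg (h.bm0 j hj) hth.le))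
  have h6 : gout Nb u th bm = ∑ j ∈ range Nb, x j := rfl
  rw [h3, h4, h6]
  linarith

theorem Gad.gout_le (h : Gad Nb u th D κ γ bm tm) (hD : 0 < D) (hu : 0 < u) (hκ : 0 ≤ κ) :
    gout Nb u th bm ≤ 8 * u * (1 + κ / D) := by
  have hkD : 0 ≤ κ / D := div_nonneg hκ hD.le
  have h1 : gout Nb u th bm ≤ ∑ j ∈ range Nb, rho u j * (1 + κ / D) := by
    unfold gout
    apply sum_le_sum
    intro j hj
    exact mul_le_mul_of_nonneg_left (h.cap hD (mem_range.1 hj)) (GadgetPf_rho_pos hu j).le
  rw [← sum_mul] at h1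
  refine h1.trans (mul_le_mul_of_nonneg_right ?_ (by linarith))
  rcases Nb with _ | n
  · simp; positivity
  · rw [GadgetPf_sum_rho]
    have := GadgetPf_rho_pos hu n
    linarith

end Pool.Agent.H424R2.SG
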