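import Pool.Agent.H424R2.SG.Gadget

/-!
# Analysis of the equilibria: the evaluation of the net
-/

namespace Pool.Agent.H424R2.SG

open Finset

variable {ι : Type} [Fintype ι] [DecidableEq ι]

/-- Data: the net (coefficients `c j i` of the variable `i` in the gate `j`, constants `d`), the
units `θ`, a priori bounds `V`, the parameters, and the assumptions on them. -/
structure NetOK (c : ι → ι → ℚ) (d θ V : ι → ℚ) (st : ι → ℕ) (inn out : Fin 2 → ι)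
    (M u th D : ℚ) (Nb : ℕ) : Prop where
  hθ : ∀ i, 0 < θ i
  hst : ∀ j i, c j i ≠ 0 → st i < st j
  dec : ∀ j, ∑ i, |c i j| * θ i ≤ θ j / 16
  hV : ∀ j, ∑ i, |c j i| * V i + |d j| ≤ V j
  hVin : ∀ e, M + 1 ≤ V (inn e)
  sm1 : ∑ i, (|d i| + 1) * θ i ≤ 1 / 200
  sm2 : ∀ e, M * θ (inn e) ≤ 1 / 200
  sm3 : ∑ i, θ i * V i ≤ 1 / 16
  hin : ∀ e i, c (inn e) i = 0
  hind : ∀ e, d (inn e) = 0
  hout : ∀ e, 4 * u ^ 2 * θ (out e) = 1
  inn_inj : inn 0 ≠ inn 1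
  out_inj : out 0 ≠ out 1
  inn_out : ∀ e e', inn e ≠ out e'
  hM : 0 ≤ M
  cap : ∀ κ : ℚ, 0 ≤ κ → ∀ v : ι → ℚ, (∀ j, (∀ e, j ≠ inn e) →
    v j = max 0 (∑ i, c j i * v i + d j - κ)) → ∀ e, v (out e) ≤ M
  hu : 1 ≤ u
  hth : 0 < th
  hNb : 2 ≤ Nb
  hD : 4096 * u ^ 2 ≤ D
  hrho : 192 * u ^ 2 ≤ 2 ^ (Nb - 1)
  hth1 : 12 * 2 ^ (Nb - 1) * th ≤ 1
  hth2 : 32 * (Nb : ℚ) * th ≤ 1

/-- Equilibrium conditions: `κ` is the payoff, `x0` the mass of the slack strategy, `P`, `W` the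
masses of the primal and dual strategies of the gates, `bm e`, `tm e` those of the gadgets. -/
structure Equil (c : ι → ι → ℚ) (d θ : ι → ℚ) (inn out : Fin 2 → ι) (u th D : ℚ) (Nb : ℕ)
    (κ x0 : ℚ) (P W : ι → ℚ) (bm tm : Fin 2 → ℕ → ℚ) : Prop where
  hκ : 0 ≤ κ
  x0n : 0 ≤ x0
  P0 : ∀ i, 0 ≤ P i
  W0 : ∀ i, 0 ≤ W i
  total : x0 + ∑ i, P i + ∑ i, W i +
    ∑ e, (∑ j ∈ range Nb, bm e j + ∑ j ∈ range Nb, tm e j) = 1
  slack : 0 < x0 → κ = 0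
  hp : ∀ j, (W j - ∑ i, c i j * W i) / θ j - 1 + ∑ e, (if j = out e then
    u * (gout Nb u th (bm e) - 4 * u - (u * W (inn e) - u * P (out e))) else 0) ≤ κ
  hp' : ∀ j, 0 < P j → (W j - ∑ i, c i j * W i) / θ j - 1 + ∑ e, (if j = out e then
    u * (gout Nb u th (bm e) - 4 * u - (u * W (inn e) - u * P (out e))) else 0) = κ
  hw : ∀ j, ∑ i, c j i * (P i / θ i) + d j - P j / θ j + ∑ e, (if j = inn e then
    P (out e) / θ (out e) - u * (gout Nb u th (bm e) - 4 * u -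
      (u * W (inn e) - u * P (out e))) else 0) ≤ κ
  hw' : ∀ j, 0 < W j → ∑ i, c j i * (P i / θ i) + d j - P j / θ j + ∑ e, (if j = inn e then
    P (out e) / θ (out e) - u * (gout Nb u th (bm e) - 4 * u -
      (u * W (inn e) - u * P (out e))) else 0) = κ
  gad : ∀ e, Gad Nb u th D κ (u * W (inn e) - u * P (out e)) (bm e) (tm e)

end Pool.Agent.H424R2.SG
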