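import Pool.Agent.H424R2.SG.Defs
import Pool.Agent.H424R2.SG.Form
import Pool.Agent.H424R2.SG.Lp

/-!
# The symmetric game of a net
-/

namespace Pool.Agent.H424R2.SG

open Pool.Agent.NPC Matrix

/-- coefficient of the variable `n` in a form -/
def coef (f : Form) (n : Name) : ℤ := ((f.1.filter fun t => decide (t.2 = n)).map fun t => t.1).sum

/-- parameters of the game: names of the input and output gates, `s`, `e0` (units of the gates
`2 ^ -(s * stage + e0)`), `h` (`u = 2 ^ h`), `Nb` (number of bits of the gadgets), `F` (unit of the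
gadgets `2 ^ -F`), `Dx` (`D = 2 ^ Dx`) -/
structure Par where
  inn : ℕ → Name
  out : ℕ → Name
  s : ℕ
  e0 : ℕ
  h : ℕ
  Nb : ℕ
  F : ℕ
  Dx : ℕ

/-- strategies: kind (`0` slack, `1` primal, `2` dual, `3` bit of a gadget, `4` cap of a bit),
number of the gadget, number of the bit, gate -/
abbrev St := ℕ × ℕ × ℕ × Gate

/-- dummy gate -/
def g0 : Gate := ([], 0, [], 0)

variable (P : Par)

/-- exponent of the unit of a gate -/
def ex (g : Gate) : ℕ := P.s * g.2.1 + P.e0

/-- the dual strategy of the input gate `e` -/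
def isI (e : ℕ) (x : St) : Bool := decide (x.1 = 2 ∧ x.2.2.2.1 = P.inn e)

/-- the primal strategy of the output gate `e` -/
def isO (e : ℕ) (x : St) : Bool := decide (x.1 = 1 ∧ x.2.2.2.1 = P.out e)

/-- the vectors of the positive semidefinite part -/
def avec (e : ℕ) (x : St) : ℤ := if isI P e x = true ∨ isO P e x = true then 2 ^ P.h else 0

/-- the vectors simulated by the gadgets -/
def avec' (e : ℕ) (x : St) : ℤ :=
  if isI P e x = true then 2 ^ P.h else if isO P e x = true then -2 ^ P.h else 0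

/-- constants -/
def qv (x : St) : ℤ :=
  if x.1 = 1 then -1 + 2 ^ (P.h + 2) * (avec' P 0 x + avec' P 1 x)
  else if x.1 = 2 then x.2.2.2.2.2.2 + 2 ^ (P.h + 2) * (avec' P 0 x + avec' P 1 x)
  else if x.1 = 3 then
    2 ^ (2 * P.h + 4 + P.F - x.2.2.1) - 2 ^ (2 * P.h + 4 + P.F - 2 * x.2.2.1)
  else if x.1 = 4 then -2 ^ P.Dx
  else 0

/-- one half of the skew symmetric part -/
def kv (x y : St) : ℤ :=
  if x.1 = 2 ∧ y.1 = 1 then
    coef x.2.2.2.2.2 y.2.2.2.1 * 2 ^ (ex P y.2.2.2) -
      (if x.2.2.2.1 = y.2.2.2.1 then 2 ^ (ex P y.2.2.2) else 0) +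
      (if (isI P 0 x = true ∧ isO P 0 y = true) ∨ (isI P 1 x = true ∧ isO P 1 y = true) then
        2 ^ (2 * P.h + 1) else 0)
  else if x.1 = 3 ∧ (y.1 = 1 ∨ y.1 = 2) then
    avec' P x.2.1 y * 2 ^ (P.h + 2 + P.F - x.2.2.1)
  else if x.1 = 3 ∧ y.1 = 3 then
    (if x.2.1 = y.2.1 ∧ y.2.2.1 < x.2.2.1 then
      -2 ^ (2 * P.h + 4 + 2 * P.F - x.2.2.1 - y.2.2.1) else 0)
  else if x.1 = 4 ∧ y.1 = 3 then
    (if x.2.1 = y.2.1 ∧ x.2.2.1 = y.2.2.1 then 2 ^ (P.Dx + P.F) else 0)
  else 0

/-- the payoffs of the row player -/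
def entry (x y : St) : ℤ :=
  kv P x y - kv P y x + (avec P 0 x * avec P 0 y + avec P 1 x * avec P 1 y) + (qv P x - qv P y)

/-- the list of the strategies -/
def strats (G : List Gate) : List St :=
  (0, 0, 0, g0) :: (G.map (fun g => (1, 0, 0, g)) ++ (G.map (fun g => (2, 0, 0, g)) ++
    (List.range 2).flatMap fun e => (List.range P.Nb).flatMap fun j =>
      [(3, e, j, g0), (4, e, j, g0)]))

/-- the matrix of the game -/
def gameMat (G : List Gate) : List (List ℚ) :=
  (strats P G).map fun x => (strats P G).map fun y => (entry P x y : ℚ)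

/-- mass of a strategy in a solution -/
def mass (G : List Gate) (x : List ℚ) (y : St) : ℚ := x.getD ((strats P G).idxOf y) 0

/-- value of the gate with a given name in a solution -/
def gval (G : List Gate) (x : List ℚ) (n : Name) : ℚ :=
  match G.find? fun g => decide (g.1 = n) with
  | none => 0
  | some g => mass P G x (1, 0, 0, g) * 2 ^ (ex P g)

/-- the gates of a net as a type -/
abbrev GI (G : List Gate) : Type := {g : Gate // g ∈ G.toFinset}

instance (G : List Gate) : DecidableEq (GI G) := fun a b =>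
  decidable_of_iff (a.1 = b.1) Subtype.ext_iff.symm

/-- the payoff of a pure strategy, up to a constant -/
def pay (G : List Gate) (X : St → ℚ) (x : St) : ℚ :=
  ((strats P G).map fun y => ((kv P x y - kv P y x + (avec P 0 x * avec P 0 y +
    avec P 1 x * avec P 1 y) : ℤ) : ℚ) * X y).sum + (qv P x : ℚ)

/-- size measure of a net, in unary -/
def gsz (G : List Gate) : ℕ :=
  (G.flatMap fun g => (g.2.2.1.flatMap fun t => false :: t.1.natAbs.bits) ++
    (false :: false :: g.2.2.2.natAbs.bits)).length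

/-- the parameters used: `S` is the stage of the output gates and `2 ^ m` bounds the values -/
def parOf (inn out : ℕ → Name) (G : List Gate) (m S : ℕ) : Par where
  inn := inn
  out := out
  s := 2 * (gsz G + 4)
  e0 := 2 * (gsz G + m + 20)
  h := (gsz G + 4) * S + gsz G + m + 19
  Nb := 2 * ((gsz G + 4) * S + gsz G + m + 19) + 10
  F := 4 * ((gsz G + 4) * S + gsz G + m + 19) + 20
  Dx := 2 * ((gsz G + 4) * S + gsz G + m + 19) + 12

end Pool.Agent.H424R2.SG
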