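import Pool.Agent.H424R2.SG.Game

namespace Pool.Agent.H424R2.SG

open Pool.Agent.NPC Matrix

variable (P : Par)

theorem gameA_length (G : List Gate) : (gameMat P G).length = (strats P G).length := by
  simp [gameMat]

theorem gameA_entry (G : List Gate) (i j : ℕ) (hi : i < (strats P G).length)
    (hj : j < (strats P G).length) :
    ((gameMat P G).getD i []).getD j 0 =
      (entry P ((strats P G)[i]) ((strats P G)[j]) : ℚ) := by
  simp [gameMat, List.getD_eq_getElem?_getD, List.getElem?_map, List.getElem?_eq_getElem hi,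
    List.getElem?_eq_getElem hj]

theorem gameA_sym (x y : St) : entry P x y + entry P y x =
    2 * (avec P 0 x * avec P 0 y) + 2 * (avec P 1 x * avec P 1 y) := by
  unfold entry
  ring

theorem gameA_rank_add {m n : ℕ} (A B : Matrix (Fin m) (Fin n) ℝ) :
    (A + B).rank ≤ A.rank + B.rank := by
  unfold Matrix.rank
  rw [Matrix.mulVecLin_add]
  calc _ ≤ Module.finrank ℝ ↥(LinearMap.range A.mulVecLin ⊔ LinearMap.range B.mulVecLin) := by
        apply Submodule.finrank_mono
        rintro _ ⟨x, rfl⟩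
        exact Submodule.add_mem_sup ⟨x, rfl⟩ ⟨x, rfl⟩
    _ ≤ _ := Submodule.finrank_add_le_finrank_add_finrank _ _

theorem gameA_rank (G : List Gate) :
    (mat (gameMat P G) + (mat (gameMat P G))ᵀ).rank ≤ 2 := by
  have hlen := gameA_length P G
  let a : ℕ → Fin (gameMat P G).length → ℝ :=
    fun e i => ((avec P e ((strats P G)[i.1]'(by rw [← hlen]; exact i.2)) : ℤ) : ℝ)
  have h : mat (gameMat P G) + (mat (gameMat P G))ᵀ =
      vecMulVec (fun i => 2 * a 0 i) (a 0) + vecMulVec (fun i => 2 * a 1 i) (a 1) := by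
    ext i j
    have hi : i.1 < (strats P G).length := by rw [← hlen]; exact i.2
    have hj : j.1 < (strats P G).length := by rw [← hlen]; exact j.2
    simp only [Matrix.add_apply, Matrix.transpose_apply, mat, vecMulVec_apply, a]
    rw [gameA_entry P G i.1 j.1 hi hj, gameA_entry P G j.1 i.1 hj hi]
    have h1 := gameA_sym P ((strats P G)[i.1]) ((strats P G)[j.1])
    have h2 : ((entry P ((strats P G)[i.1]) ((strats P G)[j.1]) : ℤ) : ℝ) +
        ((entry P ((strats P G)[j.1]) ((strats P G)[i.1]) : ℤ) : ℝ) =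
        2 * (((avec P 0 ((strats P G)[i.1]) : ℤ) : ℝ) * ((avec P 0 ((strats P G)[j.1]) : ℤ) : ℝ)) +
        2 * (((avec P 1 ((strats P G)[i.1]) : ℤ) : ℝ) * ((avec P 1 ((strats P G)[j.1]) : ℤ) : ℝ)) := by
      exact_mod_cast h1
    push_cast
    rw [h2]
    ring
  rw [h]
  calc _ ≤ _ := gameA_rank_add _ _
    _ ≤ 1 + 1 := Nat.add_le_add (Matrix.rank_vecMulVec_le _ _) (Matrix.rank_vecMulVec_le _ _)
    _ = 2 := rfl

theorem gameMat_valid (G : List Gate) {r : ℕ} (hr : 2 ≤ r) : (SymNE r).Valid (gameMat P G) := by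
  refine ⟨?_, ?_, ?_⟩
  · intro h
    have := congrArg List.length h
    rw [gameA_length] at this
    simp [strats] at this
  · intro a ha
    rw [gameA_length]
    simp only [gameMat, List.mem_map] at ha
    obtain ⟨x, _, rfl⟩ := ha
    simp
  · exact le_trans (gameA_rank P G) hr

end Pool.Agent.H424R2.SG
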