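import Pool.Agent.H424R2.SG.Game

namespace Pool.Agent.H424R2.SG

open Pool.Agent.NPC Matrix

variable (P : Par)

theorem GameB_nodup (G : List Gate) (hG : (G.map fun g => g.1).Nodup) : (strats P G).Nodup := by
  have hG' : G.Nodup := hG.of_map
  unfold strats
  rw [List.nodup_cons]
  constructor
  · simp
  rw [List.nodup_append']
  refine ⟨?_, ?_, ?_⟩
  · exact hG'.map (by intro a b h; simpa using h)
  · rw [List.nodup_append']
    refine ⟨hG'.map (by intro a b h; simpa using h), ?_, ?_⟩
    · rw [List.nodup_flatMap]
      constructor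
      · intro e _
        rw [List.nodup_flatMap]
        constructor
        · intro j _
          simp
        · refine List.Pairwise.imp ?_ List.nodup_range
          intro a b hab
          simp [Function.onFun, List.disjoint_left, hab]
      · refine List.Pairwise.imp ?_ List.nodup_range
        intro a b hab
        simp only [Function.onFun, List.disjoint_left, List.mem_flatMap]
        rintro y ⟨j, _, hj⟩ ⟨j', _, hj'⟩
        simp only [List.mem_cons, List.not_mem_nil, or_false] at hj hj'
        rcases hj with rfl | rfl <;> simp [hab] at hj'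
    · simp only [List.disjoint_left, List.mem_map, List.mem_flatMap]
      rintro y ⟨g, _, rfl⟩ ⟨e, _, j, _, hj⟩
      simp at hj
  · simp only [List.disjoint_left, List.mem_map, List.mem_append, List.mem_flatMap]
    rintro y ⟨g, _, rfl⟩ (⟨g', _, h⟩ | ⟨e, _, j, _, hj⟩)
    · simp at h
    · simp at hj

theorem GameB_sub {α : Type} (L : List α) (f g : α → ℚ) :
    (L.map fun z => f z - g z).sum = (L.map f).sum - (L.map g).sum := by
  induction L with
  | nil => simp
  | cons a L ih => simp only [List.map_cons, List.sum_cons, ih]; ring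

/-- sum over the list as a sum over indices -/
theorem GameB_sum {M : Type} [AddCommMonoid M] {α : Type} (L : List α) (f : α → M) (n : ℕ)
    (g : Fin n → M) (hn : n = L.length) (h : ∀ (i : ℕ) (h1 : i < n) (h2 : i < L.length),
      g ⟨i, h1⟩ = f (L[i]'h2)) : ∑ i : Fin n, g i = (L.map f).sum := by
  subst hn
  rw [← Fin.sum_univ_fun_getElem]
  apply Finset.sum_congr rfl
  intro i _
  exact h i.1 i.2 i.2

/-- A symmetric equilibrium in terms of the masses of the strategies. -/
theorem pay_of_sol (G : List Gate) (hG : (G.map fun g => g.1).Nodup) {r : ℕ} {x : List ℚ}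
    (hx : (SymNE r).IsSol (gameMat P G) x) :
    (∀ y, 0 ≤ mass P G x y) ∧ ((strats P G).map (mass P G x)).sum = 1 ∧
    ∃ κ : ℚ, ∀ y ∈ strats P G, pay P G (mass P G x) y ≤ κ ∧
      (0 < mass P G x y → pay P G (mass P G x) y = κ) := by
  obtain ⟨hlen, hN⟩ := hx
  have hAl : (gameMat P G).length = (strats P G).length := by simp [gameMat]
  have hnd := GameB_nodup P G hG
  obtain ⟨⟨hv0, hv1⟩, _, hbest, _⟩ := hN
  have hmat : ∀ (i j : ℕ) (hi : i < (gameMat P G).length) (hj : j < (gameMat P G).length)
      (hi' : i < (strats P G).length) (hj' : j < (strats P G).length),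
      mat (gameMat P G) ⟨i, hi⟩ ⟨j, hj⟩ =
        ((entry P (strats P G)[i] (strats P G)[j] : ℚ) : ℝ) := by
    intro i j hi hj hi' hj'
    simp only [mat, gameMat]
    have e1 : ((strats P G).map fun x => (strats P G).map fun y => (entry P x y : ℚ)).getD i [] =
        (strats P G).map fun y => (entry P (strats P G)[i] y : ℚ) := by
      rw [List.getD_eq_getElem _ _ (by simpa using hi'), List.getElem_map]
    rw [e1, List.getD_eq_getElem _ _ (by simpa using hj'), List.getElem_map]
  have hmass : ∀ (i : ℕ) (hi' : i < (strats P G).length),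
      mass P G x (strats P G)[i] = x.getD i 0 := by
    intro i hi'
    simp only [mass]
    rw [hnd.idxOf_getElem]
  generalize hLdef : strats P G = L at *
  generalize hAdef : gameMat P G = A at *
  -- nonnegativity
  have h0 : ∀ y, 0 ≤ mass P G x y := by
    intro y
    simp only [mass]
    rw [hLdef]
    by_cases hy : L.idxOf y < A.length
    · have := hv0 ⟨L.idxOf y, hy⟩
      simp only [vec] at this
      exact_mod_cast this
    · rw [List.getD_eq_default _ _ (by omega)]
  have h1 : (L.map (mass P G x)).sum = 1 := by
    have := GameB_sum L (fun y => ((mass P G x y : ℚ) : ℝ)) A.length (vec A.length x) hAl (by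
      intro i h1 h2
      simp only [vec]
      rw [hmass i h2])
    rw [hv1] at this
    have h2 : ((L.map (mass P G x)).sum : ℝ) = (L.map fun y => ((mass P G x y : ℚ) : ℝ)).sum := by
      rw [Rat.cast_list_sum, List.map_map]
      rfl
    rw [← this] at h2
    exact_mod_cast h2
  refine ⟨h0, h1, ?_⟩
  -- the payoff of a row
  have hrow : ∀ (i : ℕ) (hi : i < A.length) (hi' : i < L.length),
      (mat A *ᵥ vec A.length x) ⟨i, hi⟩ =
        (((L.map fun z => (entry P L[i] z : ℚ) * mass P G x z).sum : ℚ) : ℝ) := by
    intro i hi hi'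
    rw [Matrix.mulVec, dotProduct, Rat.cast_list_sum, List.map_map]
    apply GameB_sum _ _ _ _ hAl
    intro j hj hj'
    rw [hmat i j hi hj hi' hj']
    simp only [vec, Function.comp, Rat.cast_mul]
    rw [hmass j hj']
  set pE : St → ℚ := fun y => (L.map fun z => (entry P y z : ℚ) * mass P G x z).sum with hpE
  set lam : ℝ := vec A.length x ⬝ᵥ (mat A *ᵥ vec A.length x) with hlam
  have hle : ∀ i, (mat A *ᵥ vec A.length x) i ≤ lam := by
    intro i
    have := hbest (Pi.single i 1) (fun j => by
      by_cases h : j = i
      · subst h; simp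
      · simp [h]) (by simp)
    simpa using this
  have heq : ∀ i, 0 < vec A.length x i → (mat A *ᵥ vec A.length x) i = lam := by
    have hs : ∑ i, vec A.length x i * (lam - (mat A *ᵥ vec A.length x) i) = 0 := by
      simp only [mul_sub, Finset.sum_sub_distrib]
      rw [← Finset.sum_mul, hv1, one_mul, hlam, dotProduct, sub_self]
    rw [Finset.sum_eq_zero_iff_of_nonneg
      (fun i _ => mul_nonneg (hv0 i) (sub_nonneg.mpr (hle i)))] at hs
    intro i hi
    have := hs i (Finset.mem_univ i)
    rcases mul_eq_zero.mp this with h | h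
    · exact absurd h hi.ne'
    · linarith
  have hlamE : lam = (((L.map fun y => mass P G x y * pE y).sum : ℚ) : ℝ) := by
    rw [hlam, dotProduct, Rat.cast_list_sum, List.map_map]
    apply GameB_sum _ _ _ _ hAl
    intro i hi hi'
    rw [hrow i hi hi']
    simp only [vec, Function.comp, Rat.cast_mul]
    rw [hmass i hi']
  set lamQ : ℚ := (L.map fun y => mass P G x y * pE y).sum with hlamQ
  have hpay : ∀ y, pay P G (mass P G x) y =
      pE y + (L.map fun z => (qv P z : ℚ) * mass P G x z).sum := by
    intro y
    have e1 : pE y = (L.map fun z => ((kv P y z - kv P z y + (avec P 0 y * avec P 0 z +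
        avec P 1 y * avec P 1 z) : ℤ) : ℚ) * mass P G x z).sum +
        ((L.map fun z => (qv P y : ℚ) * mass P G x z).sum -
        (L.map fun z => (qv P z : ℚ) * mass P G x z).sum) := by
      rw [hpE]
      simp only
      rw [← GameB_sub, ← List.sum_map_add]
      congr 1
      apply List.map_congr_left
      intro z _
      simp only [entry]
      push_cast
      ring
    rw [e1, List.sum_map_mul_left, h1]
    simp only [pay, hLdef]
    ring
  refine ⟨lamQ + (L.map fun z => (qv P z : ℚ) * mass P G x z).sum, ?_⟩
  intro y hy
  obtain ⟨i, hi', rfl⟩ := List.getElem_of_mem hy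
  have hi : i < A.length := by rw [hAl]; exact hi'
  rw [hpay]
  constructor
  · have := hle ⟨i, hi⟩
    rw [hrow i hi hi', hlamE] at this
    have : pE L[i] ≤ lamQ := by exact_mod_cast this
    linarith
  · intro hpos
    have hp : 0 < vec A.length x ⟨i, hi⟩ := by
      rw [hmass i hi'] at hpos
      simp only [vec]
      exact_mod_cast hpos
    have := heq ⟨i, hi⟩ hp
    rw [hrow i hi hi', hlamE] at this
    have : pE L[i] = lamQ := by exact_mod_cast this
    rw [this]

end Pool.Agent.H424R2.SG
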