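import Pool.Agent.H424R2.SG.Game

namespace Pool.Agent.H424R2.SG

open Pool.Agent.NPC Matrix

/-- indicator -/
def GameC_I (p : Prop) [Decidable p] : ℚ := if p then 1 else 0

theorem GameC_range_sum (n : ℕ) (f : ℕ → ℚ) :
    ((List.range n).map f).sum = ∑ i ∈ Finset.range n, f i := by
  induction n with
  | zero => simp
  | succ n ih => rw [List.range_succ, List.map_append, List.sum_append, ih, Finset.sum_range_succ]; simp

theorem GameC_G_sum {G : List Gate} (hG : (G.map fun g => g.1).Nodup) (f : Gate → ℚ) :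
    (G.map f).sum = ∑ i : GI G, f i.1 := by
  have hn : G.Nodup := List.Nodup.of_map _ hG
  rw [← List.sum_toFinset f hn]
  exact (Finset.sum_coe_sort G.toFinset f).symm

theorem GameC_flat_sum (n : ℕ) (L : ℕ → List St) (F : St → ℚ) :
    (((List.range n).flatMap L).map F).sum = ∑ i ∈ Finset.range n, ((L i).map F).sum := by
  rw [← GameC_range_sum]
  induction (List.range n) with
  | nil => simp
  | cons a l ih => simp [ih]

section

variable (P : Par) {G : List Gate} (hG : (G.map fun g => g.1).Nodup)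

include hG

theorem GameC_strats_sum (F : St → ℚ) :
    ((strats P G).map F).sum = F (0, 0, 0, g0) + ∑ i : GI G, F (1, 0, 0, i.1) +
      ∑ i : GI G, F (2, 0, 0, i.1) + ∑ e ∈ Finset.range 2, ∑ j ∈ Finset.range P.Nb,
        (F (3, e, j, g0) + F (4, e, j, g0)) := by
  unfold strats
  rw [List.map_cons, List.sum_cons, List.map_append, List.sum_append, List.map_append,
    List.sum_append, List.map_map, List.map_map, GameC_G_sum hG, GameC_G_sum hG, GameC_flat_sum]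
  have : ∀ e ∈ Finset.range 2, (((List.range P.Nb).flatMap fun j =>
      [((3, e, j, g0) : St), (4, e, j, g0)]).map F).sum =
      ∑ j ∈ Finset.range P.Nb, (F (3, e, j, g0) + F (4, e, j, g0)) := by
    intro e _
    rw [GameC_flat_sum]
    refine Finset.sum_congr rfl fun j _ => ?_
    simp
  rw [Finset.sum_congr rfl this]
  simp only [Function.comp_apply]
  ring

theorem GameC_inj {i z : GI G} (h : i.1.1 = z.1.1) : i = z :=
  Subtype.ext (List.inj_on_of_nodup_map hG (List.mem_toFinset.1 i.2) (List.mem_toFinset.1 z.2) h)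

theorem GameC_sel (z : GI G) {n : Name} (hn : z.1.1 = n) (f : GI G → ℚ) :
    ∑ i : GI G, GameC_I (i.1.1 = n) * f i = f z := by
  subst hn
  rw [Finset.sum_eq_single z]
  · simp [GameC_I]
  · intro i _ hi
    have : ¬ i.1.1 = z.1.1 := fun h => hi (GameC_inj hG h)
    simp [GameC_I, this]
  · intro h
    exact absurd (Finset.mem_univ _) h

end

/-- the kernel, without the constants -/
def GameC_K (P : Par) (x y : St) : ℚ :=
  ((kv P x y - kv P y x + (avec P 0 x * avec P 0 y + avec P 1 x * avec P 1 y) : ℤ) : ℚ)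

section

variable (P : Par)

theorem GameC_a0 (e : ℕ) : avec P e (0, 0, 0, g0) = 0 := by simp [avec, isI, isO]

theorem GameC_a3 (e e' j : ℕ) (g : Gate) : avec P e (3, e', j, g) = 0 := by simp [avec, isI, isO]

theorem GameC_a4 (e e' j : ℕ) (g : Gate) : avec P e (4, e', j, g) = 0 := by simp [avec, isI, isO]

theorem GameC_a1 (e : ℕ) (g : Gate) :
    ((avec P e (1, 0, 0, g) : ℤ) : ℚ) = 2 ^ P.h * GameC_I (g.1 = P.out e) := by
  by_cases h : g.1 = P.out e <;> simp [avec, isI, isO, GameC_I, h]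

theorem GameC_a2 (e : ℕ) (g : Gate) :
    ((avec P e (2, 0, 0, g) : ℤ) : ℚ) = 2 ^ P.h * GameC_I (g.1 = P.inn e) := by
  by_cases h : g.1 = P.inn e <;> simp [avec, isI, isO, GameC_I, h]

theorem GameC_b1 (e : ℕ) (g : Gate) :
    ((avec' P e (1, 0, 0, g) : ℤ) : ℚ) = -(2 ^ P.h * GameC_I (g.1 = P.out e)) := by
  by_cases h : g.1 = P.out e <;> simp [avec', isI, isO, GameC_I, h]

theorem GameC_b2 (e : ℕ) (g : Gate) :
    ((avec' P e (2, 0, 0, g) : ℤ) : ℚ) = 2 ^ P.h * GameC_I (g.1 = P.inn e) := by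
  by_cases h : g.1 = P.inn e <;> simp [avec', isI, isO, GameC_I, h]

theorem GameC_k21 (hne : P.inn 0 ≠ P.inn 1) (g g' : Gate) :
    ((kv P (2, 0, 0, g) (1, 0, 0, g') : ℤ) : ℚ) =
      (coef g.2.2 g'.1 : ℚ) * 2 ^ (ex P g') - GameC_I (g.1 = g'.1) * 2 ^ (ex P g') +
      2 ^ (2 * P.h + 1) * (GameC_I (g.1 = P.inn 0) * GameC_I (g'.1 = P.out 0) +
        GameC_I (g.1 = P.inn 1) * GameC_I (g'.1 = P.out 1)) := by
  have e1 : isI P 0 (2, 0, 0, g) = decide (g.1 = P.inn 0) := by simp [isI]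
  have e2 : isI P 1 (2, 0, 0, g) = decide (g.1 = P.inn 1) := by simp [isI]
  have e3 : isO P 0 (1, 0, 0, g') = decide (g'.1 = P.out 0) := by simp [isO]
  have e4 : isO P 1 (1, 0, 0, g') = decide (g'.1 = P.out 1) := by simp [isO]
  have h : ((if (isI P 0 (2, 0, 0, g) = true ∧ isO P 0 (1, 0, 0, g') = true) ∨
      (isI P 1 (2, 0, 0, g) = true ∧ isO P 1 (1, 0, 0, g') = true) then
        (2 : ℤ) ^ (2 * P.h + 1) else 0 : ℤ) : ℚ) =
      2 ^ (2 * P.h + 1) * (GameC_I (g.1 = P.inn 0) * GameC_I (g'.1 = P.out 0) +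
        GameC_I (g.1 = P.inn 1) * GameC_I (g'.1 = P.out 1)) := by
    rw [e1, e2, e3, e4]
    simp only [decide_eq_true_eq]
    unfold GameC_I
    by_cases h1 : g.1 = P.inn 0
    · have h2 : ¬ g.1 = P.inn 1 := fun h => hne (h1.symm.trans h)
      rw [if_pos h1, if_neg h2]
      by_cases h3 : g'.1 = P.out 0
      · rw [if_pos (Or.inl ⟨h1, h3⟩), if_pos h3]; push_cast; ring
      · rw [if_neg (by rintro (h | h); exacts [h3 h.2, h2 h.1]), if_neg h3]; push_cast; ring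
    · rw [if_neg h1]
      by_cases h2 : g.1 = P.inn 1
      · rw [if_pos h2]
        by_cases h3 : g'.1 = P.out 1
        · rw [if_pos (Or.inr ⟨h2, h3⟩), if_pos h3]; push_cast; ring
        · rw [if_neg (by rintro (h | h); exacts [h1 h.1, h3 h.2]), if_neg h3]; push_cast; ring
      · rw [if_neg (by rintro (h | h); exacts [h1 h.1, h2 h.1]), if_neg h2]; push_cast; ring
  have hk : kv P (2, 0, 0, g) (1, 0, 0, g') = coef g.2.2 g'.1 * 2 ^ (ex P g') -
      (if g.1 = g'.1 then 2 ^ (ex P g') else 0) +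
      (if (isI P 0 (2, 0, 0, g) = true ∧ isO P 0 (1, 0, 0, g') = true) ∨
        (isI P 1 (2, 0, 0, g) = true ∧ isO P 1 (1, 0, 0, g') = true) then
        2 ^ (2 * P.h + 1) else 0) := by
    unfold kv
    rw [if_pos ⟨rfl, rfl⟩]
  rw [hk, Int.cast_add, h]
  congr 1
  unfold GameC_I
  split_ifs <;> push_cast <;> ring

theorem GameC_k0 (y : St) : kv P (0, 0, 0, g0) y = 0 := by simp [kv]
theorem GameC_kx0 (x : St) : kv P x (0, 0, 0, g0) = 0 := by simp [kv]
theorem GameC_k1 (g : Gate) (y : St) : kv P (1, 0, 0, g) y = 0 := by simp [kv]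
theorem GameC_k22 (g g' : Gate) : kv P (2, 0, 0, g) (2, 0, 0, g') = 0 := by simp [kv]
theorem GameC_k23 (g g' : Gate) (e j : ℕ) : kv P (2, 0, 0, g) (3, e, j, g') = 0 := by simp [kv]
theorem GameC_k24 (g g' : Gate) (e j : ℕ) : kv P (2, 0, 0, g) (4, e, j, g') = 0 := by simp [kv]
theorem GameC_k31 (g g' : Gate) (e j : ℕ) : kv P (3, e, j, g') (1, 0, 0, g) =
    avec' P e (1, 0, 0, g) * 2 ^ (P.h + 2 + P.F - j) := by simp [kv]
theorem GameC_k32 (g g' : Gate) (e j : ℕ) : kv P (3, e, j, g') (2, 0, 0, g) =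
    avec' P e (2, 0, 0, g) * 2 ^ (P.h + 2 + P.F - j) := by simp [kv]
theorem GameC_k33 (e j e' j' : ℕ) (g g' : Gate) : kv P (3, e, j, g) (3, e', j', g') =
    (if e = e' ∧ j' < j then -2 ^ (2 * P.h + 4 + 2 * P.F - j - j') else 0) := by simp [kv]
theorem GameC_k34 (e j e' j' : ℕ) (g g' : Gate) : kv P (3, e, j, g) (4, e', j', g') = 0 := by
  simp [kv]
theorem GameC_k41 (g g' : Gate) (e j : ℕ) : kv P (4, e, j, g') (1, 0, 0, g) = 0 := by simp [kv]
theorem GameC_k42 (g g' : Gate) (e j : ℕ) : kv P (4, e, j, g') (2, 0, 0, g) = 0 := by simp [kv]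
theorem GameC_k43 (e j e' j' : ℕ) (g g' : Gate) : kv P (4, e, j, g) (3, e', j', g') =
    (if e = e' ∧ j = j' then 2 ^ (P.Dx + P.F) else 0) := by simp [kv]
theorem GameC_k44 (e j e' j' : ℕ) (g g' : Gate) : kv P (4, e, j, g) (4, e', j', g') = 0 := by
  simp [kv]

theorem GameC_q1 (g : Gate) : ((qv P (1, 0, 0, g) : ℤ) : ℚ) =
    -1 - 2 ^ (P.h + 2) * 2 ^ P.h * (GameC_I (g.1 = P.out 0) + GameC_I (g.1 = P.out 1)) := by
  have : qv P (1, 0, 0, g) = -1 + 2 ^ (P.h + 2) * (avec' P 0 (1, 0, 0, g) + avec' P 1 (1, 0, 0, g)) := by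
    simp [qv]
  rw [this]
  push_cast
  rw [GameC_b1, GameC_b1]
  ring

theorem GameC_q2 (g : Gate) : ((qv P (2, 0, 0, g) : ℤ) : ℚ) =
    g.2.2.2 + 2 ^ (P.h + 2) * 2 ^ P.h * (GameC_I (g.1 = P.inn 0) + GameC_I (g.1 = P.inn 1)) := by
  have : qv P (2, 0, 0, g) = g.2.2.2 + 2 ^ (P.h + 2) * (avec' P 0 (2, 0, 0, g) + avec' P 1 (2, 0, 0, g)) := by
    simp [qv]
  rw [this]
  push_cast
  rw [GameC_b2, GameC_b2]
  ring

theorem GameC_q0 : qv P (0, 0, 0, g0) = 0 := by simp [qv]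

theorem GameC_q3 (e j : ℕ) (g : Gate) : ((qv P (3, e, j, g) : ℤ) : ℚ) =
    2 ^ (2 * P.h + 4 + P.F - j) - 2 ^ (2 * P.h + 4 + P.F - 2 * j) := by
  simp [qv]

theorem GameC_q4 (e j : ℕ) (g : Gate) : ((qv P (4, e, j, g) : ℤ) : ℚ) = -2 ^ P.Dx := by
  simp [qv]

end

/-! ### The payoffs -/

section

variable (P : Par) {G : List Gate} (hG : (G.map fun g => g.1).Nodup) (X : St → ℚ)

/-- the input of the output gates from the gadget -/
def GameC_B (e : ℕ) : ℚ :=
  ∑ j ∈ Finset.range P.Nb, 2 ^ (P.h + 2 + P.F - j) * X (3, e, j, g0)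

include hG in
theorem GameC_pay (x : St) : pay P G X x =
    GameC_K P x (0, 0, 0, g0) * X (0, 0, 0, g0) +
      ∑ i : GI G, GameC_K P x (1, 0, 0, i.1) * X (1, 0, 0, i.1) +
      ∑ i : GI G, GameC_K P x (2, 0, 0, i.1) * X (2, 0, 0, i.1) +
      ∑ e ∈ Finset.range 2, ∑ j ∈ Finset.range P.Nb,
        (GameC_K P x (3, e, j, g0) * X (3, e, j, g0) + GameC_K P x (4, e, j, g0) * X (4, e, j, g0)) +
      (qv P x : ℚ) := by
  unfold pay
  rw [← GameC_strats_sum P hG (fun y => GameC_K P x y * X y)]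
  rfl

include hG in
theorem GameC_pay0 : pay P G X (0, 0, 0, g0) = 0 := by
  rw [GameC_pay P hG X]
  have h : ∀ y, GameC_K P (0, 0, 0, g0) y = 0 := by
    intro y
    unfold GameC_K
    rw [GameC_k0, GameC_kx0, GameC_a0, GameC_a0]
    simp
  simp only [h, zero_mul, Finset.sum_const_zero, add_zero, GameC_q0, Int.cast_zero]

variable {gi go : Fin 2 → GI G} (hgi : ∀ e, (gi e).1.1 = P.inn e) (hgo : ∀ e, (go e).1.1 = P.out e)
  (hne : P.inn 0 ≠ P.inn 1)

include hG hgi hgo hne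

theorem GameC_pay1 (g : GI G) : pay P G X (1, 0, 0, g.1) =
    (X (2, 0, 0, g.1) - ∑ i : GI G, (coef i.1.2.2 g.1.1 : ℚ) * X (2, 0, 0, i.1)) * 2 ^ (ex P g.1) - 1 +
    (GameC_I (g.1.1 = P.out 0) * (2 ^ P.h * (GameC_B P X 0 - 4 * 2 ^ P.h -
      (2 ^ P.h * X (2, 0, 0, (gi 0).1) - 2 ^ P.h * X (1, 0, 0, (go 0).1)))) +
    GameC_I (g.1.1 = P.out 1) * (2 ^ P.h * (GameC_B P X 1 - 4 * 2 ^ P.h -
      (2 ^ P.h * X (2, 0, 0, (gi 1).1) - 2 ^ P.h * X (1, 0, 0, (go 1).1))))) := by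
  rw [GameC_pay P hG X]
  set u : ℚ := 2 ^ P.h with hu
  set E : ℚ := 2 ^ (ex P g.1) with hE
  set p0 : ℚ := GameC_I (g.1.1 = P.out 0) with hp0
  set p1 : ℚ := GameC_I (g.1.1 = P.out 1) with hp1
  have h0 : GameC_K P (1, 0, 0, g.1) (0, 0, 0, g0) = 0 := by
    unfold GameC_K
    rw [GameC_k0, GameC_kx0, GameC_a0, GameC_a0]
    simp
  have h1 : ∀ i : GI G, GameC_K P (1, 0, 0, g.1) (1, 0, 0, i.1) * X (1, 0, 0, i.1) =
      (u ^ 2 * p0) * (GameC_I (i.1.1 = P.out 0) * X (1, 0, 0, i.1)) +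
      (u ^ 2 * p1) * (GameC_I (i.1.1 = P.out 1) * X (1, 0, 0, i.1)) := by
    intro i
    unfold GameC_K
    rw [GameC_k1, GameC_k1]
    push_cast
    rw [GameC_a1, GameC_a1, GameC_a1, GameC_a1]
    ring
  have h2 : ∀ i : GI G, GameC_K P (1, 0, 0, g.1) (2, 0, 0, i.1) * X (2, 0, 0, i.1) =
      (-E) * ((coef i.1.2.2 g.1.1 : ℚ) * X (2, 0, 0, i.1)) +
      E * (GameC_I (i.1.1 = g.1.1) * X (2, 0, 0, i.1)) +
      (-(u ^ 2 * p0)) * (GameC_I (i.1.1 = P.inn 0) * X (2, 0, 0, i.1)) +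
      (-(u ^ 2 * p1)) * (GameC_I (i.1.1 = P.inn 1) * X (2, 0, 0, i.1)) := by
    intro i
    unfold GameC_K
    rw [GameC_k1]
    push_cast
    rw [GameC_a1, GameC_a1, GameC_a2, GameC_a2, GameC_k21 P hne]
    ring
  have h3 : ∀ e ∈ Finset.range 2, ∑ j ∈ Finset.range P.Nb,
        (GameC_K P (1, 0, 0, g.1) (3, e, j, g0) * X (3, e, j, g0) +
          GameC_K P (1, 0, 0, g.1) (4, e, j, g0) * X (4, e, j, g0)) =
      (u * GameC_I (g.1.1 = P.out e)) * GameC_B P X e := by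
    intro e _
    unfold GameC_B
    rw [Finset.mul_sum]
    refine Finset.sum_congr rfl fun j _ => ?_
    unfold GameC_K
    rw [GameC_k1, GameC_k1, GameC_k31, GameC_k41, GameC_a3, GameC_a3, GameC_a4, GameC_a4]
    push_cast
    rw [GameC_b1]
    ring
  rw [h0, Finset.sum_congr rfl h3, Finset.sum_congr rfl (fun i _ => h1 i),
    Finset.sum_congr rfl (fun i _ => h2 i)]
  simp only [Finset.sum_add_distrib, ← Finset.mul_sum]
  rw [GameC_sel hG (go 0) (n := P.out 0) (hgo 0) (fun i => X (1, 0, 0, i.1)),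
    GameC_sel hG (go 1) (n := P.out 1) (hgo 1) (fun i => X (1, 0, 0, i.1)),
    GameC_sel hG g rfl (fun i => X (2, 0, 0, i.1)),
    GameC_sel hG (gi 0) (n := P.inn 0) (hgi 0) (fun i => X (2, 0, 0, i.1)),
    GameC_sel hG (gi 1) (n := P.inn 1) (hgi 1) (fun i => X (2, 0, 0, i.1)), GameC_q1,
    Finset.sum_range_succ, Finset.sum_range_succ, Finset.sum_range_zero]
  rw [← hp0, ← hp1, ← hu]
  have hh : (2 : ℚ) ^ (P.h + 2) = 4 * u := by rw [hu]; ring
  rw [hh]
  ring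

theorem GameC_pay2 (g : GI G) : pay P G X (2, 0, 0, g.1) =
    ∑ i : GI G, (coef g.1.2.2 i.1.1 : ℚ) * (X (1, 0, 0, i.1) * 2 ^ (ex P i.1)) + g.1.2.2.2 -
      X (1, 0, 0, g.1) * 2 ^ (ex P g.1) +
    (GameC_I (g.1.1 = P.inn 0) * (4 * (2 ^ P.h) ^ 2 * X (1, 0, 0, (go 0).1) - 2 ^ P.h * (GameC_B P X 0 - 4 * 2 ^ P.h -
      (2 ^ P.h * X (2, 0, 0, (gi 0).1) - 2 ^ P.h * X (1, 0, 0, (go 0).1)))) +
    GameC_I (g.1.1 = P.inn 1) * (4 * (2 ^ P.h) ^ 2 * X (1, 0, 0, (go 1).1) - 2 ^ P.h * (GameC_B P X 1 - 4 * 2 ^ P.h -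
      (2 ^ P.h * X (2, 0, 0, (gi 1).1) - 2 ^ P.h * X (1, 0, 0, (go 1).1))))) := by
  rw [GameC_pay P hG X]
  set u : ℚ := 2 ^ P.h with hu
  set p0 : ℚ := GameC_I (g.1.1 = P.inn 0) with hp0
  set p1 : ℚ := GameC_I (g.1.1 = P.inn 1) with hp1
  have h0 : GameC_K P (2, 0, 0, g.1) (0, 0, 0, g0) = 0 := by
    unfold GameC_K
    rw [GameC_k0, GameC_kx0, GameC_a0, GameC_a0]
    simp
  have hsymm : ∀ i : GI G, GameC_I (g.1.1 = i.1.1) = GameC_I (i.1.1 = g.1.1) := by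
    intro i
    unfold GameC_I
    by_cases h : g.1.1 = i.1.1
    · rw [if_pos h, if_pos h.symm]
    · rw [if_neg h, if_neg (fun h' => h h'.symm)]
  have h1 : ∀ i : GI G, GameC_K P (2, 0, 0, g.1) (1, 0, 0, i.1) * X (1, 0, 0, i.1) =
      (coef g.1.2.2 i.1.1 : ℚ) * (X (1, 0, 0, i.1) * 2 ^ (ex P i.1)) +
      (-1) * (GameC_I (i.1.1 = g.1.1) * (X (1, 0, 0, i.1) * 2 ^ (ex P i.1))) +
      (3 * u ^ 2 * p0) * (GameC_I (i.1.1 = P.out 0) * X (1, 0, 0, i.1)) +
      (3 * u ^ 2 * p1) * (GameC_I (i.1.1 = P.out 1) * X (1, 0, 0, i.1)) := by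
    intro i
    unfold GameC_K
    rw [GameC_k1]
    push_cast
    rw [GameC_a1, GameC_a1, GameC_a2, GameC_a2, GameC_k21 P hne, hsymm]
    ring
  have h2 : ∀ i : GI G, GameC_K P (2, 0, 0, g.1) (2, 0, 0, i.1) * X (2, 0, 0, i.1) =
      (u ^ 2 * p0) * (GameC_I (i.1.1 = P.inn 0) * X (2, 0, 0, i.1)) +
      (u ^ 2 * p1) * (GameC_I (i.1.1 = P.inn 1) * X (2, 0, 0, i.1)) := by
    intro i
    unfold GameC_K
    rw [GameC_k22, GameC_k22]
    push_cast
    rw [GameC_a2, GameC_a2, GameC_a2, GameC_a2]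
    ring
  have h3 : ∀ e ∈ Finset.range 2, ∑ j ∈ Finset.range P.Nb,
        (GameC_K P (2, 0, 0, g.1) (3, e, j, g0) * X (3, e, j, g0) +
          GameC_K P (2, 0, 0, g.1) (4, e, j, g0) * X (4, e, j, g0)) =
      (-(u * GameC_I (g.1.1 = P.inn e))) * GameC_B P X e := by
    intro e _
    unfold GameC_B
    rw [Finset.mul_sum]
    refine Finset.sum_congr rfl fun j _ => ?_
    unfold GameC_K
    rw [GameC_k23, GameC_k24, GameC_k32, GameC_k42, GameC_a3, GameC_a3, GameC_a4, GameC_a4]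
    push_cast
    rw [GameC_b2]
    ring
  rw [h0, Finset.sum_congr rfl h3, Finset.sum_congr rfl (fun i _ => h1 i),
    Finset.sum_congr rfl (fun i _ => h2 i)]
  simp only [Finset.sum_add_distrib, ← Finset.mul_sum]
  rw [GameC_sel hG (go 0) (n := P.out 0) (hgo 0) (fun i => X (1, 0, 0, i.1)),
    GameC_sel hG (go 1) (n := P.out 1) (hgo 1) (fun i => X (1, 0, 0, i.1)),
    GameC_sel hG g rfl (fun i => (X (1, 0, 0, i.1) * 2 ^ (ex P i.1))),
    GameC_sel hG (gi 0) (n := P.inn 0) (hgi 0) (fun i => X (2, 0, 0, i.1)),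
    GameC_sel hG (gi 1) (n := P.inn 1) (hgi 1) (fun i => X (2, 0, 0, i.1)), GameC_q2,
    Finset.sum_range_succ, Finset.sum_range_succ, Finset.sum_range_zero]
  rw [← hp0, ← hp1, ← hu]
  have hh : (2 : ℚ) ^ (P.h + 2) = 4 * u := by rw [hu]; ring
  rw [hh]
  ring

omit hne in
theorem GameC_pay3 (e : Fin 2) {j : ℕ} (hj : j < P.Nb) : pay P G X (3, e, j, g0) =
    2 ^ (P.h + 2 + P.F - j) * (2 ^ P.h * X (2, 0, 0, (gi e).1) - 2 ^ P.h * X (1, 0, 0, (go e).1)) -
    ∑ i ∈ Finset.range j, 2 ^ (2 * P.h + 4 + 2 * P.F - j - i) * X (3, e, i, g0) +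
    ∑ k ∈ Finset.Ico (j + 1) P.Nb, 2 ^ (2 * P.h + 4 + 2 * P.F - k - j) * X (3, e, k, g0) -
    2 ^ (P.Dx + P.F) * X (4, e, j, g0) +
    (2 ^ (2 * P.h + 4 + P.F - j) - 2 ^ (2 * P.h + 4 + P.F - 2 * j)) := by
  rw [GameC_pay P hG X]
  set u : ℚ := 2 ^ P.h with hu
  have h0 : GameC_K P (3, e, j, g0) (0, 0, 0, g0) = 0 := by
    unfold GameC_K
    rw [GameC_k0, GameC_kx0, GameC_a0, GameC_a0]
    simp
  have h1 : ∀ i : GI G, GameC_K P (3, e, j, g0) (1, 0, 0, i.1) * X (1, 0, 0, i.1) =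
      (-(2 ^ (P.h + 2 + P.F - j) * u)) * (GameC_I (i.1.1 = P.out e) * X (1, 0, 0, i.1)) := by
    intro i
    unfold GameC_K
    rw [GameC_k1, GameC_k31, GameC_a3, GameC_a3]
    push_cast
    rw [GameC_b1]
    ring
  have h2 : ∀ i : GI G, GameC_K P (3, e, j, g0) (2, 0, 0, i.1) * X (2, 0, 0, i.1) =
      (2 ^ (P.h + 2 + P.F - j) * u) * (GameC_I (i.1.1 = P.inn e) * X (2, 0, 0, i.1)) := by
    intro i
    unfold GameC_K
    rw [GameC_k23, GameC_k32, GameC_a3, GameC_a3]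
    push_cast
    rw [GameC_b2]
    ring
  have h3 : ∑ e' ∈ Finset.range 2, ∑ j' ∈ Finset.range P.Nb,
        (GameC_K P (3, e, j, g0) (3, e', j', g0) * X (3, e', j', g0) +
          GameC_K P (3, e, j, g0) (4, e', j', g0) * X (4, e', j', g0)) =
      ∑ j' ∈ Finset.range P.Nb,
        ((-(if j' < j then 2 ^ (2 * P.h + 4 + 2 * P.F - j - j') * X (3, e, j', g0) else 0) +
          (if j < j' then 2 ^ (2 * P.h + 4 + 2 * P.F - j' - j) * X (3, e, j', g0) else 0)) -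
          (if j' = j then 2 ^ (P.Dx + P.F) * X (4, e, j', g0) else 0)) := by
    rw [Finset.sum_eq_single (e : ℕ)]
    · refine Finset.sum_congr rfl fun j' _ => ?_
      unfold GameC_K
      rw [GameC_k33, GameC_k33, GameC_k34, GameC_k43, GameC_a3, GameC_a3, GameC_a3, GameC_a3,
        GameC_a4, GameC_a4]
      simp only [true_and]
      by_cases c1 : j' < j
      · have c2 : ¬ j < j' := by omega
        have c3 : ¬ j' = j := by omega
        simp only [c1, c2, c3, if_true, if_false]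
        push_cast
        ring
      · by_cases c2 : j < j'
        · have c3 : ¬ j' = j := by omega
          simp only [c1, c2, c3, if_true, if_false]
          push_cast
          ring
        · have c3 : j' = j := by omega
          simp only [c1, c2, c3, if_true, if_false]
          push_cast
          ring
    · intro e' _ he'
      refine Finset.sum_eq_zero fun j' _ => ?_
      unfold GameC_K
      rw [GameC_k33, GameC_k33, GameC_k34, GameC_k43, GameC_a3, GameC_a3, GameC_a3, GameC_a3,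
        GameC_a4, GameC_a4]
      simp [he', Ne.symm he']
    · intro h
      exact absurd (Finset.mem_range.2 e.2) h
  rw [h0, h3, Finset.sum_congr rfl (fun i _ => h1 i),
    Finset.sum_congr rfl (fun i _ => h2 i)]
  simp only [Finset.sum_add_distrib, Finset.sum_sub_distrib, Finset.sum_neg_distrib,
    ← Finset.mul_sum]
  rw [GameC_sel hG (go e) (n := P.out e) (hgo e) (fun i => X (1, 0, 0, i.1)),
    GameC_sel hG (gi e) (n := P.inn e) (hgi e) (fun i => X (2, 0, 0, i.1)), GameC_q3]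
  have s1 : ∑ j' ∈ Finset.range P.Nb,
      (if j' < j then 2 ^ (2 * P.h + 4 + 2 * P.F - j - j') * X (3, e, j', g0) else 0) =
      ∑ i ∈ Finset.range j, 2 ^ (2 * P.h + 4 + 2 * P.F - j - i) * X (3, e, i, g0) := by
    rw [← Finset.sum_filter]
    refine Finset.sum_congr ?_ fun _ _ => rfl
    ext i
    simp only [Finset.mem_filter, Finset.mem_range]
    omega
  have s2 : ∑ j' ∈ Finset.range P.Nb,
      (if j < j' then 2 ^ (2 * P.h + 4 + 2 * P.F - j' - j) * X (3, e, j', g0) else 0) =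
      ∑ k ∈ Finset.Ico (j + 1) P.Nb, 2 ^ (2 * P.h + 4 + 2 * P.F - k - j) * X (3, e, k, g0) := by
    rw [← Finset.sum_filter]
    refine Finset.sum_congr ?_ fun _ _ => rfl
    ext i
    simp only [Finset.mem_filter, Finset.mem_range, Finset.mem_Ico]
    omega
  have s3 : ∑ j' ∈ Finset.range P.Nb,
      (if j' = j then 2 ^ (P.Dx + P.F) * X (4, e, j', g0) else 0) =
      2 ^ (P.Dx + P.F) * X (4, e, j, g0) := by
    rw [Finset.sum_ite_eq' (Finset.range P.Nb) j, if_pos (Finset.mem_range.2 hj)]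
  rw [s1, s2, s3]
  ring

omit hgi hgo hne in
theorem GameC_pay4 (e : Fin 2) {j : ℕ} (hj : j < P.Nb) : pay P G X (4, e, j, g0) =
    2 ^ (P.Dx + P.F) * X (3, e, j, g0) - 2 ^ P.Dx := by
  rw [GameC_pay P hG X]
  have h0 : GameC_K P (4, e, j, g0) (0, 0, 0, g0) = 0 := by
    unfold GameC_K
    rw [GameC_k0, GameC_kx0, GameC_a0, GameC_a0]
    simp
  have h1 : ∀ i : GI G, GameC_K P (4, e, j, g0) (1, 0, 0, i.1) * X (1, 0, 0, i.1) = 0 := by
    intro i
    unfold GameC_K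
    rw [GameC_k1, GameC_k41, GameC_a4, GameC_a4]
    push_cast
    ring
  have h2 : ∀ i : GI G, GameC_K P (4, e, j, g0) (2, 0, 0, i.1) * X (2, 0, 0, i.1) = 0 := by
    intro i
    unfold GameC_K
    rw [GameC_k24, GameC_k42, GameC_a4, GameC_a4]
    push_cast
    ring
  have h3 : ∑ e' ∈ Finset.range 2, ∑ j' ∈ Finset.range P.Nb,
        (GameC_K P (4, e, j, g0) (3, e', j', g0) * X (3, e', j', g0) +
          GameC_K P (4, e, j, g0) (4, e', j', g0) * X (4, e', j', g0)) =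
      2 ^ (P.Dx + P.F) * X (3, e, j, g0) := by
    rw [Finset.sum_eq_single (e : ℕ)]
    · rw [Finset.sum_eq_single j]
      · unfold GameC_K
        rw [GameC_k43, GameC_k34, GameC_k44, GameC_a3, GameC_a3, GameC_a4, GameC_a4]
        simp
      · intro j' _ hj'
        unfold GameC_K
        rw [GameC_k43, GameC_k34, GameC_k44, GameC_a3, GameC_a3, GameC_a4, GameC_a4,
          GameC_k44, GameC_a4, GameC_a4]
        simp [Ne.symm hj']
      · intro h
        exact absurd (Finset.mem_range.2 hj) h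
    · intro e' _ he'
      refine Finset.sum_eq_zero fun j' _ => ?_
      unfold GameC_K
      rw [GameC_k43, GameC_k34, GameC_k44, GameC_a3, GameC_a3, GameC_a4, GameC_a4,
          GameC_k44, GameC_a4, GameC_a4]
      simp [Ne.symm he']
    · intro h
      exact absurd (Finset.mem_range.2 e.2) h
  rw [h0, h3, Finset.sum_congr rfl (fun i _ => h1 i),
    Finset.sum_congr rfl (fun i _ => h2 i), GameC_q4]
  simp
  ring

end

/-! ### The final form -/

theorem GameC_pw {n k : ℕ} (h : k ≤ n) : (2 : ℚ) ^ (n - k) = 2 ^ n / 2 ^ k := by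
  rw [pow_sub₀ _ two_ne_zero h, div_eq_mul_inv]

theorem GameC_gout (P : Par) (X : St → ℚ) (hF : 2 * P.Nb ≤ P.F) (e : ℕ) :
    gout P.Nb (2 ^ P.h) (1 / 2 ^ P.F) (fun j => X (3, e, j, g0)) = GameC_B P X e := by
  unfold gout GameC_B
  refine Finset.sum_congr rfl fun j hj => ?_
  have hj' := Finset.mem_range.1 hj
  rw [GameC_pw (by omega : j ≤ P.h + 2 + P.F)]
  unfold rho
  rw [pow_add, pow_add]
  field_simp
  ring

theorem GameC_payB (P : Par) (X : St → ℚ) (hF : 2 * P.Nb ≤ P.F) (e : ℕ) (γ : ℚ) {j : ℕ}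
    (hj : j < P.Nb) :
    payB P.Nb (2 ^ P.h) (1 / 2 ^ P.F) (2 ^ P.Dx) γ (fun j => X (3, e, j, g0))
      (fun j => X (4, e, j, g0)) j =
    2 ^ (P.h + 2 + P.F - j) * γ -
    ∑ i ∈ Finset.range j, 2 ^ (2 * P.h + 4 + 2 * P.F - j - i) * X (3, e, i, g0) +
    ∑ k ∈ Finset.Ico (j + 1) P.Nb, 2 ^ (2 * P.h + 4 + 2 * P.F - k - j) * X (3, e, k, g0) -
    2 ^ (P.Dx + P.F) * X (4, e, j, g0) +
    (2 ^ (2 * P.h + 4 + P.F - j) - 2 ^ (2 * P.h + 4 + P.F - 2 * j)) := by
  unfold payB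
  have s1 : ∑ i ∈ Finset.range j, (2 : ℚ) ^ (2 * P.h + 4 + 2 * P.F - j - i) * X (3, e, i, g0) =
      rho (2 ^ P.h) j / (1 / 2 ^ P.F) *
        ∑ i ∈ Finset.range j, rho (2 ^ P.h) i * (X (3, e, i, g0) / (1 / 2 ^ P.F)) := by
    rw [Finset.mul_sum]
    refine Finset.sum_congr rfl fun i hi => ?_
    have hi' := Finset.mem_range.1 hi
    rw [Nat.sub_sub, GameC_pw (by omega : j + i ≤ 2 * P.h + 4 + 2 * P.F)]
    unfold rho
    rw [pow_add, pow_add, pow_add, mul_comm 2 P.h, mul_comm 2 P.F, pow_mul, pow_mul]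
    field_simp
    ring
  have s2 : ∑ k ∈ Finset.Ico (j + 1) P.Nb, (2 : ℚ) ^ (2 * P.h + 4 + 2 * P.F - k - j) *
      X (3, e, k, g0) = rho (2 ^ P.h) j / (1 / 2 ^ P.F) *
        ∑ k ∈ Finset.Ico (j + 1) P.Nb, rho (2 ^ P.h) k * (X (3, e, k, g0) / (1 / 2 ^ P.F)) := by
    rw [Finset.mul_sum]
    refine Finset.sum_congr rfl fun k hk => ?_
    have hk' := Finset.mem_Ico.1 hk
    rw [Nat.sub_sub, GameC_pw (by omega : k + j ≤ 2 * P.h + 4 + 2 * P.F)]
    unfold rho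
    rw [pow_add, pow_add, pow_add, mul_comm 2 P.h, mul_comm 2 P.F, pow_mul, pow_mul]
    field_simp
    ring
  rw [s1, s2, GameC_pw (by omega : j ≤ P.h + 2 + P.F),
    GameC_pw (by omega : j ≤ 2 * P.h + 4 + P.F), GameC_pw (by omega : 2 * j ≤ 2 * P.h + 4 + P.F)]
  have r1 : (2 : ℚ) ^ (P.h + 2 + P.F) / 2 ^ j = rho (2 ^ P.h) j / (1 / 2 ^ P.F) := by
    unfold rho
    rw [pow_add, pow_add]
    field_simp
    ring
  have r2 : (2 : ℚ) ^ (2 * P.h + 4 + P.F) / 2 ^ j = rho (2 ^ P.h) j / (1 / 2 ^ P.F) * (4 * 2 ^ P.h) := by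
    unfold rho
    rw [pow_add, pow_add, mul_comm 2 P.h, pow_mul]
    field_simp
    ring
  have r3 : (2 : ℚ) ^ (2 * P.h + 4 + P.F) / 2 ^ (2 * j) =
      rho (2 ^ P.h) j / (1 / 2 ^ P.F) * rho (2 ^ P.h) j := by
    unfold rho
    rw [pow_add, pow_add, mul_comm 2 P.h, pow_mul, mul_comm 2 j, pow_mul]
    field_simp
    ring
  rw [r1, r2, r3, pow_add 2 P.Dx P.F]
  have r4 : (2 : ℚ) ^ P.Dx / (1 / 2 ^ P.F) = 2 ^ P.Dx * 2 ^ P.F := by
    field_simp
  rw [r4]
  ring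

theorem GameC_mem1 (P : Par) {G : List Gate} (g : GI G) : ((1, 0, 0, g.1) : St) ∈ strats P G := by
  unfold strats
  refine List.mem_cons_of_mem _ (List.mem_append_left _ ?_)
  exact List.mem_map.2 ⟨g.1, List.mem_toFinset.1 g.2, rfl⟩

theorem GameC_mem2 (P : Par) {G : List Gate} (g : GI G) : ((2, 0, 0, g.1) : St) ∈ strats P G := by
  unfold strats
  refine List.mem_cons_of_mem _ (List.mem_append_right _ (List.mem_append_left _ ?_))
  exact List.mem_map.2 ⟨g.1, List.mem_toFinset.1 g.2, rfl⟩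

theorem GameC_mem34 (P : Par) {G : List Gate} (e : Fin 2) {j : ℕ} (hj : j < P.Nb) :
    ((3, e, j, g0) : St) ∈ strats P G ∧ ((4, e, j, g0) : St) ∈ strats P G := by
  unfold strats
  constructor <;>
  · refine List.mem_cons_of_mem _ (List.mem_append_right _ (List.mem_append_right _ ?_))
    refine List.mem_flatMap.2 ⟨e, List.mem_range.2 e.2, List.mem_flatMap.2
      ⟨j, List.mem_range.2 hj, by simp⟩⟩

variable (P : Par)

/-- The equilibrium conditions in the form used for the analysis. -/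
theorem equil_of_pay (G : List Gate) (hG : (G.map fun g => g.1).Nodup)
    (hin : ∀ g ∈ G, FIn (fun n => ∃ g' ∈ G, g'.1 = n ∧ g'.2.1 < g.2.1) g.2.2)
    (gi go : Fin 2 → GI G)
    (hgi : ∀ e, (gi e).1.1 = P.inn e) (hgo : ∀ e, (go e).1.1 = P.out e)
    (hne : P.inn 0 ≠ P.inn 1 ∧ P.out 0 ≠ P.out 1 ∧ ∀ e e', P.inn e ≠ P.out e')
    (hgi0 : ∀ e, (gi e).1.2.2 = ([], 0))
    (hex : ∀ e, ex P (go e).1 = 2 * P.h + 2) (hF : 2 * P.Nb ≤ P.F)
    (X : St → ℚ) (hX : ∀ y, 0 ≤ X y) (hX1 : ((strats P G).map X).sum = 1) (κ : ℚ)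
    (hκ : ∀ y ∈ strats P G, pay P G X y ≤ κ ∧ (0 < X y → pay P G X y = κ)) :
    Equil (ι := GI G) (fun j i => (coef j.1.2.2 i.1.1 : ℚ))
      (fun j => (j.1.2.2.2 : ℚ)) (fun j => 1 / 2 ^ (ex P j.1)) gi go (2 ^ P.h) (1 / 2 ^ P.F)
      (2 ^ P.Dx) P.Nb κ (X (0, 0, 0, g0)) (fun j => X (1, 0, 0, j.1)) (fun j => X (2, 0, 0, j.1))
      (fun e j => X (3, e, j, g0)) (fun e j => X (4, e, j, g0)) := by
  have hgo' : ∀ (j : GI G) (e : Fin 2) (T : ℚ), (if j = go e then T else 0) =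
      GameC_I (j.1.1 = P.out e) * T := by
    intro j e T
    unfold GameC_I
    by_cases h : j = go e
    · rw [if_pos h, if_pos (by rw [h]; exact hgo e), one_mul]
    · rw [if_neg h, if_neg (fun h' => h (GameC_inj hG (h'.trans (hgo e).symm))), zero_mul]
  have hgi' : ∀ (j : GI G) (e : Fin 2) (T : ℚ), (if j = gi e then T else 0) =
      GameC_I (j.1.1 = P.inn e) * T := by
    intro j e T
    unfold GameC_I
    by_cases h : j = gi e
    · rw [if_pos h, if_pos (by rw [h]; exact hgi e), one_mul]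
    · rw [if_neg h, if_neg (fun h' => h (GameC_inj hG (h'.trans (hgi e).symm))), zero_mul]
  have hslack : (((0, 0, 0, g0) : St)) ∈ strats P G := by unfold strats; exact List.mem_cons_self
  have hpay1 : ∀ j : GI G, (X (2, 0, 0, j.1) - ∑ i : GI G, (coef i.1.2.2 j.1.1 : ℚ) *
      X (2, 0, 0, i.1)) / (1 / 2 ^ (ex P j.1)) - 1 + ∑ e : Fin 2, (if j = go e then
        (2 : ℚ) ^ P.h * (gout P.Nb (2 ^ P.h) (1 / 2 ^ P.F) (fun j => X (3, e, j, g0)) - 4 * 2 ^ P.h -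
          (2 ^ P.h * X (2, 0, 0, (gi e).1) - 2 ^ P.h * X (1, 0, 0, (go e).1))) else 0) =
      pay P G X (1, 0, 0, j.1) := by
    intro j
    rw [GameC_pay1 P hG X hgi hgo hne.1 j, Fin.sum_univ_two, hgo', hgo', GameC_gout P X hF,
      GameC_gout P X hF, div_div_eq_mul_div, div_one]
    rfl
  have hpay2 : ∀ j : GI G, ∑ i : GI G, (coef j.1.2.2 i.1.1 : ℚ) *
      (X (1, 0, 0, i.1) / (1 / 2 ^ (ex P i.1))) + (j.1.2.2.2 : ℚ) -
        X (1, 0, 0, j.1) / (1 / 2 ^ (ex P j.1)) + ∑ e : Fin 2, (if j = gi e then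
        X (1, 0, 0, (go e).1) / (1 / 2 ^ (ex P (go e).1)) -
        (2 : ℚ) ^ P.h * (gout P.Nb (2 ^ P.h) (1 / 2 ^ P.F) (fun j => X (3, e, j, g0)) - 4 * 2 ^ P.h -
          (2 ^ P.h * X (2, 0, 0, (gi e).1) - 2 ^ P.h * X (1, 0, 0, (go e).1))) else 0) =
      pay P G X (2, 0, 0, j.1) := by
    intro j
    have hd : ∀ i : GI G, X (1, 0, 0, i.1) / (1 / 2 ^ (ex P i.1)) =
        X (1, 0, 0, i.1) * 2 ^ (ex P i.1) := fun i => by
      rw [div_div_eq_mul_div, div_one]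
    have hE : (2 : ℚ) ^ (2 * P.h + 2) = 4 * (2 ^ P.h) ^ 2 := by
      rw [pow_add, mul_comm 2 P.h, pow_mul]; ring
    simp only [hd]
    rw [GameC_pay2 P hG X hgi hgo hne.1 j, Fin.sum_univ_two, hgi', hgi', GameC_gout P X hF,
      GameC_gout P X hF, hex 0, hex 1, hE]
    have c0 : ((0 : Fin 2) : ℕ) = 0 := rfl
    have c1 : ((1 : Fin 2) : ℕ) = 1 := rfl
    rw [c0, c1]
    ring
  refine { hκ := ?_, x0n := hX _, P0 := fun _ => hX _, W0 := fun _ => hX _, total := ?_,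
           slack := ?_, hp := ?_, hp' := ?_, hw := ?_, hw' := ?_, gad := ?_ }
  · have := (hκ _ hslack).1
    rwa [GameC_pay0 P hG X] at this
  · rw [GameC_strats_sum P hG X] at hX1
    rw [← hX1, Fin.sum_univ_two, Finset.sum_range_succ, Finset.sum_range_succ,
      Finset.sum_range_zero, Finset.sum_add_distrib, Finset.sum_add_distrib]
    have c0 : ((0 : Fin 2) : ℕ) = 0 := rfl
    have c1 : ((1 : Fin 2) : ℕ) = 1 := rfl
    rw [c0, c1]
    ring
  · intro h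
    have := (hκ _ hslack).2 h
    rw [GameC_pay0 P hG X] at this
    exact this.symm
  · intro j
    have := (hκ _ (GameC_mem1 P j)).1
    rw [← hpay1 j] at this
    exact this
  · intro j hj
    have := (hκ _ (GameC_mem1 P j)).2 hj
    rw [← hpay1 j] at this
    exact this
  · intro j
    have := (hκ _ (GameC_mem2 P j)).1
    rw [← hpay2 j] at this
    exact this
  · intro j hj
    have := (hκ _ (GameC_mem2 P j)).2 hj
    rw [← hpay2 j] at this
    exact this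
  · intro e
    have hB : ∀ j < P.Nb, payB P.Nb (2 ^ P.h) (1 / 2 ^ P.F) (2 ^ P.Dx)
        (2 ^ P.h * X (2, 0, 0, (gi e).1) - 2 ^ P.h * X (1, 0, 0, (go e).1))
        (fun j => X (3, e, j, g0)) (fun j => X (4, e, j, g0)) j = pay P G X (3, e, j, g0) := by
      intro j hj
      rw [GameC_payB P X hF e _ hj, GameC_pay3 P hG X hgi hgo e hj]
    have hT : ∀ j < P.Nb, (2 : ℚ) ^ P.Dx * (X (3, e, j, g0) / (1 / 2 ^ P.F) - 1) =
        pay P G X (4, e, j, g0) := by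
      intro j hj
      rw [GameC_pay4 P hG X e hj, pow_add, div_div_eq_mul_div, div_one]
      ring
    refine { bm0 := fun _ _ => hX _, tm0 := fun _ _ => hX _, hb := ?_, hb' := ?_, ht := ?_,
             ht' := ?_ }
    · intro j hj
      have := (hκ _ (GameC_mem34 P (G := G) e hj).1).1
      rw [← hB j hj] at this
      exact this
    · intro j hj h
      have := (hκ _ (GameC_mem34 P (G := G) e hj).1).2 h
      rw [← hB j hj] at this
      exact this
    · intro j hj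
      have := (hκ _ (GameC_mem34 P (G := G) e hj).2).1
      rw [← hT j hj] at this
      exact this
    · intro j hj h
      have := (hκ _ (GameC_mem34 P (G := G) e hj).2).2 h
      rw [← hT j hj] at this
      exact this

end Pool.Agent.H424R2.SG
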