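import Pool.Agent.H424R2.SG.Game

namespace Pool.Agent.H424R2.SG

open Pool.Agent.NPC Matrix

theorem gameD_bits (n : ℕ) : n + 1 ≤ 2 ^ n.bits.length := by
  rw [Nat.size_eq_bits_len]; exact Nat.lt_size_self n

theorem gameD_abs (c : ℤ) : |(c : ℚ)| = (c.natAbs : ℚ) := by
  rw [← Int.cast_abs, Int.abs_eq_natAbs]; simp

theorem gameD_absbits (c : ℤ) : |(c : ℚ)| + 1 ≤ 2 ^ c.natAbs.bits.length := by
  rw [gameD_abs]; exact_mod_cast gameD_bits _

theorem gameD_nonneg (l : List (ℤ × Name)) : 0 ≤ (l.map fun t => |(t.1 : ℚ)|).sum := by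
  apply List.sum_nonneg
  intro x hx
  simp only [List.mem_map] at hx
  obtain ⟨t, _, rfl⟩ := hx
  exact abs_nonneg _

theorem gameD_mul {a b : ℚ} {p q r : ℕ} (ha0 : 0 ≤ a) (hb0 : 0 ≤ b) (ha : a + 1 ≤ 2 ^ p)
    (hb : b + 1 ≤ 2 ^ q) (hr : p + q ≤ r) : a + b + 1 ≤ 2 ^ r := by
  have h1 : (a + 1) * (b + 1) ≤ 2 ^ p * 2 ^ q :=
    mul_le_mul ha hb (by positivity) (by positivity)
  have h2 : (2 : ℚ) ^ p * 2 ^ q ≤ 2 ^ r := by
    rw [← pow_add]; exact pow_le_pow_right₀ (by norm_num) hr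
  nlinarith [mul_nonneg ha0 hb0]

theorem gameD_terms (l : List (ℤ × Name)) :
    (l.map fun t => |(t.1 : ℚ)|).sum + 1 ≤
      2 ^ (l.flatMap fun t => false :: t.1.natAbs.bits).length := by
  induction l with
  | nil => simp
  | cons t l ih =>
    simp only [List.map_cons, List.sum_cons, List.flatMap_cons, List.length_append,
      List.length_cons]
    exact gameD_mul (abs_nonneg _) (gameD_nonneg l) (gameD_absbits t.1) ih (by omega)

/-- weight of a gate -/
def gameD_w (g : Gate) : ℚ := (g.2.2.1.map fun t => |(t.1 : ℚ)|).sum + |(g.2.2.2 : ℚ)| + 1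

theorem gameD_w_pos (g : Gate) : 1 ≤ gameD_w g := by
  unfold gameD_w
  have := gameD_nonneg g.2.2.1
  have := abs_nonneg (g.2.2.2 : ℚ)
  linarith

theorem gameD_w_le (g : Gate) : gameD_w g + 1 ≤
    2 ^ ((g.2.2.1.flatMap fun t => false :: t.1.natAbs.bits) ++
    (false :: false :: g.2.2.2.natAbs.bits)).length := by
  simp only [List.length_append, List.length_cons]
  have h := gameD_mul (gameD_nonneg g.2.2.1) (abs_nonneg (g.2.2.2 : ℚ)) (gameD_terms g.2.2.1)
    (gameD_absbits g.2.2.2) le_rfl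
  have h1 : (1 : ℚ) ≤ 2 ^ ((g.2.2.1.flatMap fun t => false :: t.1.natAbs.bits).length +
    g.2.2.2.natAbs.bits.length) := one_le_pow₀ (by norm_num)
  have h2 : (2 : ℚ) ^ ((g.2.2.1.flatMap fun t => false :: t.1.natAbs.bits).length +
    (g.2.2.2.natAbs.bits.length + 1 + 1)) = 4 * 2 ^ ((g.2.2.1.flatMap fun t => false :: t.1.natAbs.bits).length +
    g.2.2.2.natAbs.bits.length) := by
    rw [← add_assoc, ← add_assoc, pow_succ, pow_succ]; ring
  rw [h2]
  unfold gameD_w
  linarith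

theorem gsz_bound (G : List Gate) :
    (G.map fun g => (g.2.2.1.map fun t => |(t.1 : ℚ)|).sum + |(g.2.2.2 : ℚ)| + 1).sum + 1 ≤
      2 ^ gsz G := by
  change (G.map gameD_w).sum + 1 ≤ 2 ^ gsz G
  induction G with
  | nil => simp [gsz]
  | cons g G ih =>
    simp only [List.map_cons, List.sum_cons]
    have h0 : 0 ≤ (G.map gameD_w).sum := by
      apply List.sum_nonneg
      intro x hx
      simp only [List.mem_map] at hx
      obtain ⟨t, _, rfl⟩ := hx
      exact le_trans zero_le_one (gameD_w_pos t)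
    refine gameD_mul (le_trans zero_le_one (gameD_w_pos g)) h0 (gameD_w_le g) ih ?_
    simp only [gsz, List.flatMap_cons, List.length_append]
    omega

section

variable {G : List Gate}

theorem gameD_sum (hG : (G.map fun g => g.1).Nodup) (f : Gate → ℚ) :
    ∑ i : GI G, f i.1 = (G.map f).sum := by
  have hnd : G.Nodup := List.Nodup.of_map _ hG
  rw [← List.sum_toFinset f hnd]
  exact Finset.sum_coe_sort G.toFinset f

theorem gameD_uniq (hG : (G.map fun g => g.1).Nodup) {g g' : Gate} (h : g ∈ G) (h' : g' ∈ G)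
    (he : g.1 = g'.1) : g = g' := List.inj_on_of_nodup_map hG h h' he

theorem gameD_uniqI (hG : (G.map fun g => g.1).Nodup) {i j : GI G} (he : i.1.1 = j.1.1) :
    i = j := Subtype.ext (gameD_uniq hG (List.mem_toFinset.1 i.2) (List.mem_toFinset.1 j.2) he)

theorem coef_cons (t : ℤ × Name) (l : List (ℤ × Name)) (d : ℤ) (n : Name) :
    coef (t :: l, d) n = (if t.2 = n then t.1 else 0) + coef (l, d) n := by
  unfold coef
  by_cases h : t.2 = n
  · simp [h]
  · simp [h]

theorem coef_ne (f : Form) (n : Name) (h : coef f n ≠ 0) : ∃ t ∈ f.1, t.2 = n := by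
  by_contra hc
  push Not at hc
  apply h
  unfold coef
  have : (f.1.filter fun t => decide (t.2 = n)) = [] := by
    rw [List.filter_eq_nil_iff]
    intro t ht
    simpa using hc t ht
  rw [this]; simp

theorem gameD_one (hG : (G.map fun g => g.1).Nodup) (n : Name) (a : ℚ) (ha : 0 ≤ a) :
    ∑ i : GI G, (if n = i.1.1 then a else 0) ≤ a := by
  by_cases h : ∃ i : GI G, n = i.1.1
  · obtain ⟨i, hi⟩ := h
    rw [Finset.sum_eq_single i]
    · rw [if_pos hi]
    · intro j _ hj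
      rw [if_neg]
      intro h2
      exact hj (gameD_uniqI hG (h2.symm.trans hi))
    · intro h; exact absurd (Finset.mem_univ i) h
  · push Not at h
    rw [Finset.sum_eq_zero]
    · exact ha
    · intro i _; rw [if_neg (h i)]

theorem gameD_coef_sum (hG : (G.map fun g => g.1).Nodup) (f : Form) :
    ∑ i : GI G, |(coef f i.1.1 : ℚ)| ≤ (f.1.map fun t => |(t.1 : ℚ)|).sum := by
  obtain ⟨l, d⟩ := f
  induction l with
  | nil => simp [coef]
  | cons t l ih =>
    simp only [List.map_cons, List.sum_cons]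
    calc ∑ i : GI G, |(coef (t :: l, d) i.1.1 : ℚ)|
        ≤ ∑ i : GI G, ((if t.2 = i.1.1 then |(t.1 : ℚ)| else 0) + |(coef (l, d) i.1.1 : ℚ)|) := by
          apply Finset.sum_le_sum
          intro i _
          rw [coef_cons]
          push_cast
          refine le_trans (abs_add_le _ _) ?_
          apply add_le_add_left
          split_ifs <;> simp
      _ = ∑ i : GI G, (if t.2 = i.1.1 then |(t.1 : ℚ)| else 0) +
          ∑ i : GI G, |(coef (l, d) i.1.1 : ℚ)| := Finset.sum_add_distrib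
      _ ≤ _ := add_le_add (gameD_one hG _ _ (abs_nonneg _)) ih

theorem gameD_ev (v : GI G → ℚ) (f : Form) :
    ev (fun n => ∑ i : GI G, if i.1.1 = n then v i else 0) f =
      ∑ i : GI G, (coef f i.1.1 : ℚ) * v i + (f.2 : ℚ) := by
  obtain ⟨l, d⟩ := f
  induction l with
  | nil => simp [coef, ev]
  | cons t l ih =>
    simp only [ev, List.map_cons, List.sum_cons] at ih ⊢
    have h : ∑ i : GI G, (coef (t :: l, d) i.1.1 : ℚ) * v i =
        (t.1 : ℚ) * (∑ i : GI G, if i.1.1 = t.2 then v i else 0) +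
        ∑ i : GI G, (coef (l, d) i.1.1 : ℚ) * v i := by
      rw [Finset.mul_sum, ← Finset.sum_add_distrib]
      apply Finset.sum_congr rfl
      intro i _
      rw [coef_cons]
      by_cases hi : t.2 = i.1.1
      · rw [if_pos hi, if_pos hi.symm]; push_cast; ring
      · rw [if_neg hi, if_neg (fun h => hi h.symm)]; push_cast; ring
    rw [h]
    linarith

theorem gameD_ext (hG : (G.map fun g => g.1).Nodup) (v : GI G → ℚ) (j : GI G) :
    (∑ i : GI G, if i.1.1 = j.1.1 then v i else 0) = v j := by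
  rw [Finset.sum_eq_single j]
  · simp
  · intro i _ hi
    rw [if_neg]
    intro h; exact hi (gameD_uniqI hG h)
  · intro h; exact absurd (Finset.mem_univ j) h

theorem gameD_ge (hG : (G.map fun g => g.1).Nodup) :
    ∑ i : GI G, gameD_w i.1 + 1 ≤ 2 ^ gsz G := by
  rw [gameD_sum hG gameD_w]
  exact gsz_bound G

theorem gameD_single (hG : (G.map fun g => g.1).Nodup) (j : GI G) :
    gameD_w j.1 + 1 ≤ 2 ^ gsz G := by
  have h := gameD_ge hG
  have h2 : gameD_w j.1 ≤ ∑ i : GI G, gameD_w i.1 :=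
    Finset.single_le_sum (f := fun i : GI G => gameD_w i.1)
      (fun i _ => le_trans zero_le_one (gameD_w_pos i.1)) (Finset.mem_univ j)
  linarith

end

theorem netOK_of (inn out : ℕ → Name) (G : List Gate) (m S : ℕ)
    (hG : (G.map fun g => g.1).Nodup)
    (hin : ∀ g ∈ G, FIn (fun n => ∃ g' ∈ G, g'.1 = n ∧ g'.2.1 < g.2.1) g.2.2)
    (gi go : Fin 2 → GI G)
    (hgi : ∀ e, (gi e).1.1 = inn e) (hgo : ∀ e, (go e).1.1 = out e)
    (hne : inn 0 ≠ inn 1 ∧ out 0 ≠ out 1 ∧ ∀ e e', inn e ≠ out e')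
    (hgi0 : ∀ e, (gi e).1.2.2 = ([], 0))
    (hS : ∀ e, (go e).1.2.1 = S)
    (hcap : ∀ (v : Name → ℚ) (κ : ℚ), 0 ≤ κ → (∀ g ∈ G, g.1 ≠ inn 0 → g.1 ≠ inn 1 →
      v g.1 = max 0 (ev v g.2.2 - κ)) → ∀ e < 2, v (out e) ≤ 2 ^ m - 2)
    (hm : 1 ≤ m) :
    NetOK (ι := GI G) (fun j i => (coef j.1.2.2 i.1.1 : ℚ))
      (fun j => (j.1.2.2.2 : ℚ)) (fun j => 1 / 2 ^ (ex (parOf inn out G m S) j.1))
      (fun j => 2 ^ (m + gsz G + (parOf inn out G m S).s * j.1.2.1)) (fun j => j.1.2.1) gi go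
      (2 ^ m - 2) (2 ^ (parOf inn out G m S).h) (1 / 2 ^ (parOf inn out G m S).F)
      (2 ^ (parOf inn out G m S).Dx) (parOf inn out G m S).Nb := by
  obtain ⟨W, hW⟩ : ∃ W, W = gsz G := ⟨_, rfl⟩
  obtain ⟨H, hH⟩ : ∃ H, H = (W + 4) * S + W + m + 19 := ⟨_, rfl⟩
  have hs : (parOf inn out G m S).s = 2 * (W + 4) := by subst hW; rfl
  have he0 : (parOf inn out G m S).e0 = 2 * (W + m + 20) := by subst hW; rfl
  have hh : (parOf inn out G m S).h = H := by subst hH; subst hW; rfl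
  have hNb : (parOf inn out G m S).Nb = 2 * H + 10 := by subst hH; subst hW; rfl
  have hF : (parOf inn out G m S).F = 4 * H + 20 := by subst hH; subst hW; rfl
  have hDx : (parOf inn out G m S).Dx = 2 * H + 12 := by subst hH; subst hW; rfl
  have hex : ∀ g, ex (parOf inn out G m S) g = 2 * (W + 4) * g.2.1 + 2 * (W + m + 20) := by
    intro g; unfold ex; rw [hs, he0]
  have hbd : ∑ i : GI G, gameD_w i.1 + 1 ≤ 2 ^ W := by rw [hW]; exact gameD_ge hG
  have hbd1 : ∀ j : GI G, gameD_w j.1 + 1 ≤ 2 ^ W := by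
    intro j; rw [hW]; exact gameD_single hG j
  have hstc : ∀ j i : GI G, (coef j.1.2.2 i.1.1 : ℚ) ≠ 0 → i.1.2.1 < j.1.2.1 := by
    intro j i h
    have h1 : coef j.1.2.2 i.1.1 ≠ 0 := by intro h2; apply h; rw [h2]; simp
    obtain ⟨t, ht, he⟩ := coef_ne _ _ h1
    obtain ⟨g', hg', h3, h4⟩ := hin j.1 (List.mem_toFinset.1 j.2) t ht
    have : g' = i.1 := gameD_uniq hG hg' (List.mem_toFinset.1 i.2) (h3.trans he)
    rw [← this]; exact h4
  have hcj : ∀ j : GI G, ∑ i : GI G, |(coef j.1.2.2 i.1.1 : ℚ)| + |(j.1.2.2.2 : ℚ)| + 1 ≤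
      gameD_w j.1 := by
    intro j
    have := gameD_coef_sum hG j.1.2.2
    unfold gameD_w
    linarith
  have hci : ∀ j : GI G, ∑ i : GI G, |(coef i.1.2.2 j.1.1 : ℚ)| ≤ 2 ^ W := by
    intro j
    have h1 : ∀ i : GI G, |(coef i.1.2.2 j.1.1 : ℚ)| ≤ gameD_w i.1 := by
      intro i
      have h2 := hcj i
      have h3 : |(coef i.1.2.2 j.1.1 : ℚ)| ≤ ∑ k : GI G, |(coef i.1.2.2 k.1.1 : ℚ)| :=
        Finset.single_le_sum (f := fun k : GI G => |(coef i.1.2.2 k.1.1 : ℚ)|)
          (fun k _ => abs_nonneg _) (Finset.mem_univ j)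
      have h4 := abs_nonneg (i.1.2.2.2 : ℚ)
      linarith
    have h5 := Finset.sum_le_sum (s := Finset.univ) fun (i : GI G) _ => h1 i
    linarith
  have hthle : ∀ i : GI G, (1 : ℚ) / 2 ^ (ex (parOf inn out G m S) i.1) ≤
      1 / 2 ^ (2 * (W + m + 20)) := by
    intro i
    apply one_div_le_one_div_of_le (by positivity)
    apply pow_le_pow_right₀ (by norm_num)
    rw [hex]; omega
  have hsmall : ∀ a : ℚ, 0 ≤ a → a ≤ 2 ^ (W + m) → a * (1 / 2 ^ (2 * (W + m + 20))) ≤ 1 / 2 ^ 8 := by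
    intro a ha0 ha
    have h1 : (2 : ℚ) ^ (2 * (W + m + 20)) = 2 ^ (W + m) * 2 ^ 8 * 2 ^ (W + m + 32) := by
      rw [← pow_add, ← pow_add]; congr 1; ring
    rw [h1, mul_one_div, div_le_div_iff₀ (by positivity) (by norm_num)]
    have h2 : (1 : ℚ) ≤ 2 ^ (W + m + 32) := one_le_pow₀ (by norm_num)
    have h3 : (0 : ℚ) < 2 ^ (W + m) := by positivity
    nlinarith [mul_le_mul ha h2 (by norm_num) h3.le]
  have hWm : (2 : ℚ) ^ W ≤ 2 ^ (W + m) := pow_le_pow_right₀ (by norm_num) (by omega)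
  have hmW : (2 : ℚ) ^ m ≤ 2 ^ (W + m) := pow_le_pow_right₀ (by norm_num) (by omega)
  have hu2 : ((2 : ℚ) ^ H) ^ 2 = 2 ^ (2 * H) := by rw [← pow_mul]; congr 1; ring
  constructor
  · intro i; positivity
  · intro j i h; exact hstc j i h
  · -- dec
    intro j
    have h1 : ∀ i : GI G, |(coef i.1.2.2 j.1.1 : ℚ)| * (1 / 2 ^ (ex (parOf inn out G m S) i.1)) ≤
        |(coef i.1.2.2 j.1.1 : ℚ)| * (1 / 2 ^ (ex (parOf inn out G m S) j.1) * (1 / 2 ^ (2 * (W + 4)))) := by
      intro i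
      by_cases hc : (coef i.1.2.2 j.1.1 : ℚ) = 0
      · rw [hc]; simp
      · apply mul_le_mul_of_nonneg_left _ (abs_nonneg _)
        have h2 := hstc i j hc
        rw [one_div_mul_one_div_rev, ← pow_add]
        apply one_div_le_one_div_of_le (by positivity)
        apply pow_le_pow_right₀ (by norm_num)
        rw [hex, hex]
        have : 2 * (W + 4) * (j.1.2.1 + 1) ≤ 2 * (W + 4) * i.1.2.1 := Nat.mul_le_mul_left _ h2
        linarith
    refine le_trans (Finset.sum_le_sum fun i _ => h1 i) ?_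
    rw [← Finset.sum_mul]
    have h3 := hci j
    have h4 : (0 : ℚ) < 1 / 2 ^ (ex (parOf inn out G m S) j.1) := by positivity
    have h5 : (∑ i : GI G, |(coef i.1.2.2 j.1.1 : ℚ)|) * (1 / 2 ^ (2 * (W + 4))) ≤ 1 / 16 := by
      have h6 : (2 : ℚ) ^ (2 * (W + 4)) = 2 ^ W * 2 ^ (W + 8) := by
        rw [← pow_add]; congr 1; ring
      rw [h6, mul_one_div, div_le_div_iff₀ (by positivity) (by norm_num)]
      have h7 : (16 : ℚ) ≤ 2 ^ (W + 8) := by
        calc (16 : ℚ) = 2 ^ 4 := by norm_num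
          _ ≤ _ := pow_le_pow_right₀ (by norm_num) (by omega)
      have h8 : (0 : ℚ) < 2 ^ W := by positivity
      nlinarith [mul_le_mul h3 h7 (by norm_num) h8.le]
    calc _ = (1 / 2 ^ (ex (parOf inn out G m S) j.1)) *
          ((∑ i : GI G, |(coef i.1.2.2 j.1.1 : ℚ)|) * (1 / 2 ^ (2 * (W + 4)))) := by ring
      _ ≤ (1 / 2 ^ (ex (parOf inn out G m S) j.1)) * (1 / 16) :=
          mul_le_mul_of_nonneg_left h5 h4.le
      _ = _ := by ring
  · -- hV
    intro j
    have h0 := hcj j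
    have h1 := hbd1 j
    have hd : 0 ≤ |(j.1.2.2.2 : ℚ)| := abs_nonneg _
    have hcn : 0 ≤ ∑ i : GI G, |(coef j.1.2.2 i.1.1 : ℚ)| :=
      Finset.sum_nonneg fun i _ => abs_nonneg _
    rcases Nat.eq_zero_or_pos j.1.2.1 with hj | hj
    · have h2 : ∑ i : GI G, |(coef j.1.2.2 i.1.1 : ℚ)| *
          2 ^ (m + gsz G + (parOf inn out G m S).s * i.1.2.1) = 0 := by
        apply Finset.sum_eq_zero
        intro i _
        by_cases hc : (coef j.1.2.2 i.1.1 : ℚ) = 0
        · rw [hc]; simp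
        · have := hstc j i hc; omega
      rw [h2, hj, mul_zero, add_zero, zero_add, ← hW]
      have h3 : (2 : ℚ) ^ W ≤ 2 ^ (m + W) := pow_le_pow_right₀ (by norm_num) (by omega)
      linarith
    · have h2 : ∀ i : GI G, |(coef j.1.2.2 i.1.1 : ℚ)| *
          2 ^ (m + gsz G + (parOf inn out G m S).s * i.1.2.1) ≤
          |(coef j.1.2.2 i.1.1 : ℚ)| * 2 ^ (m + W + 2 * (W + 4) * (j.1.2.1 - 1)) := by
        intro i
        by_cases hc : (coef j.1.2.2 i.1.1 : ℚ) = 0
        · rw [hc]; simp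
        · apply mul_le_mul_of_nonneg_left _ (abs_nonneg _)
          apply pow_le_pow_right₀ (by norm_num)
          have := hstc j i hc
          rw [hs, ← hW]
          have : 2 * (W + 4) * i.1.2.1 ≤ 2 * (W + 4) * (j.1.2.1 - 1) :=
            Nat.mul_le_mul_left _ (by omega)
          linarith
      have h3 := Finset.sum_le_sum (s := Finset.univ) fun (i : GI G) _ => h2 i
      rw [← Finset.sum_mul] at h3
      have h4 : (1 : ℚ) ≤ 2 ^ (m + W + 2 * (W + 4) * (j.1.2.1 - 1)) := one_le_pow₀ (by norm_num)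
      have h5 : (2 : ℚ) ^ (m + gsz G + (parOf inn out G m S).s * j.1.2.1) =
          2 ^ (2 * (W + 4)) * 2 ^ (m + W + 2 * (W + 4) * (j.1.2.1 - 1)) := by
        rw [← pow_add, hs, ← hW]
        congr 1
        obtain ⟨k, hk⟩ : ∃ k, j.1.2.1 = k + 1 := ⟨j.1.2.1 - 1, by omega⟩
        rw [hk, Nat.add_sub_cancel]; ring
      have h6 : (2 : ℚ) ^ W ≤ 2 ^ (2 * (W + 4)) := pow_le_pow_right₀ (by norm_num) (by omega)
      rw [h5]
      have h7 : |(j.1.2.2.2 : ℚ)| ≤ |(j.1.2.2.2 : ℚ)| * 2 ^ (m + W + 2 * (W + 4) * (j.1.2.1 - 1)) := by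
        nlinarith
      have h8 : (∑ i : GI G, |(coef j.1.2.2 i.1.1 : ℚ)| + |(j.1.2.2.2 : ℚ)|) *
          2 ^ (m + W + 2 * (W + 4) * (j.1.2.1 - 1)) ≤
          2 ^ (2 * (W + 4)) * 2 ^ (m + W + 2 * (W + 4) * (j.1.2.1 - 1)) := by
        apply mul_le_mul_of_nonneg_right _ (by positivity)
        linarith
      linarith
  · -- hVin
    intro e
    have h1 : (2 : ℚ) ^ m ≤ 2 ^ (m + gsz G + (parOf inn out G m S).s * (gi e).1.2.1) :=
      pow_le_pow_right₀ (by norm_num) (by rw [add_assoc]; exact Nat.le_add_right _ _)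
    linarith
  · -- sm1
    have h1 : ∀ i : GI G, (|(i.1.2.2.2 : ℚ)| + 1) * (1 / 2 ^ (ex (parOf inn out G m S) i.1)) ≤
        gameD_w i.1 * (1 / 2 ^ (2 * (W + m + 20))) := by
      intro i
      apply mul_le_mul _ (hthle i) (by positivity) (le_trans zero_le_one (gameD_w_pos _))
      have := gameD_nonneg i.1.2.2.1
      unfold gameD_w
      linarith
    refine le_trans (Finset.sum_le_sum fun i _ => h1 i) ?_
    rw [← Finset.sum_mul]
    refine le_trans (hsmall _ (Finset.sum_nonneg fun i _ =>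
      le_trans zero_le_one (gameD_w_pos _)) (by linarith)) (by norm_num)
  · -- sm2
    intro e
    have h2m : (2 : ℚ) ≤ 2 ^ m := by
      calc (2 : ℚ) = 2 ^ 1 := by norm_num
        _ ≤ _ := pow_le_pow_right₀ (by norm_num) hm
    refine le_trans (mul_le_mul_of_nonneg_left (hthle (gi e)) (by linarith)) ?_
    exact le_trans (hsmall _ (by linarith) (by linarith)) (by norm_num)
  · -- sm3
    have h1 : ∀ i : GI G, (1 / 2 ^ (ex (parOf inn out G m S) i.1)) *
        2 ^ (m + gsz G + (parOf inn out G m S).s * i.1.2.1) ≤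
        gameD_w i.1 * (2 ^ (W + m) * (1 / 2 ^ (2 * (W + m + 20)))) := by
      intro i
      have h2 : (1 / 2 ^ (ex (parOf inn out G m S) i.1)) *
        2 ^ (m + gsz G + (parOf inn out G m S).s * i.1.2.1) =
        (2 : ℚ) ^ (W + m) * (1 / 2 ^ (2 * (W + m + 20))) := by
        rw [hex, hs, ← hW, one_div_mul_eq_div, mul_one_div, div_eq_div_iff (by positivity)
          (by positivity), ← pow_add, ← pow_add]
        congr 1
        ring
      rw [h2]
      have h3 : (0 : ℚ) ≤ 2 ^ (W + m) * (1 / 2 ^ (2 * (W + m + 20))) := by positivity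
      nlinarith [gameD_w_pos i.1]
    refine le_trans (Finset.sum_le_sum fun i _ => h1 i) ?_
    rw [← Finset.sum_mul]
    have h4 : ∑ i : GI G, gameD_w i.1 ≤ 2 ^ W := by linarith
    have h5 : (2 : ℚ) ^ W * (2 ^ (W + m) * (1 / 2 ^ (2 * (W + m + 20)))) ≤ 1 / 16 := by
      rw [← mul_assoc, ← pow_add, mul_one_div, div_le_div_iff₀ (by positivity) (by norm_num),
        one_mul]
      calc (2 : ℚ) ^ (W + (W + m)) * 16 = 2 ^ (W + (W + m) + 4) := by
            rw [pow_add _ _ 4]; norm_num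
        _ ≤ _ := pow_le_pow_right₀ (by norm_num) (by omega)
    exact le_trans (mul_le_mul_of_nonneg_right h4 (by positivity)) h5
  · intro e i
    simp only [hgi0]
    simp [coef]
  · intro e
    simp only [hgi0]
    simp
  · -- hout
    intro e
    rw [hex, hS, hh, hu2, mul_one_div, div_eq_one_iff_eq (by positivity)]
    rw [show (4 : ℚ) = 2 ^ 2 by norm_num, ← pow_add]
    congr 1
    rw [hH]; ring
  · intro h
    apply hne.1
    have h0 := hgi 0
    have h1 := hgi 1
    rw [h] at h0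
    exact h0.symm.trans h1
  · intro h
    apply hne.2.1
    have h0 := hgo 0
    have h1 := hgo 1
    rw [h] at h0
    exact h0.symm.trans h1
  · intro e e' h
    apply hne.2.2 e e'
    rw [← hgi, ← hgo, h]
  · have h2m : (2 : ℚ) ≤ 2 ^ m := by
      calc (2 : ℚ) = 2 ^ 1 := by norm_num
        _ ≤ _ := pow_le_pow_right₀ (by norm_num) hm
    linarith
  · -- cap
    intro κ hκ v hv e
    have h1 := hcap (fun n => ∑ i : GI G, if i.1.1 = n then v i else 0) κ hκ ?_ e.1 e.2
    · have h2 := gameD_ext hG v (go e)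
      rw [hgo] at h2
      rw [← h2]
      exact h1
    · intro g hg hg0 hg1
      have hgm : g ∈ G.toFinset := List.mem_toFinset.2 hg
      have h2 := gameD_ext hG v ⟨g, hgm⟩
      have h3 := hv ⟨g, hgm⟩ ?_
      · rw [gameD_ev]
        simp only at h2 h3 ⊢
        rw [h2]
        exact h3
      · intro e' he'
        have h4 : g.1 = inn e' := by rw [← hgi e', ← he']
        fin_cases e'
        · exact hg0 h4
        · exact hg1 h4
  · exact one_le_pow₀ (by norm_num)
  · positivity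
  · rw [hNb]; omega
  · rw [hh, hDx, hu2, show (4096 : ℚ) = 2 ^ 12 by norm_num, ← pow_add, add_comm]
  · rw [hh, hNb, hu2]
    have : 2 * H + 10 - 1 = 2 * H + 9 := by omega
    rw [this, pow_add]
    have h3 : (0 : ℚ) < 2 ^ (2 * H) := by positivity
    nlinarith
  · rw [hNb, hF]
    have : 2 * H + 10 - 1 = 2 * H + 9 := by omega
    rw [this, mul_one_div, div_le_one (by positivity)]
    calc (12 : ℚ) * 2 ^ (2 * H + 9) ≤ 2 ^ 4 * 2 ^ (2 * H + 9) := by
          apply mul_le_mul_of_nonneg_right (by norm_num) (by positivity)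
      _ = 2 ^ (4 + (2 * H + 9)) := by rw [← pow_add]
      _ ≤ _ := pow_le_pow_right₀ (by norm_num) (by omega)
  · rw [hNb, hF, mul_one_div, div_le_one (by positivity)]
    have h1 : 2 * H + 10 < 2 ^ (2 * H + 10) := Nat.lt_two_pow_self
    have h2 : ((2 * H + 10 : ℕ) : ℚ) ≤ 2 ^ (2 * H + 10) := by exact_mod_cast h1.le
    calc (32 : ℚ) * ((2 * H + 10 : ℕ) : ℚ) ≤ 2 ^ 5 * 2 ^ (2 * H + 10) := by
          apply mul_le_mul (by norm_num) h2 (by positivity) (by positivity)
      _ = 2 ^ (5 + (2 * H + 10)) := by rw [← pow_add]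
      _ ≤ _ := pow_le_pow_right₀ (by norm_num) (by omega)

end Pool.Agent.H424R2.SG
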