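import Pool.Agent.H424R2.SG.Lp
import Pool.Agent.H424R2.SG.GadgetPf

namespace Pool.Agent.H424R2.SG

open Finset

variable {ι : Type} [Fintype ι] [DecidableEq ι]
variable {c : ι → ι → ℚ} {d θ V : ι → ℚ} {st : ι → ℕ} {inn out : Fin 2 → ι}
  {M u th D : ℚ} {Nb : ℕ} {κ x0 : ℚ} {P W : ι → ℚ} {bm tm : Fin 2 → ℕ → ℚ}

/-- Error of the gadget, times `u`. -/
theorem LpPf_err (h : NetOK c d θ V st inn out M u th D Nb)
    (E : Equil c d θ inn out u th D Nb κ x0 P W bm tm) (e : Fin 2) :
    |u * (gout Nb u th (bm e) - 4 * u - (u * W (inn e) - u * P (out e)))| ≤ (1 + κ) / 16 := by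
  have hu := h.hu
  have hu0 : 0 < u := by linarith
  have hD0 : 0 < D := by nlinarith [h.hD, sq_nonneg u]
  have hκ := E.hκ
  have hP1 : ∀ i, P i ≤ 1 - ∑ i, W i := by
    intro i
    have h1 := E.total
    have h2 : P i ≤ ∑ i, P i := single_le_sum (fun i _ => E.P0 i) (mem_univ i)
    have h3 : 0 ≤ ∑ e, (∑ j ∈ range Nb, bm e j + ∑ j ∈ range Nb, tm e j) :=
      sum_nonneg fun e _ => add_nonneg
        (sum_nonneg fun j hj => (E.gad e).bm0 j (mem_range.1 hj))
        (sum_nonneg fun j hj => (E.gad e).tm0 j (mem_range.1 hj))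
    have h4 := E.x0n
    linarith
  have hW1 : ∀ i, W i ≤ ∑ i, W i := fun i => single_le_sum (fun i _ => E.W0 i) (mem_univ i)
  have hPi := hP1 (out e)
  have hWi := hW1 (inn e)
  have hW1' : ∑ i, W i ≤ 1 := by
    have := E.P0 (out e)
    linarith
  have hP0 := E.P0 (out e)
  have hW0 := E.W0 (inn e)
  have hγ : |u * W (inn e) - u * P (out e)| ≤ u := by
    rw [← mul_sub, abs_mul, abs_of_pos hu0]
    have : |W (inn e) - P (out e)| ≤ 1 := by rw [abs_le]; constructor <;> linarith
    nlinarith
  have key := (E.gad e).err hD0 h.hth hu0 hκ h.hNb hγ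
  have e1 : gout Nb u th (bm e) - 4 * u - (u * W (inn e) - u * P (out e)) =
      gout Nb u th (bm e) - (u * W (inn e) - u * P (out e) + 4 * u) := by ring
  rw [e1, abs_mul, abs_of_pos hu0]
  have hr : rho u (Nb - 1) = 4 * u / 2 ^ (Nb - 1) := rfl
  have h2 : (0 : ℚ) < 2 ^ (Nb - 1) := by positivity
  have a1 : u * (4 * u * κ / D) ≤ κ / 1024 := by
    rw [← mul_div_assoc, div_le_div_iff₀ hD0 (by norm_num)]
    have := h.hD
    nlinarith [mul_nonneg hκ (sub_nonneg.2 this)]
  have a2 : u * rho u (Nb - 1) ≤ 1 / 48 := by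
    rw [hr, ← mul_div_assoc, div_le_div_iff₀ h2 (by norm_num)]
    have := h.hrho
    nlinarith
  have a3 : u * (κ * th / rho u (Nb - 1)) ≤ κ / 48 := by
    have e2 : u * (κ * th / rho u (Nb - 1)) = κ * (th * 2 ^ (Nb - 1)) / 4 := by
      rw [hr]; field_simp
    rw [e2]
    have := h.hth1
    nlinarith [mul_nonneg hκ (by linarith : (0 : ℚ) ≤ 1 - 12 * 2 ^ (Nb - 1) * th)]
  calc u * |gout Nb u th (bm e) - (u * W (inn e) - u * P (out e) + 4 * u)|
      ≤ u * (4 * u * κ / D + rho u (Nb - 1) + κ * th / rho u (Nb - 1)) :=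
        mul_le_mul_of_nonneg_left key hu0.le
    _ = u * (4 * u * κ / D) + u * rho u (Nb - 1) + u * (κ * th / rho u (Nb - 1)) := by ring
    _ ≤ κ / 1024 + 1 / 48 + κ / 48 := by linarith
    _ ≤ (1 + κ) / 16 := by linarith

theorem LpPf_pert (h : NetOK c d θ V st inn out M u th D Nb)
    (E : Equil c d θ inn out u th D Nb κ x0 P W bm tm) (j : ι) :
    |∑ e, (if j = out e then
    u * (gout Nb u th (bm e) - 4 * u - (u * W (inn e) - u * P (out e))) else 0)| ≤
      (1 + κ) / 16 := by
  have h0 := LpPf_err h E 0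
  have h1 := LpPf_err h E 1
  have hκ := E.hκ
  rw [Fin.sum_univ_two]
  by_cases h2 : j = out 0
  · have h3 : j ≠ out 1 := fun h3 => h.out_inj (h2 ▸ h3)
    rw [if_pos h2, if_neg h3, add_zero]
    exact h0
  · rw [if_neg h2, zero_add]
    by_cases h3 : j = out 1
    · rw [if_pos h3]; exact h1
    · rw [if_neg h3, abs_zero]; positivity

/-- The dual masses are small. -/
theorem LpPf_W (h : NetOK c d θ V st inn out M u th D Nb)
    (E : Equil c d θ inn out u th D Nb κ x0 P W bm tm) (j : ι) :
    W j ≤ 2 * θ j * (1 + κ) := by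
  have hκ := E.hκ
  obtain ⟨K, hK⟩ : ∃ K, ∀ i, st i ≤ K := ⟨univ.sup st, fun i => le_sup (mem_univ i)⟩
  have key : ∀ n, ∀ j, K - st j ≤ n → W j ≤ 2 * θ j * (1 + κ) := by
    intro n
    induction n using Nat.strong_induction_on with
    | _ n ih =>
      intro j hj
      have h1 := E.hp j
      have h2 := LpPf_pert h E j
      have hθ := h.hθ j
      have h3 : ∑ i, c i j * W i ≤ 2 * (1 + κ) * (θ j / 16) := by
        calc ∑ i, c i j * W i ≤ ∑ i, |c i j| * (2 * θ i * (1 + κ)) := by
              apply sum_le_sum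
              intro i _
              by_cases hc : c i j = 0
              · simp [hc]
              · have hs := h.hst i j hc
                have h4 : W i ≤ 2 * θ i * (1 + κ) := by
                  refine ih (K - st i) ?_ i le_rfl
                  have := hK i
                  omega
                calc c i j * W i ≤ |c i j| * W i :=
                      mul_le_mul_of_nonneg_right (le_abs_self _) (E.W0 i)
                  _ ≤ _ := mul_le_mul_of_nonneg_left h4 (abs_nonneg _)
          _ = 2 * (1 + κ) * ∑ i, |c i j| * θ i := by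
              rw [mul_sum]
              exact sum_congr rfl fun i _ => by ring
          _ ≤ _ := mul_le_mul_of_nonneg_left (h.dec j) (by linarith)
      have h4 : (W j - ∑ i, c i j * W i) / θ j ≤ (1 + κ) + (1 + κ) / 16 := by
        have := (abs_le.1 h2).1
        linarith
      rw [div_le_iff₀ hθ] at h4
      nlinarith [mul_pos hθ (by linarith : 0 < 1 + κ)]
  exact key _ j le_rfl

theorem LpPf_sumcW (h : NetOK c d θ V st inn out M u th D Nb)
    (E : Equil c d θ inn out u th D Nb κ x0 P W bm tm) (j : ι) :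
    |∑ i, c i j * W i| ≤ 2 * (1 + κ) * (θ j / 16) := by
  have hκ := E.hκ
  calc |∑ i, c i j * W i| ≤ ∑ i, |c i j * W i| := abs_sum_le_sum_abs _ _
    _ ≤ ∑ i, |c i j| * (2 * θ i * (1 + κ)) := by
        apply sum_le_sum
        intro i _
        rw [abs_mul, abs_of_nonneg (E.W0 i)]
        exact mul_le_mul_of_nonneg_left (LpPf_W h E i) (abs_nonneg _)
    _ = 2 * (1 + κ) * ∑ i, |c i j| * θ i := by
        rw [mul_sum]
        exact sum_congr rfl fun i _ => by ring
    _ ≤ _ := mul_le_mul_of_nonneg_left (h.dec j) (by linarith)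

theorem LpPf_pos (h : NetOK c d θ V st inn out M u th D Nb)
    (E : Equil c d θ inn out u th D Nb κ x0 P W bm tm) (j : ι) (hj : 0 < P j) : 0 < W j := by
  have hκ := E.hκ
  have h1 := E.hp' j hj
  have h2 := LpPf_pert h E j
  have h3 := LpPf_sumcW h E j
  have hθ := h.hθ j
  have h4 : (1 + κ) - (1 + κ) / 16 ≤ (W j - ∑ i, c i j * W i) / θ j := by
    have := (abs_le.1 h2).2
    linarith
  rw [le_div_iff₀ hθ] at h4
  have h5 := (abs_le.1 h3).1
  nlinarith [mul_pos hθ (by linarith : 0 < 1 + κ)]

/-- Values of the gates other than the input gates. -/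
theorem LpPf_v (h : NetOK c d θ V st inn out M u th D Nb)
    (E : Equil c d θ inn out u th D Nb κ x0 P W bm tm) (j : ι) (hj : ∀ e, j ≠ inn e) :
    P j / θ j = max 0 (∑ i, c j i * (P i / θ i) + d j - κ) := by
  have h1 := E.hw j
  have h2 := E.hw' j
  have h3 : ∑ e, (if j = inn e then P (out e) / θ (out e) - u * (gout Nb u th (bm e) - 4 * u -
      (u * W (inn e) - u * P (out e))) else 0) = 0 :=
    sum_eq_zero fun e _ => if_neg (hj e)
  rw [h3] at h1 h2
  have hθ := h.hθ j
  rcases (E.P0 j).eq_or_lt with h4 | h4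
  · rw [← h4] at h1 ⊢
    rw [zero_div] at h1 ⊢
    rw [max_eq_left]
    linarith
  · have h5 := h2 (LpPf_pos h E j h4)
    have h6 : 0 < P j / θ j := div_pos h4 hθ
    rw [max_eq_right] <;> linarith

/-- Values of the input gates. -/
theorem LpPf_vin (h : NetOK c d θ V st inn out M u th D Nb)
    (E : Equil c d θ inn out u th D Nb κ x0 P W bm tm) (e : Fin 2) :
    P (inn e) / θ (inn e) = max 0 (P (out e) / θ (out e) - u * (gout Nb u th (bm e) - 4 * u -
      (u * W (inn e) - u * P (out e))) - κ) := by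
  have h1 := E.hw (inn e)
  have h2 := E.hw' (inn e)
  have h3 : ∑ e', (if inn e = inn e' then P (out e') / θ (out e') -
      u * (gout Nb u th (bm e') - 4 * u - (u * W (inn e') - u * P (out e'))) else 0) =
      P (out e) / θ (out e) - u * (gout Nb u th (bm e) - 4 * u -
      (u * W (inn e) - u * P (out e))) := by
    rw [sum_eq_single e]
    · rw [if_pos rfl]
    · intro e' _ he'
      rw [if_neg]
      intro h4
      have h5 := h.inn_inj
      fin_cases e <;> fin_cases e' <;> simp_all
    · simp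
  have h4 : ∑ i, c (inn e) i * (P i / θ i) = 0 := sum_eq_zero fun i _ => by rw [h.hin, zero_mul]
  rw [h3, h4, h.hind] at h1 h2
  have hθ := h.hθ (inn e)
  rcases (E.P0 (inn e)).eq_or_lt with h4 | h4
  · rw [← h4] at h1 ⊢
    rw [zero_div] at h1 ⊢
    rw [max_eq_left]
    linarith
  · have h5 := h2 (LpPf_pos h E _ h4)
    have h6 : 0 < P (inn e) / θ (inn e) := div_pos h4 hθ
    rw [max_eq_right] <;> linarith

theorem LpPf_out_le (h : NetOK c d θ V st inn out M u th D Nb)
    (E : Equil c d θ inn out u th D Nb κ x0 P W bm tm) (e : Fin 2) :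
    P (out e) / θ (out e) ≤ M :=
  h.cap κ E.hκ (fun i => P i / θ i) (fun j hj => LpPf_v h E j hj) e

theorem LpPf_V (h : NetOK c d θ V st inn out M u th D Nb)
    (E : Equil c d θ inn out u th D Nb κ x0 P W bm tm) (j : ι) :
    P j / θ j ≤ V j := by
  have hκ := E.hκ
  have key : ∀ n, ∀ j, st j ≤ n → P j / θ j ≤ V j := by
    intro n
    induction n using Nat.strong_induction_on with
    | _ n ih =>
      intro j hj
      by_cases hin : ∃ e, j = inn e
      · obtain ⟨e, rfl⟩ := hin
        rw [LpPf_vin h E e]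
        have h1 := h.hVin e
        have h2 := LpPf_out_le h E e
        have h3 := (abs_le.1 (LpPf_err h E e)).1
        have h4 := h.hM
        rw [max_le_iff]
        constructor <;> linarith
      · push Not at hin
        rw [LpPf_v h E j hin]
        have h1 := h.hV j
        have h2 : ∀ i, |c j i| * (P i / θ i) ≤ |c j i| * V i := by
          intro i
          by_cases hc : c j i = 0
          · simp [hc]
          · have hs := h.hst j i hc
            exact mul_le_mul_of_nonneg_left (ih (st i) (by omega) i le_rfl) (abs_nonneg _)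
        have h3 : ∀ i, 0 ≤ |c j i| * (P i / θ i) := fun i =>
          mul_nonneg (abs_nonneg _) (div_nonneg (E.P0 i) (h.hθ i).le)
        have h4 : ∑ i, c j i * (P i / θ i) ≤ ∑ i, |c j i| * (P i / θ i) :=
          sum_le_sum fun i _ => mul_le_mul_of_nonneg_right (le_abs_self _)
            (div_nonneg (E.P0 i) (h.hθ i).le)
        have h5 : ∑ i, |c j i| * (P i / θ i) ≤ ∑ i, |c j i| * V i := sum_le_sum fun i _ => h2 i
        have h6 : 0 ≤ ∑ i, |c j i| * (P i / θ i) := sum_nonneg fun i _ => h3 i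
        have h7 := le_abs_self (d j)
        have h8 := abs_nonneg (d j)
        rw [max_le_iff]
        constructor <;> linarith
  exact key _ j le_rfl

theorem LpPf_sumP (h : NetOK c d θ V st inn out M u th D Nb)
    (E : Equil c d θ inn out u th D Nb κ x0 P W bm tm) : ∑ i, P i ≤ 1 / 16 := by
  calc ∑ i, P i = ∑ i, θ i * (P i / θ i) := sum_congr rfl fun i _ => by
        have := (h.hθ i).ne'
        field_simp
    _ ≤ ∑ i, θ i * V i := sum_le_sum fun i _ =>
        mul_le_mul_of_nonneg_left (LpPf_V h E i) (h.hθ i).le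
    _ ≤ _ := h.sm3

theorem LpPf_sumW (h : NetOK c d θ V st inn out M u th D Nb)
    (E : Equil c d θ inn out u th D Nb κ x0 P W bm tm) :
    ∑ i, (|d i| + 1) * W i ≤ (1 + κ) / 100 := by
  have hκ := E.hκ
  calc ∑ i, (|d i| + 1) * W i ≤ ∑ i, (|d i| + 1) * (2 * θ i * (1 + κ)) :=
        sum_le_sum fun i _ => mul_le_mul_of_nonneg_left (LpPf_W h E i) (by positivity)
    _ = 2 * (1 + κ) * ∑ i, (|d i| + 1) * θ i := by
        rw [mul_sum]; exact sum_congr rfl fun i _ => by ring
    _ ≤ 2 * (1 + κ) * (1 / 200) := mul_le_mul_of_nonneg_left h.sm1 (by linarith)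
    _ = _ := by ring

/-- Balance of the main part. -/
theorem LpPf_balance (h : NetOK c d θ V st inn out M u th D Nb)
    (E : Equil c d θ inn out u th D Nb κ x0 P W bm tm) :
    κ * (∑ i, P i + ∑ i, W i) ≤ (1 + κ) / 6 := by
  have hκ := E.hκ
  set ep : Fin 2 → ℚ := fun e =>
    u * (gout Nb u th (bm e) - 4 * u - (u * W (inn e) - u * P (out e))) with hep
  have hP : ∑ j, P j * ((W j - ∑ i, c i j * W i) / θ j - 1 +
      ∑ e, (if j = out e then ep e else 0)) = ∑ j, P j * κ := by
    apply sum_congr rfl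
    intro j _
    rcases (E.P0 j).eq_or_lt with h1 | h1
    · rw [← h1, zero_mul, zero_mul]
    · rw [E.hp' j h1]
  have hW : ∑ j, W j * (∑ i, c j i * (P i / θ i) + d j - P j / θ j +
      ∑ e, (if j = inn e then P (out e) / θ (out e) - ep e else 0)) = ∑ j, W j * κ := by
    apply sum_congr rfl
    intro j _
    rcases (E.W0 j).eq_or_lt with h1 | h1
    · rw [← h1, zero_mul, zero_mul]
    · rw [E.hw' j h1]
  have e1 : ∑ j, P j * ((W j - ∑ i, c i j * W i) / θ j - 1 +
      ∑ e, (if j = out e then ep e else 0)) =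
      ∑ j, P j / θ j * W j - ∑ j, ∑ i, c i j * W i * (P j / θ j) - ∑ j, P j +
        ∑ e, P (out e) * ep e := by
    have e2 : ∀ j, P j * ((W j - ∑ i, c i j * W i) / θ j - 1 +
        ∑ e, (if j = out e then ep e else 0)) =
        P j / θ j * W j - ∑ i, c i j * W i * (P j / θ j) - P j +
          ∑ e, (if j = out e then P j * ep e else 0) := by
      intro j
      have e3 : ∑ e, (if j = out e then P j * ep e else 0) =
          P j * ∑ e, (if j = out e then ep e else 0) := by
        rw [mul_sum]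
        exact sum_congr rfl fun e _ => by split_ifs <;> simp
      rw [e3, ← sum_mul]
      ring
    rw [sum_congr rfl fun j _ => e2 j, sum_add_distrib, sum_sub_distrib, sum_sub_distrib,
      sum_comm (f := fun j e => if j = out e then P j * ep e else 0)]
    congr 1
    apply sum_congr rfl
    intro e _
    rw [sum_ite_eq' univ (out e) fun j => P j * ep e]
    simp
  have e4 : ∑ j, W j * (∑ i, c j i * (P i / θ i) + d j - P j / θ j +
      ∑ e, (if j = inn e then P (out e) / θ (out e) - ep e else 0)) =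
      ∑ j, ∑ i, c j i * W j * (P i / θ i) + ∑ j, d j * W j - ∑ j, P j / θ j * W j +
        ∑ e, W (inn e) * (P (out e) / θ (out e) - ep e) := by
    have e2 : ∀ j, W j * (∑ i, c j i * (P i / θ i) + d j - P j / θ j +
        ∑ e, (if j = inn e then P (out e) / θ (out e) - ep e else 0)) =
        ∑ i, c j i * W j * (P i / θ i) + d j * W j - P j / θ j * W j +
          ∑ e, (if j = inn e then W j * (P (out e) / θ (out e) - ep e) else 0) := by
      intro j
      have e3 : ∑ e, (if j = inn e then W j * (P (out e) / θ (out e) - ep e) else 0) =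
          W j * ∑ e, (if j = inn e then P (out e) / θ (out e) - ep e else 0) := by
        rw [mul_sum]
        exact sum_congr rfl fun e _ => by split_ifs <;> simp
      have e5 : ∑ i, c j i * W j * (P i / θ i) = W j * ∑ i, c j i * (P i / θ i) := by
        rw [mul_sum]
        exact sum_congr rfl fun i _ => by ring
      rw [e3, e5]
      ring
    rw [sum_congr rfl fun j _ => e2 j, sum_add_distrib, sum_sub_distrib, sum_add_distrib,
      sum_comm (f := fun j e => if j = inn e then W j * (P (out e) / θ (out e) - ep e) else 0)]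
    congr 1
    apply sum_congr rfl
    intro e _
    rw [sum_ite_eq' univ (inn e) fun j => W j * (P (out e) / θ (out e) - ep e)]
    simp
  have e6 : ∑ j, ∑ i, c i j * W i * (P j / θ j) = ∑ j, ∑ i, c j i * W j * (P i / θ i) :=
    sum_comm
  have e7 : κ * (∑ i, P i + ∑ i, W i) = -∑ j, P j + ∑ j, d j * W j +
      (∑ e, P (out e) * ep e + ∑ e, W (inn e) * (P (out e) / θ (out e) - ep e)) := by
    have e8 : κ * (∑ i, P i + ∑ i, W i) = ∑ j, P j * κ + ∑ j, W j * κ := by
      rw [← sum_mul, ← sum_mul]; ring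
    rw [e8, ← hP, ← hW, e1, e4, e6]
    ring
  rw [e7]
  have hP0 : 0 ≤ ∑ j, P j := sum_nonneg fun j _ => E.P0 j
  have hdW : ∑ j, d j * W j ≤ (1 + κ) / 100 := by
    refine le_trans (sum_le_sum fun j _ => ?_) (LpPf_sumW h E)
    exact mul_le_mul_of_nonneg_right (by linarith [le_abs_self (d j)]) (E.W0 j)
  have hlast : ∑ e, P (out e) * ep e + ∑ e, W (inn e) * (P (out e) / θ (out e) - ep e) ≤
      2 * ((1 + κ) / 16 + (1 + κ) / 100) := by
    rw [← sum_add_distrib]
    have : ∀ e ∈ (univ : Finset (Fin 2)), P (out e) * ep e +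
        W (inn e) * (P (out e) / θ (out e) - ep e) ≤ (1 + κ) / 16 + (1 + κ) / 100 := by
      intro e _
      have a1 : |ep e| ≤ (1 + κ) / 16 := LpPf_err h E e
      have a2 := LpPf_out_le h E e
      have a3 := LpPf_W h E (inn e)
      have a4 := h.sm2 e
      have a5 := E.P0 (out e)
      have a6 := E.W0 (inn e)
      have a7 : P (out e) ≤ 1 := by
        have h2 : P (out e) ≤ ∑ i, P i := single_le_sum (fun i _ => E.P0 i) (mem_univ _)
        linarith [LpPf_sumP h E]
      have a8 : W (inn e) ≤ 1 := by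
        have h2 : W (inn e) ≤ ∑ i, W i := single_le_sum (fun i _ => E.W0 i) (mem_univ _)
        have h3 := E.total
        have h4 : 0 ≤ ∑ e, (∑ j ∈ range Nb, bm e j + ∑ j ∈ range Nb, tm e j) :=
          sum_nonneg fun e _ => add_nonneg
            (sum_nonneg fun j hj => (E.gad e).bm0 j (mem_range.1 hj))
            (sum_nonneg fun j hj => (E.gad e).tm0 j (mem_range.1 hj))
        have h5 := E.x0n
        linarith
      have b1 : (P (out e) - W (inn e)) * ep e ≤ (1 + κ) / 16 := by
        calc (P (out e) - W (inn e)) * ep e ≤ |(P (out e) - W (inn e)) * ep e| :=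
              le_abs_self _
          _ = |P (out e) - W (inn e)| * |ep e| := abs_mul _ _
          _ ≤ 1 * ((1 + κ) / 16) := by
              apply mul_le_mul _ a1 (abs_nonneg _) (by norm_num)
              rw [abs_le]; constructor <;> linarith
          _ = _ := by ring
      have b2 : W (inn e) * (P (out e) / θ (out e)) ≤ (1 + κ) / 100 := by
        calc W (inn e) * (P (out e) / θ (out e)) ≤ W (inn e) * M :=
              mul_le_mul_of_nonneg_left a2 a6
          _ ≤ 2 * θ (inn e) * (1 + κ) * M := mul_le_mul_of_nonneg_right a3 h.hM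
          _ = 2 * (1 + κ) * (M * θ (inn e)) := by ring
          _ ≤ 2 * (1 + κ) * (1 / 200) := mul_le_mul_of_nonneg_left a4 (by linarith)
          _ = _ := by ring
      calc P (out e) * ep e + W (inn e) * (P (out e) / θ (out e) - ep e) =
          (P (out e) - W (inn e)) * ep e + W (inn e) * (P (out e) / θ (out e)) := by ring
        _ ≤ _ := add_le_add b1 b2
    calc _ ≤ ∑ e : Fin 2, ((1 + κ) / 16 + (1 + κ) / 100) := sum_le_sum this
      _ = _ := by rw [Fin.sum_univ_two]; ring
  linarith

theorem LpPf_gadmass (h : NetOK c d θ V st inn out M u th D Nb)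
    (E : Equil c d θ inn out u th D Nb κ x0 P W bm tm) (e : Fin 2) :
    κ * (∑ j ∈ range Nb, bm e j + ∑ j ∈ range Nb, tm e j) + D * ∑ j ∈ range Nb, tm e j ≤
      40 * u ^ 2 * (1 + κ / D) ∧ ∑ j ∈ range Nb, bm e j ≤ 1 / 32 * (1 + κ / D) := by
  have hu := h.hu
  have hu0 : 0 < u := by linarith
  have hD0 : 0 < D := by nlinarith [h.hD, sq_nonneg u]
  have hκ := E.hκ
  have hκD : 0 ≤ κ / D := div_nonneg hκ hD0.le
  constructor
  · have h1 := (E.gad e).balance hD0 h.hth hu0 hκ
    have h2 := (E.gad e).gout_le hD0 hu0 hκ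
    have h3 : u * W (inn e) - u * P (out e) + 4 * u ≤ 5 * u := by
      have a8 : W (inn e) ≤ 1 := by
        have h2 : W (inn e) ≤ ∑ i, W i := single_le_sum (fun i _ => E.W0 i) (mem_univ _)
        have h3 := E.total
        have h4 : 0 ≤ ∑ e, (∑ j ∈ range Nb, bm e j + ∑ j ∈ range Nb, tm e j) :=
          sum_nonneg fun e _ => add_nonneg
            (sum_nonneg fun j hj => (E.gad e).bm0 j (mem_range.1 hj))
            (sum_nonneg fun j hj => (E.gad e).tm0 j (mem_range.1 hj))
        have h5 := E.x0n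
        have h6 : 0 ≤ ∑ i, P i := sum_nonneg fun j _ => E.P0 j
        linarith
      have := E.P0 (out e)
      nlinarith
    have h4 : 0 ≤ u * W (inn e) - u * P (out e) + 4 * u := by
      have a7 : P (out e) ≤ 1 := by
        have h2 : P (out e) ≤ ∑ i, P i := single_le_sum (fun i _ => E.P0 i) (mem_univ _)
        linarith [LpPf_sumP h E]
      have := E.W0 (inn e)
      nlinarith
    calc _ ≤ gout Nb u th (bm e) * (u * W (inn e) - u * P (out e) + 4 * u) := h1
      _ ≤ 8 * u * (1 + κ / D) * (u * W (inn e) - u * P (out e) + 4 * u) :=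
          mul_le_mul_of_nonneg_right h2 h4
      _ ≤ 8 * u * (1 + κ / D) * (5 * u) := mul_le_mul_of_nonneg_left h3 (by positivity)
      _ = _ := by ring
  · have h1 : ∀ j ∈ range Nb, bm e j ≤ th * (1 + κ / D) := by
      intro j hj
      have := (E.gad e).cap hD0 (mem_range.1 hj)
      rwa [div_le_iff₀ h.hth, mul_comm] at this
    calc _ ≤ ∑ j ∈ range Nb, th * (1 + κ / D) := sum_le_sum h1
      _ = (Nb : ℚ) * th * (1 + κ / D) := by rw [sum_const, card_range, nsmul_eq_mul]; ring
      _ ≤ 1 / 32 * (1 + κ / D) := by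
          apply mul_le_mul_of_nonneg_right _ (by linarith)
          have := h.hth2
          linarith

theorem LpPf_kappa (h : NetOK c d θ V st inn out M u th D Nb)
    (E : Equil c d θ inn out u th D Nb κ x0 P W bm tm) : κ = 0 := by
  by_contra hne
  have hκ := E.hκ
  have hκ0 : 0 < κ := lt_of_le_of_ne hκ (Ne.symm hne)
  have hx : x0 = 0 := by
    rcases E.x0n.eq_or_lt with h1 | h1
    · exact h1.symm
    · exact absurd (E.slack h1) hne
  have hu := h.hu
  have hu0 : 0 < u := by linarith
  have hu2 : 1 ≤ u ^ 2 := by nlinarith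
  have hD0 : 0 < D := by nlinarith [h.hD, sq_nonneg u]
  have hb := LpPf_balance h E
  obtain ⟨g0, b0⟩ := LpPf_gadmass h E 0
  obtain ⟨g1, b1⟩ := LpPf_gadmass h E 1
  have ht := E.total
  rw [hx, Fin.sum_univ_two] at ht
  set m0 := ∑ j ∈ range Nb, bm 0 j
  set m1 := ∑ j ∈ range Nb, bm 1 j
  set t0 := ∑ j ∈ range Nb, tm 0 j with ht0
  set t1 := ∑ j ∈ range Nb, tm 1 j with ht1
  have t0n : 0 ≤ t0 := sum_nonneg fun j hj => (E.gad 0).tm0 j (mem_range.1 hj)
  have t1n : 0 ≤ t1 := sum_nonneg fun j hj => (E.gad 1).tm0 j (mem_range.1 hj)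
  have m0n : 0 ≤ m0 := sum_nonneg fun j hj => (E.gad 0).bm0 j (mem_range.1 hj)
  have m1n : 0 ≤ m1 := sum_nonneg fun j hj => (E.gad 1).bm0 j (mem_range.1 hj)
  set μ := ∑ i, P i + ∑ i, W i with hμ
  have hκD : 0 ≤ κ / D := div_nonneg hκ hD0.le
  -- first bound for kappa
  have hDd := h.hD
  have e1 : 40 * u ^ 2 * (1 + κ / D) ≤ 40 * u ^ 2 + κ / 100 := by
    have : u ^ 2 * (κ / D) ≤ κ / 4096 := by
      rw [← mul_div_assoc, div_le_div_iff₀ hD0 (by norm_num)]
      nlinarith [mul_nonneg hκ (sub_nonneg.2 hDd)]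
    nlinarith
  have dt0 : 0 ≤ D * t0 := mul_nonneg hD0.le t0n
  have dt1 : 0 ≤ D * t1 := mul_nonneg hD0.le t1n
  have e2 : κ ≤ 100 * u ^ 2 := by
    have : κ = κ * μ + κ * (m0 + t0) + κ * (m1 + t1) := by
      have : μ + (m0 + t0) + (m1 + t1) = 1 := by linarith
      calc κ = κ * (μ + (m0 + t0) + (m1 + t1)) := by rw [this, mul_one]
        _ = _ := by ring
    nlinarith
  have e3 : κ / D ≤ 1 / 40 := by
    rw [div_le_div_iff₀ hD0 (by norm_num)]
    nlinarith
  have e4 : ∀ t : ℚ, D * t ≤ 40 * u ^ 2 * (1 + κ / D) → t ≤ 1 / 90 := by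
    intro t ht
    have h1 : D * t ≤ 41 * u ^ 2 := by nlinarith
    by_contra h2
    push Not at h2
    nlinarith [mul_lt_mul_of_pos_left h2 hD0]
  have f0 : t0 ≤ 1 / 90 := e4 t0 (by nlinarith [mul_nonneg hκ (add_nonneg m0n t0n)])
  have f1 : t1 ≤ 1 / 90 := e4 t1 (by nlinarith [mul_nonneg hκ (add_nonneg m1n t1n)])
  have f2 : m0 ≤ 1 / 30 := by linarith
  have f3 : m1 ≤ 1 / 30 := by linarith
  have f4 : 9 / 10 ≤ μ := by linarith
  have f5 : κ ≤ 1 := by nlinarith
  have f6 : ∑ i, W i ≤ (1 + κ) / 100 := by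
    refine le_trans (sum_le_sum fun i _ => ?_) (LpPf_sumW h E)
    have := E.W0 i
    have := abs_nonneg (d i)
    nlinarith
  have f7 := LpPf_sumP h E
  linarith

/-- In equilibrium the gates are evaluated exactly, and the values of the input gates are close
to the values of the output gates. -/
theorem NetOK.main (h : NetOK c d θ V st inn out M u th D Nb)
    (E : Equil c d θ inn out u th D Nb κ x0 P W bm tm) :
    (∀ j, (∀ e, j ≠ inn e) → P j / θ j = max 0 (∑ i, c j i * (P i / θ i) + d j)) ∧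
    ∀ e, |P (inn e) / θ (inn e) - P (out e) / θ (out e)| ≤ 1 / 4 := by
  have hκ := LpPf_kappa h E
  refine ⟨fun j hj => ?_, fun e => ?_⟩
  · rw [LpPf_v h E j hj, hκ, sub_zero]
  · have h1 := LpPf_vin h E e
    have h2 := LpPf_err h E e
    have h3 : 0 ≤ P (out e) / θ (out e) := div_nonneg (E.P0 _) (h.hθ _).le
    rw [hκ] at h1 h2
    rw [h1]
    have h4 := abs_le.1 h2
    rw [abs_le]
    constructor
    · have := le_max_right (0 : ℚ) (P (out e) / θ (out e) - u * (gout Nb u th (bm e) - 4 * u -
        (u * W (inn e) - u * P (out e))) - 0)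
      linarith
    · rw [sub_le_iff_le_add, max_le_iff]
      constructor <;> linarith

end Pool.Agent.H424R2.SG
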