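import Pool.Agent.H424R2.SG.Game
import Pool.Agent.H424R2.SG.GameB
import Pool.Agent.H424R2.SG.GameC
import Pool.Agent.H424R2.SG.GameD
import Pool.Agent.H424R2.SG.LpPf

namespace Pool.Agent.H424R2.SG

open Pool.Agent.NPC Matrix

theorem GameE_name_inj {G : List Gate} (hG : (G.map fun g => g.1).Nodup) {g g' : Gate}
    (h : g ∈ G) (h' : g' ∈ G) (e : g.1 = g'.1) : g = g' :=
  List.inj_on_of_nodup_map hG h h' e

theorem GameE_gval {P : Par} {G : List Gate} (hG : (G.map fun g => g.1).Nodup) (x : List ℚ)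
    {g : Gate} (h : g ∈ G) :
    gval P G x g.1 = mass P G x (1, 0, 0, g) * 2 ^ (ex P g) := by
  unfold gval
  cases hf : G.find? (fun g' => decide (g'.1 = g.1)) with
  | none =>
    exfalso
    have := List.find?_eq_none.1 hf g h
    simp at this
  | some g' =>
    have h1 : g' ∈ G := List.mem_of_find?_eq_some hf
    have h2 : g'.1 = g.1 := by
      have := List.find?_some hf
      simpa using this
    have h3 : g' = g := GameE_name_inj hG h1 h h2
    subst h3
    rfl

theorem GameE_sum {G : List Gate} (hG : (G.map fun g => g.1).Nodup) (v : Name → ℚ)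
    (l : List (ℤ × Name)) (d : ℤ) (hl : ∀ t ∈ l, ∃ g ∈ G, g.1 = t.2) :
    (l.map fun t => (t.1 : ℚ) * v t.2).sum =
      ∑ i : GI G, (coef (l, d) i.1.1 : ℚ) * v i.1.1 := by
  classical
  induction l with
  | nil => simp [coef]
  | cons t l ih =>
    have ih' := ih (fun t ht => hl t (by simp [ht]))
    obtain ⟨g, hg, hgt⟩ := hl t (by simp)
    rw [List.map_cons, List.sum_cons, ih']
    have hc : ∀ n, coef (t :: l, d) n = (if t.2 = n then t.1 else 0) + coef (l, d) n := by
      intro n
      unfold coef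
      by_cases h : t.2 = n
      · simp [h]
      · simp [h]
    simp only [hc, Int.cast_add, add_mul, Finset.sum_add_distrib]
    congr 1
    have hgm : g ∈ G.toFinset := List.mem_toFinset.2 hg
    rw [Finset.sum_eq_single (⟨g, hgm⟩ : GI G)]
    · simp [hgt]
    · intro i _ hi
      have : t.2 ≠ i.1.1 := by
        intro h
        apply hi
        apply Subtype.ext
        exact GameE_name_inj hG (List.mem_toFinset.1 i.2) hg (by rw [← h, hgt])
      simp [this]
    · intro h
      exact absurd (Finset.mem_univ _) h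

/-- The game of a net: in a symmetric equilibrium the gates (other than the input gates) are
evaluated exactly, and the values of the input gates are close to those of the output gates. -/
theorem game_spec (inn out : ℕ → Name) (G : List Gate) (m S : ℕ)
    (hG : (G.map fun g => g.1).Nodup)
    (hin : ∀ g ∈ G, FIn (fun n => ∃ g' ∈ G, g'.1 = n ∧ g'.2.1 < g.2.1) g.2.2)
    (hgi : ∀ e < 2, (inn e, 0, [], 0) ∈ G) (hgo : ∀ e < 2, ∃ f, (out e, S, f) ∈ G)
    (hne : inn 0 ≠ inn 1 ∧ out 0 ≠ out 1 ∧ ∀ e e', inn e ≠ out e')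
    (hcap : ∀ (v : Name → ℚ) (κ : ℚ), 0 ≤ κ → (∀ g ∈ G, g.1 ≠ inn 0 → g.1 ≠ inn 1 →
      v g.1 = max 0 (ev v g.2.2 - κ)) → ∀ e < 2, v (out e) ≤ 2 ^ m - 2)
    (hm : 1 ≤ m) {r : ℕ} {x : List ℚ}
    (hx : (SymNE r).IsSol (gameMat (parOf inn out G m S) G) x) :
    (∀ g ∈ G, g.1 ≠ inn 0 → g.1 ≠ inn 1 → gval (parOf inn out G m S) G x g.1 =
      max 0 (ev (gval (parOf inn out G m S) G x) g.2.2)) ∧
    (∀ n, 0 ≤ gval (parOf inn out G m S) G x n) ∧
    ∀ e < 2, |gval (parOf inn out G m S) G x (inn e) -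
      gval (parOf inn out G m S) G x (out e)| ≤ 1 / 4 := by
  classical
  set P := parOf inn out G m S with hP
  obtain ⟨hX, hX1, κ, hκ⟩ := pay_of_sol P G hG hx
  set X := mass P G x with hXdef
  choose fo hfo using hgo
  let gi : Fin 2 → GI G := fun e => ⟨(inn e, 0, [], 0), List.mem_toFinset.2 (hgi e e.2)⟩
  let go : Fin 2 → GI G := fun e => ⟨(out e, S, fo e e.2), List.mem_toFinset.2 (hfo e e.2)⟩
  have hgi' : ∀ e, (gi e).1.1 = P.inn e := fun e => rfl
  have hgo' : ∀ e, (go e).1.1 = P.out e := fun e => rfl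
  have hgi0 : ∀ e, (gi e).1.2.2 = ([], 0) := fun e => rfl
  have hS : ∀ e, (go e).1.2.1 = S := fun e => rfl
  have hex : ∀ e, ex P (go e).1 = 2 * P.h + 2 := by
    intro e
    show P.s * S + P.e0 = 2 * P.h + 2
    rw [hP]
    simp only [parOf]
    ring
  have hF : 2 * P.Nb ≤ P.F := by
    rw [hP]
    simp only [parOf]
    omega
  have hE := equil_of_pay P G hG hin gi go hgi' hgo' hne hgi0 hex hF X hX hX1 κ hκ
  have hN := netOK_of inn out G m S hG hin gi go hgi' hgo' hne hgi0 hS hcap hm
  obtain ⟨h1, h2⟩ := hN.main hE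
  have hval : ∀ j : GI G, X (1, 0, 0, j.1) / (1 / 2 ^ (ex P j.1)) = gval P G x j.1.1 := by
    intro j
    rw [GameE_gval hG x (List.mem_toFinset.1 j.2), div_div_eq_mul_div, div_one]
  refine ⟨?_, ?_, ?_⟩
  · intro g hg hg0 hg1
    have hgm : g ∈ G.toFinset := List.mem_toFinset.2 hg
    have h3 := h1 ⟨g, hgm⟩ (by
      intro e he
      have he' : g.1 = inn e := by
        have := congrArg (fun j : GI G => j.1.1) he
        exact this
      fin_cases e
      · exact hg0 he'
      · exact hg1 he')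
    rw [hval] at h3
    rw [h3]
    congr 1
    unfold ev
    rw [GameE_sum hG (gval P G x) g.2.2.1 g.2.2.2 (fun t ht => by
      obtain ⟨g', hg', e, -⟩ := hin g hg t ht
      exact ⟨g', hg', e⟩)]
    congr 1
    refine Finset.sum_congr rfl fun i _ => ?_
    rw [← hval i]
  · intro n
    unfold gval
    split
    · exact le_rfl
    · exact mul_nonneg (hX _) (by positivity)
  · intro e he
    have h3 := h2 ⟨e, he⟩
    rw [hval, hval] at h3
    exact h3

end Pool.Agent.H424R2.SG
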