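import Pool.Agent.H527R2.SimTM
import Pool.Agent.H424R2.SG.Form

/-!
# Gates simulating a Turing machine
-/

namespace Pool.Agent.H424R2.SG

open Pool.Agent.NPC Pool.Agent.NPC.Cnt

section

variable {K C A : Type} [DecidableEq K] [DecidableEq C] [DecidableEq A] [Fintype K] [Fintype C]
  [Fintype A] (D : Tab K C A)

/-- name of the gate telling that the machine is at time `t` in the state `c` and reads `o` -/
noncomputable def nA (tg : List ℕ) (t : ℕ) (c : C) (o : Option A) : Name :=
  tg ++ [0, t, ix c, ix o]

/-- name of the gate telling that moreover the source of the new content of the cell `i` of the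
stack `k` has the content `o'` -/
noncomputable def nB (tg : List ℕ) (t : ℕ) (c : C) (o : Option A) (k : K) (i : ℕ)
    (o' : Option A) : Name :=
  tg ++ [1, t, ix c, ix o, ix k, i, ix o']

/-- indicator -/
def ind (p : Prop) [Decidable p] : Form := cst (if p then 1 else 0)

/-- the content of the cell `i` of the stack `k` at time `0` is `o`; the input is the list `pre`
followed by the bits given by the forms `ws` -/
def fX0 (pre : List Bool) (ws : List Form) (k : K) (i : ℕ) (o : Option A) : Form :=
  if k = D.k0 then
    if i < pre.length then ind (o = some (D.sym (pre.getD i false)))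
    else if i < pre.length + ws.length then
      (if o = some (D.sym true) then ws.getD (i - pre.length) (cst 0)
        else if o = some (D.sym false) then
          fadd (cst 1) (fsmul (-1) (ws.getD (i - pre.length) (cst 0)))
        else cst 0)
    else ind (o = none)
  else ind (o = none)

/-- the state at time `t` is `c` -/
noncomputable def fC (tg : List ℕ) (t : ℕ) (c : C) : Form :=
  if t = 0 then ind (c = D.c0)
  else fsum (D.cs.flatMap fun c' => D.os.map fun o' =>
    if D.M.nxt c' o' = c then vr (nA tg (t - 1) c' o') else cst 0)

/-- the content of the cell `i` of the stack `k` at time `t` is `o` -/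
noncomputable def fX (tg : List ℕ) (pre : List Bool) (ws : List Form) (N : ℕ) (t : ℕ) (k : K)
    (i : ℕ) (o : Option A) : Form :=
  if N ≤ i then ind (o = none)
  else if t = 0 then fX0 D pre ws k i o
  else fsum (D.cs.flatMap fun c' => D.os.map fun o' =>
    match D.M.src c' o' k i with
    | Sum.inl _ => vr (nB tg (t - 1) c' o' k i o)
    | Sum.inr a => if o = some a then vr (nA tg (t - 1) c' o') else cst 0)

/-- gates of the first kind -/
noncomputable def gA (tg : List ℕ) (b : ℕ) (pre : List Bool) (ws : List Form) (N : ℕ) (t : ℕ)
    (c : C) (o : Option A) : Gate :=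
  (nA tg t c o, b + 2 * t, fadd (fadd (fC D tg t c) (fX D tg pre ws N t (D.M.stk c) 0 o))
    (cst (-1)))

/-- gates of the second kind -/
noncomputable def gB (tg : List ℕ) (b : ℕ) (pre : List Bool) (ws : List Form) (N : ℕ) (t : ℕ)
    (c : C) (o : Option A) (k : K) (i : ℕ) (o' : Option A) : Gate :=
  (nB tg t c o k i o', b + 2 * t + 1,
    match D.M.src c o k i with
    | Sum.inl j => fadd (fadd (vr (nA tg t c o)) (fX D tg pre ws N t k j o')) (cst (-1))
    | Sum.inr _ => cst 0)

/-- acceptance -/
noncomputable def fAcc (tg : List ℕ) (pre : List Bool) (ws : List Form) (N T : ℕ) : Form :=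
  fadd (fadd (fsum ((D.os.filter fun o => D.good o).map fun o => fX D tg pre ws N T D.k1 0 o))
    (fX D tg pre ws N T D.k1 1 none)) (cst (-1))

/-- name of the output gate -/
def nRej (tg : List ℕ) : Name := tg ++ [3]

/-- all gates of a copy of the machine -/
noncomputable def mach (tg : List ℕ) (b : ℕ) (pre : List Bool) (ws : List Form) (N T : ℕ) :
    List Gate :=
  ((List.range T).flatMap fun t => D.cs.flatMap fun c => D.os.flatMap fun o =>
    gA D tg b pre ws N t c o :: (D.ks.flatMap fun k => (List.range N).flatMap fun i =>
      D.os.map fun o' => gB D tg b pre ws N t c o k i o')) ++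
  [(tg ++ [2], b + 2 * T, fAcc D tg pre ws N T),
   (nRej tg, b + 2 * T + 1, fadd (cst 1) (fsmul (-1) (vr (tg ++ [2]))))]

end

end Pool.Agent.H424R2.SG
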