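import Pool.Agent.H424R2.SG.Mach

namespace Pool.Agent.H424R2.SG

open Pool.Agent.NPC Pool.Agent.NPC.Cnt

theorem MachA_sum_ite {α : Type} [DecidableEq α] (l : List α) (hl : l.Nodup) (a : α)
    (ha : a ∈ l) (g : α → ℚ) : (l.map fun b => if b = a then g b else 0).sum = g a := by
  induction l with
  | nil => simp at ha
  | cons b l ih =>
    rw [List.map_cons, List.sum_cons]
    rw [List.nodup_cons] at hl
    rcases List.mem_cons.1 ha with h | h
    · subst h
      rw [if_pos rfl]
      have : (l.map fun b => if b = a then g b else 0).sum = 0 := by
        apply List.sum_eq_zero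
        intro x hx
        rw [List.mem_map] at hx
        obtain ⟨c, hc, rfl⟩ := hx
        rw [if_neg]
        rintro rfl
        exact hl.1 hc
      rw [this, add_zero]
    · have : b ≠ a := by
        rintro rfl
        exact hl.1 h
      rw [if_neg this, zero_add, ih hl.2 h]

theorem MachA_sum2 {α β : Type} [DecidableEq α] [DecidableEq β] (l : List α) (l' : List β)
    (hl : l.Nodup) (hl' : l'.Nodup) (a : α) (b : β) (ha : a ∈ l) (hb : b ∈ l')
    (F : α → β → Form) (v : Name → ℚ) (g : ℚ)
    (hF : ∀ x ∈ l, ∀ y ∈ l', ev v (F x y) = if x = a ∧ y = b then g else 0) :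
    ev v (fsum (l.flatMap fun x => l'.map fun y => F x y)) = g := by
  have h1 : ∀ l : List α, ((l.flatMap fun x => l'.map fun y => F x y).map (ev v)).sum =
      (l.map fun x => (l'.map fun y => ev v (F x y)).sum).sum := by
    intro l
    induction l with
    | nil => simp
    | cons x l ih =>
      rw [List.flatMap_cons, List.map_append, List.sum_append, ih, List.map_cons, List.sum_cons,
        List.map_map]
      rfl
  rw [ev_fsum, h1]
  have h2 : (l.map fun x => (l'.map fun y => ev v (F x y)).sum) =
      l.map fun x => if x = a then g else 0 := by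
    apply List.map_congr_left
    intro x hx
    have h3 : (l'.map fun y => ev v (F x y)) =
        l'.map fun y => if y = b then (if x = a then g else 0) else 0 := by
      apply List.map_congr_left
      intro y hy
      rw [hF x hx y hy]
      by_cases h4 : x = a <;> by_cases h5 : y = b <;> simp [h4, h5]
    rw [h3, MachA_sum_ite l' hl' b hb fun _ => if x = a then g else 0]
  rw [h2, MachA_sum_ite l hl a ha fun _ => g]

variable {K C A : Type} [DecidableEq K] [DecidableEq C] [DecidableEq A] [Fintype K] [Fintype C]
  [Fintype A] {D : Tab K C A}

/-- the output is in the unit interval -/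
theorem mach_range {tg : List ℕ} {b : ℕ} {pre : List Bool} {ws : List Form} {N T : ℕ}
    {v : Name → ℚ} (hv : ∀ g ∈ mach D tg b pre ws N T, v g.1 = max 0 (ev v g.2.2)) :
    0 ≤ v (nRej tg) ∧ v (nRej tg) ≤ 1 := by
  have h1 := hv (nRej tg, b + 2 * T + 1, fadd (cst 1) (fsmul (-1) (vr (tg ++ [2]))))
    (by simp [mach])
  have h2 := hv (tg ++ [2], b + 2 * T, fAcc D tg pre ws N T) (by simp [mach])
  simp only [ev_fadd, ev_cst, ev_fsmul, ev_vr] at h1
  simp only at h2
  have h3 : 0 ≤ v (tg ++ [2]) := by rw [h2]; exact le_max_left _ _
  rw [h1]
  refine ⟨le_max_left _ _, ?_⟩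
  push_cast
  rw [max_le_iff]
  constructor <;> linarith

theorem MachA_os_nodup (has : D.as.Nodup) : D.os.Nodup := by
  unfold Tab.os
  rw [List.nodup_cons]
  refine ⟨by simp, has.map (fun a b h => by simpa using h)⟩

/-- the gates simulate the machine -/
theorem mach_spec (hD : D.Ok) (hcs : D.cs.Nodup) (has : D.as.Nodup) {tg : List ℕ} {b : ℕ}
    {pre : List Bool} {ws : List Form} {N T : ℕ} {v : Name → ℚ}
    (hv : ∀ g ∈ mach D tg b pre ws N T, v g.1 = max 0 (ev v g.2.2))
    (w : List Bool) (hw : ws.length = w.length)
    (hw' : ∀ i < w.length, ev v (ws.getD i (cst 0)) = if w.getD i false then 1 else 0)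
    (hN : pre.length + w.length + T < N) :
    v (nRej tg) = if D.good ((D.conf (pre ++ w) T).2 D.k1)[0]? = true ∧
      ((D.conf (pre ++ w) T).2 D.k1)[1]? = none then 0 else 1 := by
  have hos := MachA_os_nodup has
  have hvA : ∀ t < T, ∀ c ∈ D.cs, ∀ o ∈ D.os, v (nA tg t c o) =
      max 0 (ev v (fC D tg t c) + ev v (fX D tg pre ws N t (D.M.stk c) 0 o) - 1) := by
    intro t ht c hc o ho
    have h1 := hv (gA D tg b pre ws N t c o) (by
      unfold mach
      rw [List.mem_append]
      left
      simp only [List.mem_flatMap, List.mem_range]
      exact ⟨t, ht, c, hc, o, ho, by simp⟩)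
    simp only [gA, ev_fadd, ev_cst] at h1
    rw [h1]
    push_cast
    rw [← sub_eq_add_neg]
  have hvB : ∀ t < T, ∀ c ∈ D.cs, ∀ o ∈ D.os, ∀ k ∈ D.ks, ∀ i < N, ∀ o' ∈ D.os, ∀ j,
      D.M.src c o k i = Sum.inl j → v (nB tg t c o k i o') =
      max 0 (v (nA tg t c o) + ev v (fX D tg pre ws N t k j o') - 1) := by
    intro t ht c hc o ho k hk i hi o' ho' j hj
    have h1 := hv (gB D tg b pre ws N t c o k i o') (by
      unfold mach
      rw [List.mem_append]
      left
      simp only [List.mem_flatMap, List.mem_range]
      refine ⟨t, ht, c, hc, o, ho, ?_⟩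
      rw [List.mem_cons]
      right
      simp only [List.mem_flatMap, List.mem_range, List.mem_map]
      exact ⟨k, hk, i, hi, o', ho', rfl⟩)
    simp only [gB, hj, ev_fadd, ev_cst, ev_vr] at h1
    rw [h1]
    push_cast
    rw [← sub_eq_add_neg]
  -- the invariant
  have inv : ∀ t ≤ T, (∀ c, ev v (fC D tg t c) = if (D.conf (pre ++ w) t).1 = c then 1 else 0) ∧
      (∀ k ∈ D.ks, ∀ i, ∀ o ∈ D.os, ev v (fX D tg pre ws N t k i o) =
        if ((D.conf (pre ++ w) t).2 k)[i]? = o then 1 else 0) := by
    intro t
    induction t with
    | zero =>
      intro _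
      constructor
      · intro c
        simp only [fC, if_true, ind, ev_cst]
        have : (D.conf (pre ++ w) 0).1 = D.c0 := rfl
        rw [this]
        by_cases h : c = D.c0
        · rw [if_pos h, if_pos h.symm]; simp
        · rw [if_neg h, if_neg fun h' => h h'.symm]; simp
      · intro k _ i o _
        have e0 : (D.conf (pre ++ w) 0).2 k =
            if k = D.k0 then (pre ++ w).map D.sym else [] := by
          change Function.update (fun _ => []) D.k0 ((pre ++ w).map D.sym) k = _
          by_cases hk : k = D.k0
          · subst hk; simp
          · simp [hk]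
        have e1 : ∀ p q : Prop, [Decidable p] → [Decidable q] → (p ↔ q) →
            ((if p then (1 : ℤ) else 0 : ℤ) : ℚ) = if q then 1 else 0 := by
          intro p q _ _ h
          by_cases hp : p
          · rw [if_pos hp, if_pos (h.1 hp)]; simp
          · rw [if_neg hp, if_neg fun hq => hp (h.2 hq)]; simp
        unfold fX
        by_cases hi : N ≤ i
        · rw [if_pos hi]
          unfold ind
          rw [ev_cst]
          apply e1
          have hlen : ((D.conf (pre ++ w) 0).2 k)[i]? = none := by
            rw [List.getElem?_eq_none_iff, e0]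
            split_ifs
            · simp; omega
            · simp
          rw [hlen, eq_comm]
        · rw [if_neg hi, if_pos rfl, e0]
          unfold fX0
          by_cases hk : k = D.k0
          · rw [if_pos hk, if_pos hk]
            by_cases h1 : i < pre.length
            · rw [if_pos h1]
              unfold ind
              rw [ev_cst]
              apply e1
              have : ((pre ++ w).map D.sym)[i]? = some (D.sym (pre.getD i false)) := by
                rw [List.getElem?_map, List.getElem?_append_left h1]
                simp [List.getD_eq_getElem?_getD, List.getElem?_eq_getElem h1]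
              rw [this, eq_comm]
            · rw [if_neg h1]
              by_cases h2 : i < pre.length + ws.length
              · rw [if_pos h2]
                have h3 : i - pre.length < w.length := by omega
                have h4 : ((pre ++ w).map D.sym)[i]? =
                    some (D.sym (w.getD (i - pre.length) false)) := by
                  rw [List.getElem?_map, List.getElem?_append_right (by omega)]
                  simp [List.getD_eq_getElem?_getD, List.getElem?_eq_getElem h3]
                have h5 := hw' (i - pre.length) h3
                rw [h4]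
                have hne := hD.symne
                cases hb : w.getD (i - pre.length) false
                · rw [hb] at h5
                  simp only [Bool.false_eq_true, if_false] at h5
                  by_cases h6 : o = some (D.sym true)
                  · rw [if_pos h6, h5, h6, if_neg]
                    intro h7
                    exact hne (Option.some.inj h7).symm
                  · rw [if_neg h6]
                    by_cases h7 : o = some (D.sym false)
                    · rw [if_pos h7, h7, if_pos rfl, ev_fadd, ev_cst, ev_fsmul, h5]
                      norm_num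
                    · rw [if_neg h7, if_neg fun h8 => h7 h8.symm]
                      simp
                · rw [hb] at h5
                  simp only [if_true] at h5
                  by_cases h6 : o = some (D.sym true)
                  · rw [if_pos h6, h5, h6, if_pos rfl]
                  · rw [if_neg h6]
                    have h8 : ¬ some (D.sym true) = o := fun h8 => h6 h8.symm
                    by_cases h7 : o = some (D.sym false)
                    · rw [if_pos h7, if_neg h8, ev_fadd, ev_cst, ev_fsmul, h5]
                      norm_num
                    · rw [if_neg h7, if_neg h8]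
                      simp
              · rw [if_neg h2]
                unfold ind
                rw [ev_cst]
                apply e1
                have : ((pre ++ w).map D.sym)[i]? = none := by
                  rw [List.getElem?_eq_none_iff]
                  simp; omega
                rw [this, eq_comm]
          · rw [if_neg hk, if_neg hk]
            unfold ind
            rw [ev_cst]
            apply e1
            rw [List.getElem?_nil, eq_comm]
    | succ t ih =>
      intro ht
      obtain ⟨ihC, ihX⟩ := ih (by omega)
      have ht' : t < T := by omega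
      set x := D.conf (pre ++ w) t with hx
      have hreach := hD.reach (pre ++ w) t
      rw [← hx] at hreach
      have hc0 : x.1 ∈ D.cs := hreach.1
      have ho0 : (x.2 (D.M.stk x.1)).head? ∈ D.os := by
        rw [List.head?_eq_getElem?]
        exact hD.get_mem _ _ _ _
      have hA : ∀ c ∈ D.cs, ∀ o ∈ D.os, v (nA tg t c o) =
          if c = x.1 ∧ o = (x.2 (D.M.stk x.1)).head? then 1 else 0 := by
        intro c hc o ho
        rw [hvA t ht' c hc o ho, ihC c, ihX (D.M.stk c) (hD.stk c hc) 0 o ho]
        by_cases h1 : c = x.1
        · subst h1
          rw [← List.head?_eq_getElem?]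
          by_cases h2 : o = (x.2 (D.M.stk x.1)).head?
          · rw [if_pos rfl, if_pos h2.symm, if_pos ⟨rfl, h2⟩]; norm_num
          · have h3 : ¬ (x.1 = x.1 ∧ o = (x.2 (D.M.stk x.1)).head?) := fun h => h2 h.2
            rw [if_pos rfl, if_neg fun h => h2 h.symm, if_neg h3]; norm_num
        · have h3 : ¬ (c = x.1 ∧ o = (x.2 (D.M.stk x.1)).head?) := fun h => h1 h.1
          rw [if_neg fun h => h1 h.symm, if_neg h3]
          split_ifs <;> norm_num
      have hB : ∀ c ∈ D.cs, ∀ o ∈ D.os, ∀ k ∈ D.ks, ∀ i < N, ∀ o' ∈ D.os, ∀ j,
          D.M.src c o k i = Sum.inl j → v (nB tg t c o k i o') =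
          if c = x.1 ∧ o = (x.2 (D.M.stk x.1)).head? then
            (if (x.2 k)[j]? = o' then 1 else 0) else 0 := by
        intro c hc o ho k hk i hi o' ho' j hj
        rw [hvB t ht' c hc o ho k hk i hi o' ho' j hj, hA c hc o ho, ihX k hk j o' ho']
        split_ifs <;> norm_num
      rw [Tab.conf_succ, ← hx]
      constructor
      · intro c
        unfold fC
        rw [if_neg (by omega)]
        refine MachA_sum2 D.cs D.os hcs hos x.1 (x.2 (D.M.stk x.1)).head? hc0 ho0 _ v _ ?_
        intro c' hc' o' ho'
        simp only [Nat.add_sub_cancel]
        have e2 : (D.M.step x).1 = D.M.nxt x.1 (x.2 (D.M.stk x.1)).head? := rfl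
        by_cases h1 : c' = x.1 ∧ o' = (x.2 (D.M.stk x.1)).head?
        · rw [if_pos h1, e2, ← h1.2, ← h1.1]
          by_cases h2 : D.M.nxt c' o' = c
          · rw [if_pos h2, ev_vr, hA c' hc' o' ho', if_pos h1, if_pos h2]
          · rw [if_neg h2, ev_cst, if_neg h2]; simp
        · rw [if_neg h1]
          by_cases h2 : D.M.nxt c' o' = c
          · rw [if_pos h2, ev_vr, hA c' hc' o' ho', if_neg h1]
          · rw [if_neg h2, ev_cst]; simp
      · intro k hk i o ho
        unfold fX
        by_cases hi : N ≤ i
        · rw [if_pos hi]
          unfold ind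
          rw [ev_cst]
          have hlen : ((D.M.step x).2 k)[i]? = none := by
            rw [List.getElem?_eq_none_iff]
            have h1 := Tab.conf_length D (pre ++ w) (t + 1) k
            rw [Tab.conf_succ, ← hx, List.length_append] at h1
            omega
          rw [hlen]
          by_cases h : o = none
          · rw [if_pos h, if_pos h.symm]; simp
          · rw [if_neg h, if_neg fun h' => h h'.symm]; simp
        · rw [if_neg hi, if_neg (by omega)]
          refine MachA_sum2 D.cs D.os hcs hos x.1 (x.2 (D.M.stk x.1)).head? hc0 ho0 _ v _ ?_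
          intro c' hc' o' ho'
          simp only [Nat.add_sub_cancel]
          rw [NM.step_get]
          by_cases h1 : c' = x.1 ∧ o' = (x.2 (D.M.stk x.1)).head?
          · rw [if_pos h1, ← h1.2, ← h1.1]
            cases hs : D.M.src c' o' k i with
            | inl j =>
              simp only
              rw [ev_vr, hB c' hc' o' ho' k hk i (by omega) o ho j hs, if_pos h1]
            | inr a =>
              simp only
              by_cases h2 : o = some a
              · rw [if_pos h2, ev_vr, hA c' hc' o' ho', if_pos h1, if_pos h2.symm]
              · rw [if_neg h2, ev_cst, if_neg fun h => h2 h.symm]; simp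
          · rw [if_neg h1]
            cases hs : D.M.src c' o' k i with
            | inl j =>
              simp only
              rw [ev_vr, hB c' hc' o' ho' k hk i (by omega) o ho j hs, if_neg h1]
            | inr a =>
              simp only
              by_cases h2 : o = some a
              · rw [if_pos h2, ev_vr, hA c' hc' o' ho', if_neg h1]
              · rw [if_neg h2, ev_cst]; simp
  -- acceptance
  obtain ⟨_, hX⟩ := inv T le_rfl
  have h1 := hv (nRej tg, b + 2 * T + 1, fadd (cst 1) (fsmul (-1) (vr (tg ++ [2]))))
    (by simp [mach])
  have h2 := hv (tg ++ [2], b + 2 * T, fAcc D tg pre ws N T) (by simp [mach])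
  simp only [ev_fadd, ev_cst, ev_fsmul, ev_vr] at h1
  simp only [fAcc, ev_fadd, ev_cst, ev_fsum, List.map_map] at h2
  have h3 : ((D.os.filter fun o => D.good o).map
      (ev v ∘ fun o => fX D tg pre ws N T D.k1 0 o)).sum =
      if D.good ((D.conf (pre ++ w) T).2 D.k1)[0]? = true then 1 else 0 := by
    have h4 : (D.os.filter fun o => D.good o).map
        (ev v ∘ fun o => fX D tg pre ws N T D.k1 0 o) =
        (D.os.filter fun o => D.good o).map fun o =>
          if o = ((D.conf (pre ++ w) T).2 D.k1)[0]? then (1 : ℚ) else 0 := by
      apply List.map_congr_left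
      intro o ho
      rw [Function.comp_apply, hX D.k1 hD.k1 0 o (List.mem_filter.1 ho).1]
      by_cases h : o = ((D.conf (pre ++ w) T).2 D.k1)[0]?
      · rw [if_pos h, if_pos h.symm]
      · rw [if_neg h, if_neg fun h' => h h'.symm]
    rw [h4]
    by_cases hg : D.good ((D.conf (pre ++ w) T).2 D.k1)[0]? = true
    · rw [if_pos hg]
      exact MachA_sum_ite _ (hos.filter _) _ (List.mem_filter.2 ⟨hD.get_mem _ _ _ _, hg⟩)
        fun _ => 1
    · rw [if_neg hg]
      apply List.sum_eq_zero
      intro y hy
      rw [List.mem_map] at hy
      obtain ⟨o, ho, rfl⟩ := hy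
      rw [if_neg]
      rintro rfl
      exact hg (List.mem_filter.1 ho).2
  rw [h3, hX D.k1 hD.k1 1 none Tab.none_mem_os] at h2
  rw [h1, h2]
  by_cases hg : D.good ((D.conf (pre ++ w) T).2 D.k1)[0]? = true
  · by_cases hn : ((D.conf (pre ++ w) T).2 D.k1)[1]? = none
    · rw [if_pos hg, if_pos hn, if_pos ⟨hg, hn⟩]; norm_num
    · have h5 : ¬ (D.good ((D.conf (pre ++ w) T).2 D.k1)[0]? = true ∧
        ((D.conf (pre ++ w) T).2 D.k1)[1]? = none) := fun h => hn h.2
      rw [if_pos hg, if_neg hn, if_neg h5]; norm_num
  · have h5 : ¬ (D.good ((D.conf (pre ++ w) T).2 D.k1)[0]? = true ∧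
        ((D.conf (pre ++ w) T).2 D.k1)[1]? = none) := fun h => hg h.1
    rw [if_neg hg, if_neg h5]
    split_ifs <;> norm_num

end Pool.Agent.H424R2.SG
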