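import Pool.Agent.H424R2.SG.Mach

/-!
# Names, stages and references of the gates of a copy of the machine (task MACHB, helper584)
-/

namespace Pool.Agent.H424R2.SG

open Pool.Agent.NPC Pool.Agent.NPC.Cnt

variable {K C A : Type} [DecidableEq K] [DecidableEq C] [DecidableEq A] [Fintype K] [Fintype C]
  [Fintype A] {D : Tab K C A}

namespace MachB

/-- the names which may be used at stage `τ` -/
def P (D : Tab K C A) (tg : List ℕ) (b : ℕ) (pre : List Bool) (ws : List Form) (N T τ : ℕ)
    (n : Name) : Prop :=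
  (∃ g' ∈ mach D tg b pre ws N T, g'.1 = n ∧ g'.2.1 < τ) ∨ ∃ f ∈ ws, ∃ t ∈ f.1, t.2 = n

section

variable {tg : List ℕ} {b : ℕ} {pre : List Bool} {ws : List Form} {N T : ℕ}

theorem mem_gA {t : ℕ} {c : C} {o : Option A} (ht : t < T) (hc : c ∈ D.cs) (ho : o ∈ D.os) :
    gA D tg b pre ws N t c o ∈ mach D tg b pre ws N T := by
  unfold mach
  apply List.mem_append_left
  rw [List.mem_flatMap]
  refine ⟨t, List.mem_range.2 ht, ?_⟩
  rw [List.mem_flatMap]
  refine ⟨c, hc, ?_⟩
  rw [List.mem_flatMap]
  exact ⟨o, ho, List.mem_cons_self⟩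

theorem mem_gB {t i : ℕ} {c : C} {o o' : Option A} {k : K} (ht : t < T) (hc : c ∈ D.cs)
    (ho : o ∈ D.os) (hk : k ∈ D.ks) (hi : i < N) (ho' : o' ∈ D.os) :
    gB D tg b pre ws N t c o k i o' ∈ mach D tg b pre ws N T := by
  unfold mach
  apply List.mem_append_left
  rw [List.mem_flatMap]
  refine ⟨t, List.mem_range.2 ht, ?_⟩
  rw [List.mem_flatMap]
  refine ⟨c, hc, ?_⟩
  rw [List.mem_flatMap]
  refine ⟨o, ho, List.mem_cons_of_mem _ ?_⟩
  rw [List.mem_flatMap]
  refine ⟨k, hk, ?_⟩
  rw [List.mem_flatMap]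
  refine ⟨i, List.mem_range.2 hi, ?_⟩
  rw [List.mem_map]
  exact ⟨o', ho', rfl⟩

/-- the cases of membership -/
theorem mem_cases {g : Gate} (hg : g ∈ mach D tg b pre ws N T) :
    (∃ t c o, t < T ∧ c ∈ D.cs ∧ o ∈ D.os ∧ g = gA D tg b pre ws N t c o) ∨
    (∃ t c o k i o', t < T ∧ c ∈ D.cs ∧ o ∈ D.os ∧ k ∈ D.ks ∧ i < N ∧ o' ∈ D.os ∧
      g = gB D tg b pre ws N t c o k i o') ∨
    g = (tg ++ [2], b + 2 * T, fAcc D tg pre ws N T) ∨
    g = (nRej tg, b + 2 * T + 1, fadd (cst 1) (fsmul (-1) (vr (tg ++ [2])))) := by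
  unfold mach at hg
  rcases List.mem_append.1 hg with hg | hg
  · rw [List.mem_flatMap] at hg
    obtain ⟨t, ht, hg⟩ := hg
    rw [List.mem_flatMap] at hg
    obtain ⟨c, hc, hg⟩ := hg
    rw [List.mem_flatMap] at hg
    obtain ⟨o, ho, hg⟩ := hg
    rcases List.mem_cons.1 hg with hg | hg
    · exact Or.inl ⟨t, c, o, List.mem_range.1 ht, hc, ho, hg⟩
    · rw [List.mem_flatMap] at hg
      obtain ⟨k, hk, hg⟩ := hg
      rw [List.mem_flatMap] at hg
      obtain ⟨i, hi, hg⟩ := hg
      rw [List.mem_map] at hg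
      obtain ⟨o', ho', hg⟩ := hg
      exact Or.inr (Or.inl ⟨t, c, o, k, i, o', List.mem_range.1 ht, hc, ho, hk,
        List.mem_range.1 hi, ho', hg.symm⟩)
  · rcases List.mem_cons.1 hg with hg | hg
    · exact Or.inr (Or.inr (Or.inl hg))
    · exact Or.inr (Or.inr (Or.inr (List.mem_singleton.1 hg)))

theorem P_gA {t τ : ℕ} {c : C} {o : Option A} (ht : t < T) (hc : c ∈ D.cs) (ho : o ∈ D.os)
    (hτ : b + 2 * t < τ) : P D tg b pre ws N T τ (nA tg t c o) :=
  Or.inl ⟨_, mem_gA (b := b) ht hc ho, rfl, hτ⟩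

theorem P_gB {t i τ : ℕ} {c : C} {o o' : Option A} {k : K} (ht : t < T) (hc : c ∈ D.cs)
    (ho : o ∈ D.os) (hk : k ∈ D.ks) (hi : i < N) (ho' : o' ∈ D.os) (hτ : b + 2 * t + 1 < τ) :
    P D tg b pre ws N T τ (nB tg t c o k i o') :=
  Or.inl ⟨_, mem_gB (b := b) ht hc ho hk hi ho', rfl, hτ⟩

theorem FIn_ind {Q : Name → Prop} (p : Prop) [Decidable p] : FIn Q (ind p) := FIn.cst _

theorem FIn_ws {τ j : ℕ} : FIn (P D tg b pre ws N T τ) (ws.getD j (cst 0)) := by
  intro t ht
  rw [List.getD_eq_getElem?_getD] at ht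
  cases h : ws[j]? with
  | none =>
    rw [h] at ht
    simp [SG.cst] at ht
  | some f =>
    rw [h] at ht
    exact Or.inr ⟨f, List.mem_of_getElem? h, t, ht, rfl⟩

theorem FIn_fX0 {τ i : ℕ} {k : K} {o : Option A} :
    FIn (P D tg b pre ws N T τ) (fX0 D pre ws k i o) := by
  unfold fX0
  split_ifs
  · exact FIn_ind _
  · exact FIn_ws
  · exact FIn.fadd (FIn.cst _) (FIn.fsmul _ FIn_ws)
  · exact FIn.cst _
  · exact FIn_ind _
  · exact FIn_ind _

theorem FIn_fC {τ t : ℕ} {c : C} (ht : t ≤ T) (hτ : b + 2 * t ≤ τ) :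
    FIn (P D tg b pre ws N T τ) (fC D tg t c) := by
  unfold fC
  by_cases h0 : t = 0
  · rw [if_pos h0]
    exact FIn_ind _
  · rw [if_neg h0]
    apply FIn.fsum
    intro f hf
    rw [List.mem_flatMap] at hf
    obtain ⟨c', hc', hf⟩ := hf
    rw [List.mem_map] at hf
    obtain ⟨o', ho', rfl⟩ := hf
    split_ifs
    · exact FIn.vr (P_gA (by omega) hc' ho' (by omega))
    · exact FIn.cst _

theorem FIn_fX {τ t i : ℕ} {k : K} {o : Option A} (ht : t ≤ T) (hτ : b + 2 * t ≤ τ)
    (hk : k ∈ D.ks) (ho : o ∈ D.os) : FIn (P D tg b pre ws N T τ) (fX D tg pre ws N t k i o) := by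
  unfold fX
  by_cases hi : N ≤ i
  · rw [if_pos hi]
    exact FIn_ind _
  rw [if_neg hi]
  by_cases h0 : t = 0
  · rw [if_pos h0]
    exact FIn_fX0
  · rw [if_neg h0]
    apply FIn.fsum
    intro f hf
    rw [List.mem_flatMap] at hf
    obtain ⟨c', hc', hf⟩ := hf
    rw [List.mem_map] at hf
    obtain ⟨o', ho', rfl⟩ := hf
    cases D.M.src c' o' k i with
    | inl j => exact FIn.vr (P_gB (by omega) hc' ho' hk (by omega) ho (by omega))
    | inr a =>
      dsimp only
      split_ifs
      · exact FIn.vr (P_gA (by omega) hc' ho' (by omega))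
      · exact FIn.cst _

end

/-- entry number `j` of the name after the tag -/
def key (tg : List ℕ) (j : ℕ) (n : Name) : ℕ := (n.drop tg.length).getD j 0

theorem key_app (tg l : List ℕ) (j : ℕ) : key tg j (tg ++ l) = l.getD j 0 := by
  unfold key
  rw [List.drop_left]

theorem nodup_fm {α β : Type} {l : List α} {f : α → List β} (key : β → ℕ) (val : α → ℕ)
    (hl : l.Nodup) (hv : ∀ x ∈ l, ∀ y ∈ l, val x = val y → x = y)
    (hf : ∀ x ∈ l, (f x).Nodup) (hk : ∀ x ∈ l, ∀ b ∈ f x, key b = val x) :
    (l.flatMap f).Nodup := by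
  rw [List.nodup_flatMap]
  refine ⟨hf, ?_⟩
  apply List.Nodup.pairwise_of_forall_ne hl
  intro x hx y hy hne b hb hb'
  exact hne (hv x hx y hy ((hk x hx b hb).symm.trans (hk y hy b hb')))

/-- the list of the names -/
noncomputable def names (D : Tab K C A) (tg : List ℕ) (N T : ℕ) : List Name :=
  ((List.range T).flatMap fun t => D.cs.flatMap fun c => D.os.flatMap fun o =>
    nA tg t c o :: (D.ks.flatMap fun k => (List.range N).flatMap fun i =>
      D.os.map fun o' => nB tg t c o k i o')) ++ [tg ++ [2], nRej tg]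

theorem map_mach (tg : List ℕ) (b : ℕ) (pre : List Bool) (ws : List Form) (N T : ℕ) :
    (mach D tg b pre ws N T).map (fun g => g.1) = names D tg N T := by
  unfold mach names
  simp only [List.map_append, List.map_flatMap, List.map_cons, List.map_nil, List.map_map]
  rfl

theorem nodup_os (has : D.as.Nodup) : D.os.Nodup := by
  unfold Tab.os
  rw [List.nodup_cons]
  refine ⟨?_, has.map (Option.some_injective _)⟩
  intro h
  rw [List.mem_map] at h
  obtain ⟨a, _, h⟩ := h
  exact absurd h (by simp)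

theorem nodup_names (hcs : D.cs.Nodup) (has : D.as.Nodup) (hks : D.ks.Nodup) (tg : List ℕ)
    (N T : ℕ) : (names D tg N T).Nodup := by
  have hos := nodup_os has
  unfold names
  rw [List.nodup_append]
  refine ⟨?_, ?_, ?_⟩
  · refine nodup_fm (key tg 1) id List.nodup_range (fun x _ y _ h => h) ?_ ?_
    · intro t _
      refine nodup_fm (key tg 2) (fun c => ix c) hcs (fun x _ y _ h => ix_inj h) ?_ ?_
      · intro c _
        refine nodup_fm (key tg 3) (fun o => ix o) hos (fun x _ y _ h => ix_inj h) ?_ ?_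
        · intro o _
          rw [List.nodup_cons]
          constructor
          · intro h
            rw [List.mem_flatMap] at h
            obtain ⟨k, _, h⟩ := h
            rw [List.mem_flatMap] at h
            obtain ⟨i, _, h⟩ := h
            rw [List.mem_map] at h
            obtain ⟨o', _, h⟩ := h
            have h1 := congrArg (key tg 0) h
            unfold nA nB at h1
            rw [key_app, key_app] at h1
            simp at h1
          · refine nodup_fm (key tg 4) (fun k => ix k) hks (fun x _ y _ h => ix_inj h) ?_ ?_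
            · intro k _
              refine nodup_fm (key tg 5) id List.nodup_range (fun x _ y _ h => h) ?_ ?_
              · intro i _
                refine hos.map_on ?_
                intro x _ y _ h
                have h1 := congrArg (key tg 6) h
                unfold nB at h1
                rw [key_app, key_app] at h1
                exact ix_inj (by simpa using h1)
              · intro i _ n hn
                rw [List.mem_map] at hn
                obtain ⟨o', _, rfl⟩ := hn
                unfold nB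
                rw [key_app]
                rfl
            · intro k _ n hn
              rw [List.mem_flatMap] at hn
              obtain ⟨i, _, hn⟩ := hn
              rw [List.mem_map] at hn
              obtain ⟨o', _, rfl⟩ := hn
              unfold nB
              rw [key_app]
              rfl
        · intro o _ n hn
          rcases List.mem_cons.1 hn with rfl | hn
          · unfold nA
            rw [key_app]
            rfl
          · rw [List.mem_flatMap] at hn
            obtain ⟨k, _, hn⟩ := hn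
            rw [List.mem_flatMap] at hn
            obtain ⟨i, _, hn⟩ := hn
            rw [List.mem_map] at hn
            obtain ⟨o', _, rfl⟩ := hn
            unfold nB
            rw [key_app]
            rfl
      · intro c _ n hn
        rw [List.mem_flatMap] at hn
        obtain ⟨o, _, hn⟩ := hn
        rcases List.mem_cons.1 hn with rfl | hn
        · unfold nA
          rw [key_app]
          rfl
        · rw [List.mem_flatMap] at hn
          obtain ⟨k, _, hn⟩ := hn
          rw [List.mem_flatMap] at hn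
          obtain ⟨i, _, hn⟩ := hn
          rw [List.mem_map] at hn
          obtain ⟨o', _, rfl⟩ := hn
          unfold nB
          rw [key_app]
          rfl
    · intro t _ n hn
      rw [List.mem_flatMap] at hn
      obtain ⟨c, _, hn⟩ := hn
      rw [List.mem_flatMap] at hn
      obtain ⟨o, _, hn⟩ := hn
      rcases List.mem_cons.1 hn with rfl | hn
      · unfold nA
        rw [key_app]
        rfl
      · rw [List.mem_flatMap] at hn
        obtain ⟨k, _, hn⟩ := hn
        rw [List.mem_flatMap] at hn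
        obtain ⟨i, _, hn⟩ := hn
        rw [List.mem_map] at hn
        obtain ⟨o', _, rfl⟩ := hn
        unfold nB
        rw [key_app]
        rfl
  · unfold nRej
    rw [List.nodup_cons]
    refine ⟨?_, List.nodup_singleton _⟩
    rw [List.mem_singleton]
    intro h
    have h1 := congrArg (key tg 0) h
    rw [key_app, key_app] at h1
    simp at h1
  · intro n hn n' hn' e
    subst e
    have h1 : key tg 0 n < 2 := by
      rw [List.mem_flatMap] at hn
      obtain ⟨t, _, hn⟩ := hn
      rw [List.mem_flatMap] at hn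
      obtain ⟨c, _, hn⟩ := hn
      rw [List.mem_flatMap] at hn
      obtain ⟨o, _, hn⟩ := hn
      rcases List.mem_cons.1 hn with rfl | hn
      · unfold nA
        rw [key_app]
        simp
      · rw [List.mem_flatMap] at hn
        obtain ⟨k, _, hn⟩ := hn
        rw [List.mem_flatMap] at hn
        obtain ⟨i, _, hn⟩ := hn
        rw [List.mem_map] at hn
        obtain ⟨o', _, rfl⟩ := hn
        unfold nB
        rw [key_app]
        simp
    rcases List.mem_cons.1 hn' with rfl | hn'
    · rw [key_app] at h1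
      simp at h1
    · rw [List.mem_singleton.1 hn'] at h1
      unfold nRej at h1
      rw [key_app] at h1
      simp at h1

end MachB

/-- the gates only refer to earlier gates of the copy and to the variables of the inputs -/
theorem mach_in (hD : D.Ok) {tg : List ℕ} {b : ℕ} {pre : List Bool} {ws : List Form} {N T : ℕ}
    {g : Gate} (hg : g ∈ mach D tg b pre ws N T) :
    FIn (fun n => (∃ g' ∈ mach D tg b pre ws N T, g'.1 = n ∧ g'.2.1 < g.2.1) ∨
      ∃ f ∈ ws, ∃ t ∈ f.1, t.2 = n) g.2.2 := by
  have hnone : (none : Option A) ∈ D.os := by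
    unfold Tab.os
    exact List.mem_cons_self
  change FIn (MachB.P D tg b pre ws N T g.2.1) g.2.2
  rcases MachB.mem_cases hg with ⟨t, c, o, ht, hc, ho, rfl⟩ |
    ⟨t, c, o, k, i, o', ht, hc, ho, hk, hi, ho', rfl⟩ | rfl | rfl
  · exact FIn.fadd (FIn.fadd (MachB.FIn_fC ht.le le_rfl)
      (MachB.FIn_fX ht.le le_rfl (hD.stk c hc) ho)) (FIn.cst _)
  · unfold gB
    dsimp only
    cases D.M.src c o k i with
    | inl j =>
      exact FIn.fadd (FIn.fadd (FIn.vr (MachB.P_gA ht hc ho (Nat.lt_succ_self _)))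
        (MachB.FIn_fX ht.le (Nat.le_succ _) hk ho')) (FIn.cst _)
    | inr a => exact FIn.cst _
  · refine FIn.fadd (FIn.fadd (FIn.fsum ?_) (MachB.FIn_fX le_rfl le_rfl hD.k1 hnone)) (FIn.cst _)
    intro f hf
    rw [List.mem_map] at hf
    obtain ⟨o, ho, rfl⟩ := hf
    exact MachB.FIn_fX le_rfl le_rfl hD.k1 (List.mem_filter.1 ho).1
  · refine FIn.fadd (FIn.cst _) (FIn.fsmul _ (FIn.vr (Or.inl ⟨(tg ++ [2], b + 2 * T,
      fAcc D tg pre ws N T), ?_, rfl, Nat.lt_succ_self _⟩)))
    unfold mach
    exact List.mem_append_right _ List.mem_cons_self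

theorem mach_stage {tg : List ℕ} {b : ℕ} {pre : List Bool} {ws : List Form} {N T : ℕ}
    {g : Gate} (hg : g ∈ mach D tg b pre ws N T) : b ≤ g.2.1 ∧ g.2.1 ≤ b + 2 * T + 1 := by
  rcases MachB.mem_cases hg with ⟨t, c, o, ht, hc, ho, rfl⟩ |
    ⟨t, c, o, k, i, o', ht, hc, ho, hk, hi, ho', rfl⟩ | rfl | rfl
  · change b ≤ b + 2 * t ∧ b + 2 * t ≤ b + 2 * T + 1
    omega
  · change b ≤ b + 2 * t + 1 ∧ b + 2 * t + 1 ≤ b + 2 * T + 1
    omega
  · change b ≤ b + 2 * T ∧ b + 2 * T ≤ b + 2 * T + 1
    omega
  · change b ≤ b + 2 * T + 1 ∧ b + 2 * T + 1 ≤ b + 2 * T + 1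
    omega

/-- all names start with the tag, and they are distinct -/
theorem mach_tag {tg : List ℕ} {b : ℕ} {pre : List Bool} {ws : List Form} {N T : ℕ}
    {g : Gate} (hg : g ∈ mach D tg b pre ws N T) : ∃ l, g.1 = tg ++ l := by
  rcases MachB.mem_cases hg with ⟨t, c, o, ht, hc, ho, rfl⟩ |
    ⟨t, c, o, k, i, o', ht, hc, ho, hk, hi, ho', rfl⟩ | rfl | rfl
  · exact ⟨_, rfl⟩
  · exact ⟨_, rfl⟩
  · exact ⟨_, rfl⟩
  · exact ⟨_, rfl⟩

theorem mach_nodup (hcs : D.cs.Nodup) (has : D.as.Nodup) (hks : D.ks.Nodup) {tg : List ℕ}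
    {b : ℕ} {pre : List Bool} {ws : List Form} {N T : ℕ} :
    ((mach D tg b pre ws N T).map fun g => g.1).Nodup := by
  rw [MachB.map_mach]
  exact MachB.nodup_names hcs has hks tg N T

end Pool.Agent.H424R2.SG
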