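import Pool.Agent.H424R2.SG.Col
import Pool.Agent.H424R2.SG.Form
import Pool.Agent.NPC.Dec
import Pool.Agent.NPC.CookLevin3

namespace Pool.Agent.H424R2.SG

open Pool.Agent.NPC Pool.Agent.H424R2.PPAD

/-- the prefixes of the inputs -/
def preI (I : Circ × Circ) (c : ℕ) : List Bool := CL.pairPre (bits (I, c))

/-- total length -/
def lenI (I : Circ × Circ) : ℕ :=
  (preI I 0).length + (preI I 1).length + (preI I 2).length + 2 * bitsI I

theorem MainA_valB (l : List Bool) : ∀ x : ℕ, x < 2 ^ l.length →
    (∀ i < l.length, l.getD i false = x.testBit i) → valB l = x := by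
  induction l with
  | nil => intro x hx _; simp at hx; simp [hx]
  | cons b l ih =>
    intro x hx h
    have h0 := h 0 (by simp)
    have h1 : valB l = x / 2 := by
      apply ih
      · rw [List.length_cons, pow_succ] at hx
        omega
      · intro i hi
        have := h (i + 1) (by simpa using hi)
        rw [Nat.testBit_succ] at this
        simpa using this
    rw [valB_cons, h1]
    rw [Nat.testBit_zero] at h0
    simp only [List.getD_cons_zero] at h0
    rw [h0]
    by_cases h2 : x % 2 = 1
    · simp [h2]; omega
    · simp [h2]; omega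

theorem valB_take {m x : ℕ} (hx : x < 2 ^ m) {w : List Bool} (hw : w.length = 2 * m)
    (h : ∀ i < m, w.getD i false = x.testBit i) : valB (w.take m) = x := by
  have hl : (w.take m).length = m := by rw [List.length_take]; omega
  apply MainA_valB
  · rwa [hl]
  · intro i hi
    rw [hl] at hi
    rw [← h i hi, List.getD_eq_getElem?_getD, List.getD_eq_getElem?_getD,
      List.getElem?_take_of_lt hi]

theorem valB_drop {m y : ℕ} (hy : y < 2 ^ m) {w : List Bool} (hw : w.length = 2 * m)
    (h : ∀ i < m, w.getD (m + i) false = y.testBit i) : valB (w.drop m) = y := by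
  have hl : (w.drop m).length = m := by rw [List.length_drop]; omega
  apply MainA_valB
  · rwa [hl]
  · intro i hi
    rw [hl] at hi
    rw [← h i hi, List.getD_eq_getElem?_getD, List.getD_eq_getElem?_getD, List.getElem?_drop]

theorem poly_preI : NPC.Poly fun q : (Circ × Circ) × ℕ => preI q.1 q.2 := by
  unfold preI
  have h1 : NPC.Poly fun q : (Circ × Circ) × ℕ => bits (q.1, q.2) :=
    PC.comp (g := fun x : List Bool => x) (f := fun q : (Circ × Circ) × ℕ => bits (q.1, q.2))
      PC.rawIn (NPC.Poly.id (α := (Circ × Circ) × ℕ))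
  exact CL.pPre h1

theorem upoly_lenI : UPoly lenI := by
  have h1 : ∀ c, UPoly fun I => (preI I c).length := fun c =>
    UPoly.length (poly_preI.comp (f := fun I : Circ × Circ => (I, c))
      (NPC.Poly.pair NPC.Poly.id (NPC.Poly.const c)))
  have h2 : UPoly bitsI :=
    UPoly.add (UPoly.length (NPC.Poly.snd (NPC.Poly.fst NPC.Poly.id))) (UPoly.const 6)
  exact UPoly.add (UPoly.add (UPoly.add (h1 0) (h1 1)) (h1 2)) (UPoly.mul (UPoly.const 2) h2)

end Pool.Agent.H424R2.SG
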