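import Pool.Agent.H424R2.SG.Net
import Pool.Agent.H424R2.SG.MachB

namespace Pool.Agent.H424R2.SG

open Pool.Agent.NPC Pool.Agent.NPC.Cnt

theorem NetA_nodup_flatMap {α β : Type} {l : List α} (hl : l.Nodup) (f : α → List β)
    (tag : β → α) (h1 : ∀ a ∈ l, (f a).Nodup) (h2 : ∀ a ∈ l, ∀ b ∈ f a, tag b = a) :
    (l.flatMap f).Nodup := by
  rw [List.nodup_flatMap]
  refine ⟨h1, ?_⟩
  refine List.Pairwise.imp_of_mem ?_ hl
  intro a a' ha ha' hne b hb hb'
  exact hne ((h2 a ha b hb).symm.trans (h2 a' ha' b hb'))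

theorem NetA_mem_bits {m : ℕ} {g : Gate} : g ∈ netBits m ↔ ∃ k < 16, ∃ e < 2, ∃ i < m,
    g = (nBit k e i 0, m - i, fZ m k e i) ∨
    g = (nBit k e i 1, m - i, fadd (fZ m k e i) (cst (-1))) := by
  unfold netBits
  simp only [List.mem_flatMap, List.mem_range, List.mem_cons, List.not_mem_nil, or_false]

theorem NetA_bit_mem {m k e i r : ℕ} (hk : k < 16) (he : e < 2) (hi : i < m) (hr : r < 2) :
    ∃ g ∈ netBits m, g.1 = nBit k e i r ∧ g.2.1 = m - i := by
  have h : r = 0 ∨ r = 1 := by omega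
  rcases h with rfl | rfl
  · exact ⟨_, NetA_mem_bits.2 ⟨k, hk, e, he, i, hi, Or.inl rfl⟩, rfl, rfl⟩
  · exact ⟨_, NetA_mem_bits.2 ⟨k, hk, e, he, i, hi, Or.inr rfl⟩, rfl, rfl⟩

theorem NetA_bits_names {m : ℕ} : (netBits m).map (fun g => g.1) =
    (List.range 16).flatMap fun k => (List.range 2).flatMap fun e => (List.range m).flatMap fun i =>
      [nBit k e i 0, nBit k e i 1] := by
  unfold netBits
  simp only [List.map_flatMap, List.map_cons, List.map_nil]

theorem NetA_bits_nodup {m : ℕ} : ((netBits m).map fun g => g.1).Nodup := by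
  rw [NetA_bits_names]
  refine NetA_nodup_flatMap List.nodup_range _ (fun n => n.getD 1 0) ?_ ?_
  · intro k _
    refine NetA_nodup_flatMap List.nodup_range _ (fun n => n.getD 2 0) ?_ ?_
    · intro e _
      refine NetA_nodup_flatMap List.nodup_range _ (fun n => n.getD 3 0) ?_ ?_
      · intro i _
        simp [nBit]
      · intro i _ n hn
        simp only [List.mem_cons, List.not_mem_nil, or_false] at hn
        rcases hn with rfl | rfl <;> rfl
    · intro e _ n hn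
      simp only [List.mem_flatMap, List.mem_cons, List.not_mem_nil, or_false] at hn
      obtain ⟨i, -, hn⟩ := hn
      rcases hn with rfl | rfl <;> rfl
  · intro k _ n hn
    simp only [List.mem_flatMap, List.mem_cons, List.not_mem_nil, or_false] at hn
    obtain ⟨e, -, i, -, hn⟩ := hn
    rcases hn with rfl | rfl <;> rfl

section

variable {K C A : Type} [DecidableEq K] [DecidableEq C] [DecidableEq A] [Fintype K] [Fintype C]
  [Fintype A] {D : Tab K C A}

theorem NetA_mem_mach {m : ℕ} {pre : ℕ → List Bool} {N T : ℕ} {g : Gate} :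
    g ∈ netMach D m pre N T ↔ ∃ k < 16, ∃ c < 3,
      g ∈ mach D (tgM k c) (m + 1) (pre c) (wsOf m k) N T := by
  unfold netMach
  simp only [List.mem_flatMap, List.mem_range]

theorem NetA_mach_nodup (hcs : D.cs.Nodup) (has : D.as.Nodup) (hks : D.ks.Nodup) {m : ℕ}
    {pre : ℕ → List Bool} {N T : ℕ} : ((netMach D m pre N T).map fun g => g.1).Nodup := by
  unfold netMach
  simp only [List.map_flatMap]
  refine NetA_nodup_flatMap List.nodup_range _ (fun n => n.getD 1 0) ?_ ?_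
  · intro k _
    refine NetA_nodup_flatMap List.nodup_range _ (fun n => n.getD 2 0) ?_ ?_
    · intro c _
      exact mach_nodup hcs has hks
    · intro c _ n hn
      obtain ⟨g, hg, rfl⟩ := List.mem_map.1 hn
      obtain ⟨l, hl⟩ := mach_tag hg
      rw [hl]
      rfl
  · intro k _ n hn
    simp only [List.mem_flatMap] at hn
    obtain ⟨c, -, hn⟩ := hn
    obtain ⟨g, hg, rfl⟩ := List.mem_map.1 hn
    obtain ⟨l, hl⟩ := mach_tag hg
    rw [hl]
    rfl

theorem NetA_fin_names {m T : ℕ} : (netFin m T).map (fun g => g.1) =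
    [[3, 0, 0], [3, 0, 1], [4, 0], [3, 1, 0], [3, 1, 1], [4, 1]] := by
  rfl

theorem NetA_mem_fin {m T : ℕ} {g : Gate} : g ∈ netFin m T ↔ ∃ e < 2,
    g = (nY e 0, m + 3 + 2 * T, fY e) ∨
    g = (nY e 1, m + 3 + 2 * T, fadd (fY e) (cst (-(2 ^ m - 2)))) ∨
    g = (nOut e, netStage m T, fadd (vr (nY e 0)) (fsmul (-1) (vr (nY e 1)))) := by
  unfold netFin
  simp only [List.mem_flatMap, List.mem_range, List.mem_cons, List.not_mem_nil, or_false]

theorem NetA_mem {m : ℕ} {pre : ℕ → List Bool} {N T : ℕ} {g : Gate} :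
    g ∈ net D m pre N T ↔ g = (nIn 0, 0, cst 0) ∨ g = (nIn 1, 0, cst 0) ∨ g ∈ netBits m ∨
      g ∈ netMach D m pre N T ∨ g ∈ netFin m T := by
  unfold net
  simp only [List.mem_append, List.mem_cons, List.not_mem_nil, or_false]
  tauto

theorem NetA_hd_bits {m : ℕ} {g : Gate} (h : g ∈ netBits m) : g.1.getD 0 0 = 1 := by
  obtain ⟨k, -, e, -, i, -, h⟩ := NetA_mem_bits.1 h
  rcases h with rfl | rfl <;> rfl

theorem NetA_hd_mach {m : ℕ} {pre : ℕ → List Bool} {N T : ℕ} {g : Gate}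
    (h : g ∈ netMach D m pre N T) : g.1.getD 0 0 = 2 := by
  obtain ⟨k, -, c, -, h⟩ := NetA_mem_mach.1 h
  obtain ⟨l, hl⟩ := mach_tag h
  rw [hl]
  rfl

theorem NetA_hd_fin {m T : ℕ} {g : Gate} (h : g ∈ netFin m T) : 3 ≤ g.1.getD 0 0 := by
  obtain ⟨e, -, h⟩ := NetA_mem_fin.1 h
  rcases h with rfl | rfl | rfl
  · exact le_refl 3
  · exact le_refl 3
  · exact Nat.le_succ 3

theorem net_nodup (hcs : D.cs.Nodup) (has : D.as.Nodup) (hks : D.ks.Nodup) {m : ℕ}
    {pre : ℕ → List Bool} {N T : ℕ} : ((net D m pre N T).map fun g => g.1).Nodup := by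
  unfold net
  simp only [List.map_append, List.map_cons, List.map_nil]
  rw [List.nodup_append, List.nodup_append, List.nodup_append]
  refine ⟨⟨⟨by simp [nIn], NetA_bits_nodup, ?_⟩, NetA_mach_nodup hcs has hks, ?_⟩, ?_, ?_⟩
  · intro a ha b hb hab
    subst hab
    obtain ⟨g, hg, rfl⟩ := List.mem_map.1 hb
    have h1 := NetA_hd_bits hg
    simp only [List.mem_cons, List.not_mem_nil, or_false] at ha
    rcases ha with ha | ha <;> rw [ha] at h1 <;> simp [nIn] at h1
  · intro a ha b hb hab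
    subst hab
    obtain ⟨g, hg, rfl⟩ := List.mem_map.1 hb
    have h1 := NetA_hd_mach hg
    rcases List.mem_append.1 ha with ha | ha
    · simp only [List.mem_cons, List.not_mem_nil, or_false] at ha
      rcases ha with ha | ha <;> rw [ha] at h1 <;> simp [nIn] at h1
    · obtain ⟨g', hg', e⟩ := List.mem_map.1 ha
      have h2 := NetA_hd_bits hg'
      rw [e, h1] at h2
      omega
  · rw [NetA_fin_names]
    decide
  · intro a ha b hb hab
    subst hab
    obtain ⟨g, hg, rfl⟩ := List.mem_map.1 hb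
    have h1 := NetA_hd_fin hg
    rcases List.mem_append.1 ha with ha | ha
    · rcases List.mem_append.1 ha with ha | ha
      · simp only [List.mem_cons, List.not_mem_nil, or_false] at ha
        rcases ha with ha | ha <;> rw [ha] at h1 <;> simp [nIn] at h1
      · obtain ⟨g', hg', e⟩ := List.mem_map.1 ha
        have h2 := NetA_hd_bits hg'
        rw [e] at h2
        omega
    · obtain ⟨g', hg', e⟩ := List.mem_map.1 ha
      have h2 := NetA_hd_mach hg'
      rw [e] at h2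
      omega

theorem NetA_in_mem {m : ℕ} {pre : ℕ → List Bool} {N T : ℕ} {e : ℕ} (he : e < 2) :
    ∃ g ∈ net D m pre N T, g.1 = nIn e ∧ g.2.1 = 0 := by
  have h : e = 0 ∨ e = 1 := by omega
  rcases h with rfl | rfl
  · exact ⟨_, NetA_mem.2 (Or.inl rfl), rfl, rfl⟩
  · exact ⟨_, NetA_mem.2 (Or.inr (Or.inl rfl)), rfl, rfl⟩

theorem NetA_FIn_fBit {P : Name → Prop} {k e i : ℕ} (h : ∀ r < 2, P (nBit k e i r)) :
    FIn P (fBit k e i) := by
  unfold fBit
  exact FIn.fadd (FIn.vr (h 0 (by omega))) (FIn.fsmul _ (FIn.vr (h 1 (by omega))))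

theorem NetA_FIn_fZ {P : Name → Prop} {m k e i : ℕ} (h0 : P (nIn e))
    (h : ∀ i', i < i' → i' < m → ∀ r < 2, P (nBit k e i' r)) :
    FIn P (fZ m k e i) := by
  unfold fZ
  refine FIn.fadd (FIn.fadd (FIn.fsmul _ (FIn.vr h0)) (FIn.cst _)) (FIn.fsum ?_)
  intro f hf
  obtain ⟨i', hi', rfl⟩ := List.mem_map.1 hf
  rw [List.mem_filter, List.mem_range, decide_eq_true_eq] at hi'
  exact FIn.fsmul _ (NetA_FIn_fBit (h i' hi'.2 hi'.1))

theorem NetA_FIn_fY {P : Name → Prop} {e : ℕ} (he : e < 2) (h0 : P (nIn e))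
    (h : ∀ k < 16, ∀ c < 3, P (nRej (tgM k c))) : FIn P (fY e) := by
  unfold fY
  refine FIn.fadd (FIn.vr h0) (FIn.fsum ?_)
  intro f hf
  obtain ⟨k, hk, rfl⟩ := List.mem_map.1 hf
  have hk' := List.mem_range.1 hk
  exact FIn.fadd (FIn.vr (h k hk' 0 (by omega))) (FIn.fsmul _ (FIn.vr (h k hk' (e + 1) (by omega))))

theorem NetA_rej_mem {m : ℕ} {pre : ℕ → List Bool} {N T : ℕ} {k c : ℕ} (hk : k < 16) (hc : c < 3) :
    ∃ g ∈ net D m pre N T, g.1 = nRej (tgM k c) ∧ g.2.1 = m + 1 + 2 * T + 1 := by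
  refine ⟨(nRej (tgM k c), m + 1 + 2 * T + 1, fadd (cst 1) (fsmul (-1) (vr (tgM k c ++ [2])))),
    NetA_mem.2 (Or.inr (Or.inr (Or.inr (Or.inl (NetA_mem_mach.2 ⟨k, hk, c, hc, ?_⟩))))), rfl, rfl⟩
  unfold mach
  refine List.mem_append_right _ ?_
  simp

theorem net_in (hD : D.Ok) {m : ℕ} {pre : ℕ → List Bool} {N T : ℕ}
    {g : Gate} (hg : g ∈ net D m pre N T) :
    FIn (fun n => ∃ g' ∈ net D m pre N T, g'.1 = n ∧ g'.2.1 < g.2.1) g.2.2 := by
  have hbit : ∀ {k e i r : ℕ}, k < 16 → e < 2 → i < m → r < 2 → ∀ s, m - i < s →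
      ∃ g' ∈ net D m pre N T, g'.1 = nBit k e i r ∧ g'.2.1 < s := by
    intro k e i r hk he hi hr s hs
    obtain ⟨g', h1, h2, h3⟩ := NetA_bit_mem hk he hi hr
    exact ⟨g', NetA_mem.2 (Or.inr (Or.inr (Or.inl h1))), h2, by omega⟩
  have hinn : ∀ {e : ℕ}, e < 2 → ∀ s, 0 < s →
      ∃ g' ∈ net D m pre N T, g'.1 = nIn e ∧ g'.2.1 < s := by
    intro e he s hs
    obtain ⟨g', h1, h2, h3⟩ := NetA_in_mem (D := D) (m := m) (pre := pre) (N := N) (T := T) he
    exact ⟨g', h1, h2, by omega⟩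
  rcases NetA_mem.1 hg with rfl | rfl | hg' | hg' | hg'
  · exact FIn.cst _
  · exact FIn.cst _
  · obtain ⟨k, hk, e, he, i, hi, h⟩ := NetA_mem_bits.1 hg'
    have hf : FIn (fun n => ∃ g' ∈ net D m pre N T, g'.1 = n ∧ g'.2.1 < m - i) (fZ m k e i) :=
      NetA_FIn_fZ (hinn he _ (by omega)) (fun i' h1 h2 r hr => hbit hk he h2 hr _ (by omega))
    rcases h with rfl | rfl
    · exact hf
    · exact FIn.fadd hf (FIn.cst _)
  · obtain ⟨k, hk, c, hc, h⟩ := NetA_mem_mach.1 hg'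
    have hst := (mach_stage h).1
    refine (mach_in hD h).mono ?_
    rintro n (⟨g', h1, h2, h3⟩ | ⟨f, hf, t, ht, htn⟩)
    · exact ⟨g', NetA_mem.2 (Or.inr (Or.inr (Or.inr (Or.inl (NetA_mem_mach.2
        ⟨k, hk, c, hc, h1⟩))))), h2, h3⟩
    · have key : ∀ e < 2, ∀ i < m, f = fBit k e i →
          ∃ g' ∈ net D m pre N T, g'.1 = n ∧ g'.2.1 < g.2.1 := by
        intro e he i hi hfe
        subst hfe
        have := NetA_FIn_fBit (P := fun n => ∃ g' ∈ net D m pre N T, g'.1 = n ∧ g'.2.1 < g.2.1)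
          (k := k) (e := e) (i := i) (fun r hr => hbit hk he hi hr _ (by omega)) t ht
        rw [htn] at this
        exact this
      unfold wsOf at hf
      rcases List.mem_append.1 hf with hf | hf
      · obtain ⟨i, hi, rfl⟩ := List.mem_map.1 hf
        exact key 0 (by omega) i (List.mem_range.1 hi) rfl
      · obtain ⟨i, hi, rfl⟩ := List.mem_map.1 hf
        exact key 1 (by omega) i (List.mem_range.1 hi) rfl
  · obtain ⟨e, he, h⟩ := NetA_mem_fin.1 hg'
    have hf : FIn (fun n => ∃ g' ∈ net D m pre N T, g'.1 = n ∧ g'.2.1 < m + 3 + 2 * T) (fY e) := by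
      refine NetA_FIn_fY he (hinn he _ (by omega)) ?_
      intro k hk c hc
      obtain ⟨g', h1, h2, h3⟩ := NetA_rej_mem (D := D) (m := m) (pre := pre) (N := N) (T := T) hk hc
      exact ⟨g', h1, h2, by omega⟩
    rcases h with rfl | rfl | rfl
    · exact hf
    · exact FIn.fadd hf (FIn.cst _)
    · refine FIn.fadd (FIn.vr ?_) (FIn.fsmul _ (FIn.vr ?_))
      · exact ⟨_, NetA_mem.2 (Or.inr (Or.inr (Or.inr (Or.inr (NetA_mem_fin.2
          ⟨e, he, Or.inl rfl⟩))))), rfl, by show m + 3 + 2 * T < netStage m T; unfold netStage; omega⟩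
      · exact ⟨_, NetA_mem.2 (Or.inr (Or.inr (Or.inr (Or.inr (NetA_mem_fin.2
          ⟨e, he, Or.inr (Or.inl rfl)⟩))))), rfl, by
            show m + 3 + 2 * T < netStage m T; unfold netStage; omega⟩

theorem net_stage {m : ℕ} {pre : ℕ → List Bool} {N T : ℕ}
    {g : Gate} (hg : g ∈ net D m pre N T) : g.2.1 ≤ netStage m T := by
  unfold netStage
  rcases NetA_mem.1 hg with rfl | rfl | hg' | hg' | hg'
  · exact Nat.zero_le _
  · exact Nat.zero_le _
  · obtain ⟨k, -, e, -, i, -, h⟩ := NetA_mem_bits.1 hg'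
    rcases h with rfl | rfl
    · show m - i ≤ _; omega
    · show m - i ≤ _; omega
  · obtain ⟨k, -, c, -, h⟩ := NetA_mem_mach.1 hg'
    have := (mach_stage h).2
    omega
  · obtain ⟨e, -, h⟩ := NetA_mem_fin.1 hg'
    rcases h with rfl | rfl | rfl
    · show m + 3 + 2 * T ≤ _; omega
    · show m + 3 + 2 * T ≤ _; omega
    · show netStage m T ≤ _; unfold netStage; omega

end

end Pool.Agent.H424R2.SG
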