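import Pool.Agent.H424R2.SG.Net

namespace Pool.Agent.H424R2.SG

open Pool.Agent.NPC Pool.Agent.NPC.Cnt

variable {K C A : Type} [DecidableEq K] [DecidableEq C] [DecidableEq A] [Fintype K] [Fintype C]
  [Fintype A] {D : Tab K C A}

theorem NetB_mem {m : ℕ} {pre : ℕ → List Bool} {N T : ℕ} {g : Gate} (hg : g ∈ netFin m T) :
    g ∈ net D m pre N T := by
  unfold net
  exact List.mem_append_right _ hg

theorem NetB_y0 {m T e : ℕ} (he : e < 2) : ((nY e 0, m + 3 + 2 * T, fY e) : Gate) ∈ netFin m T := by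
  simp only [netFin, List.mem_flatMap, List.mem_range]
  exact ⟨e, he, by simp⟩

theorem NetB_y1 {m T e : ℕ} (he : e < 2) :
    ((nY e 1, m + 3 + 2 * T, fadd (fY e) (cst (-(2 ^ m - 2)))) : Gate) ∈ netFin m T := by
  simp only [netFin, List.mem_flatMap, List.mem_range]
  exact ⟨e, he, by simp⟩

theorem NetB_out {m T e : ℕ} (he : e < 2) :
    ((nOut e, netStage m T, fadd (vr (nY e 0)) (fsmul (-1) (vr (nY e 1)))) : Gate) ∈
      netFin m T := by
  simp only [netFin, List.mem_flatMap, List.mem_range]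
  exact ⟨e, he, by simp⟩

/-- The output gates are bounded. -/
theorem net_cap {m : ℕ} {pre : ℕ → List Bool} {N T : ℕ} (hm : 2 ≤ m) {v : Name → ℚ} {κ : ℚ}
    (hκ : 0 ≤ κ)
    (hv : ∀ g ∈ net D m pre N T, g.1 ≠ nIn 0 → g.1 ≠ nIn 1 → v g.1 = max 0 (ev v g.2.2 - κ)) :
    ∀ e < 2, v (nOut e) ≤ 2 ^ m - 2 := by
  intro e he
  have h0 := hv _ (NetB_mem (NetB_y0 (m := m) (T := T) he)) (by simp [nY, nIn]) (by simp [nY, nIn])
  have h1 := hv _ (NetB_mem (NetB_y1 (m := m) (T := T) he)) (by simp [nY, nIn]) (by simp [nY, nIn])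
  have h2 := hv _ (NetB_mem (NetB_out (m := m) (T := T) he)) (by simp [nOut, nIn])
    (by simp [nOut, nIn])
  simp only [ev_fadd, ev_cst, ev_fsmul, ev_vr] at h0 h1 h2
  push_cast at h0 h1 h2
  have h3 : (2 : ℚ) ^ 2 ≤ 2 ^ m := pow_le_pow_right₀ (by norm_num) hm
  rw [h2, h0, h1, max_le_iff]
  constructor
  · linarith
  · have h4 := le_max_left (0 : ℚ) (ev v (fY e) + -(2 ^ m - 2) - κ)
    have h5 := le_max_right (0 : ℚ) (ev v (fY e) + -(2 ^ m - 2) - κ)
    have h6 : max 0 (ev v (fY e) - κ) ≤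
        max 0 (ev v (fY e) + -(2 ^ m - 2) - κ) + (2 ^ m - 2) := by
      rw [max_le_iff]
      constructor <;> linarith
    linarith

end Pool.Agent.H424R2.SG
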