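import Pool.Agent.H424R2.SG.Plane

namespace Pool.Agent.H424R2.SG

open Finset

theorem PlaneA_mod (x i : ℕ) :
    x % 2 ^ (i + 1) = 2 ^ i * (x.testBit i).toNat + x % 2 ^ i := by
  rw [Nat.mod_pow_succ, Nat.testBit_eq_decide_div_mod_eq]
  rcases Nat.mod_two_eq_zero_or_one (x / 2 ^ i) with h | h <;> simp [h, Nat.add_comm]

theorem PlaneA_sum (n m : ℕ) (hn : n < 2 ^ m) (k : ℕ) (hk : k ≤ m) :
    (∑ j ∈ Ico k m, (2 : ℚ) ^ j * (if n.testBit j then 1 else 0)) + ((n % 2 ^ k : ℕ) : ℚ) = n := by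
  induction hd : m - k generalizing k with
  | zero =>
    have : k = m := by omega
    subst this
    simp [Nat.mod_eq_of_lt hn]
  | succ d ih =>
    have hkm : k < m := by omega
    have h1 := ih (k + 1) hkm (by omega)
    rw [Finset.sum_eq_sum_Ico_succ_bot hkm]
    rw [PlaneA_mod] at h1
    rw [← h1]
    push_cast
    cases n.testBit k <;> simp
    ring

/-- If `z` is not just above an integer, the extracted bits are exact. -/
theorem IsBits.eq {m : ℕ} {z : ℚ} {b : ℕ → ℚ} (h : IsBits m z b) (h0 : 0 ≤ z)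
    (hz : z < 2 ^ m) (hf : 1 / 16 ≤ Int.fract z) (i : ℕ) (hi : i < m) :
    b i = if (⌊z⌋₊).testBit i then 1 else 0 := by
  have hn : ⌊z⌋₊ < 2 ^ m := by
    rw [Nat.floor_lt h0]
    exact_mod_cast hz
  have hzz : z = (⌊z⌋₊ : ℚ) + Int.fract z := by
    have h1 := Int.floor_add_fract z
    have h2 : ((⌊z⌋₊ : ℕ) : ℚ) = ((⌊z⌋ : ℤ) : ℚ) := by
      rw [← Int.natCast_floor_eq_floor h0]; simp
    rw [h2]; exact h1.symm
  have hfr : Int.fract z < 1 := Int.fract_lt_one z
  generalize hnn : ⌊z⌋₊ = n at *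
  generalize Int.fract z = f at *
  subst hzz
  induction hd : m - i using Nat.strong_induction_on generalizing i with
  | _ d ih =>
    have hprev : ∀ j ∈ Ioo i m, (16 : ℚ) * 2 ^ j * b j =
        16 * (2 ^ j * (if n.testBit j then 1 else 0)) := by
      intro j hj
      rw [Finset.mem_Ioo] at hj
      rw [ih (m - j) (by omega) j hj.2 rfl]
      ring
    have hs := PlaneA_sum n m hn (i + 1) hi
    have hI : Ioo i m = Ico (i + 1) m := by ext; simp
    rw [h i hi, Finset.sum_congr rfl hprev, ← Finset.mul_sum, hI]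
    have hs' : (∑ j ∈ Ico (i + 1) m, (2 : ℚ) ^ j * (if n.testBit j then 1 else 0)) =
      n - ((n % 2 ^ (i + 1) : ℕ) : ℚ) := by linarith
    rw [hs', PlaneA_mod]
    have hlt : n % 2 ^ i + 1 ≤ 2 ^ i := Nat.mod_lt _ (by positivity)
    have hlt' : ((n % 2 ^ i : ℕ) : ℚ) + 1 ≤ 2 ^ i := by exact_mod_cast hlt
    have hge : (0 : ℚ) ≤ ((n % 2 ^ i : ℕ) : ℚ) := by positivity
    cases hb : n.testBit i
    · simp only [Bool.toNat_false, Nat.mul_zero, Nat.zero_add]
      rw [max_eq_left (by linarith), max_eq_left (by linarith)]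
      simp
    · simp only [Bool.toNat_true, Nat.mul_one]
      push_cast
      push_cast at hge
      rw [max_eq_right (by linarith), max_eq_right (by linarith)]
      simp

end Pool.Agent.H424R2.SG
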