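import Pool.Agent.H424R2.SG.Plane

namespace Pool.Agent.H424R2.SG

open Finset

theorem PlaneB_miss (α β γ : ℕ) (_ : α < 3) (_ : β < 3) (_ : γ < 3) (h : noTri α β γ) :
    ∃ c < 3, α ≠ c ∧ β ≠ c ∧ γ ≠ c := by
  unfold noTri at h
  by_contra hcon
  push Not at hcon
  have h0 := hcon 0 (by norm_num)
  have h1 := hcon 1 (by norm_num)
  have h2 := hcon 2 (by norm_num)
  omega

theorem PlaneB_bad (a : ℚ) (k k' : ℕ) (hk : k < 16) (hk' : k' < 16) (h : ¬ Good a k)
    (h' : ¬ Good a k') : k = k' := by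
  unfold Good at h h'
  push Not at h h'
  have e1 := Int.fract_nonneg (a + (k : ℚ) / 16)
  have e2 := Int.fract_nonneg (a + (k' : ℚ) / 16)
  have e3 := Int.self_sub_fract (a + (k : ℚ) / 16)
  have e4 := Int.self_sub_fract (a + (k' : ℚ) / 16)
  set f := Int.fract (a + (k : ℚ) / 16)
  set f' := Int.fract (a + (k' : ℚ) / 16)
  set n : ℤ := ⌊a + (k : ℚ) / 16⌋
  set n' : ℤ := ⌊a + (k' : ℚ) / 16⌋
  have h1 : (((k : ℤ) - k' - 16 * (n - n') : ℤ) : ℚ) = 16 * (f - f') := by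
    push_cast
    rw [← e3, ← e4]; ring
  have h2 : ((k : ℤ) - k' - 16 * (n - n') : ℤ) < 1 := by
    have : (((k : ℤ) - k' - 16 * (n - n') : ℤ) : ℚ) < 1 := by rw [h1]; linarith
    exact_mod_cast this
  have h3 : -1 < ((k : ℤ) - k' - 16 * (n - n') : ℤ) := by
    have : ((-1 : ℤ) : ℚ) < (((k : ℤ) - k' - 16 * (n - n') : ℤ) : ℚ) := by
      rw [h1]; push_cast; linarith
    exact_mod_cast this
  omega

open Classical in
theorem PlaneB_badcard (a b : ℚ) : (∑ k ∈ range 16, (if Good a k ∧ Good b k then (0 : ℚ) else 1)) ≤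
    2 := by
  classical
  have h0 : ∀ c : ℚ, ((range 16).filter (fun k => ¬ Good c k)).card ≤ 1 := by
    intro c
    rw [card_le_one]
    intro k hk k' hk'
    rw [mem_filter, mem_range] at hk hk'
    exact PlaneB_bad c k k' hk.1 hk'.1 hk.2 hk'.2
  have h1 : ∀ c : ℚ, (∑ k ∈ range 16, (if Good c k then (0 : ℚ) else 1)) ≤ 1 := by
    intro c
    have e : (∑ k ∈ range 16, (if Good c k then (0 : ℚ) else 1)) =
        (((range 16).filter (fun k => ¬ Good c k)).card : ℚ) := by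
      rw [card_filter, Nat.cast_sum]
      apply sum_congr rfl
      intro k _
      split_ifs <;> simp_all
    rw [e]
    exact_mod_cast h0 c
  calc (∑ k ∈ range 16, (if Good a k ∧ Good b k then (0 : ℚ) else 1))
      ≤ ∑ k ∈ range 16, ((if Good a k then (0 : ℚ) else 1) + (if Good b k then (0 : ℚ) else 1)) := by
        apply sum_le_sum
        intro k _
        by_cases h2 : Good a k <;> by_cases h3 : Good b k <;> simp [h2, h3]
    _ = _ := sum_add_distrib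
    _ ≤ 2 := by linarith [h1 a, h1 b]

theorem PlaneB_clamp (a s M : ℚ) (ha : 0 ≤ a) (hM : 1 ≤ M)
    (h : |a - (max 0 (a + s) - max 0 (a + s - M))| ≤ 1 / 4) :
    (1 ≤ s → M - 1 / 4 ≤ a) ∧ (s ≤ -1 → a ≤ 1 / 4) := by
  rw [abs_le] at h
  obtain ⟨h1, h2⟩ := h
  constructor
  · intro hs
    rw [max_eq_right (by linarith : (0 : ℚ) ≤ a + s)] at h1 h2
    rcases le_total 0 (a + s - M) with h3 | h3
    · rw [max_eq_right h3] at h1 h2
      linarith
    · rw [max_eq_left h3] at h1 h2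
      linarith
  · intro hs
    rcases le_total 0 (a + s) with h3 | h3
    · rw [max_eq_right h3] at h2
      rcases le_total 0 (a + s - M) with h4 | h4
      · rw [max_eq_right h4] at h2
        linarith
      · rw [max_eq_left h4] at h2
        linarith
    · rw [max_eq_left h3, max_eq_left (by linarith : a + s - M ≤ 0)] at h2
      linarith

theorem PlaneB_floor (a : ℚ) (ha : 0 ≤ a) (k : ℕ) (hk : k < 16) :
    ⌊a + (k : ℚ) / 16⌋₊ = ⌊a⌋₊ ∨ ⌊a + (k : ℚ) / 16⌋₊ = ⌊a⌋₊ + 1 := by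
  have hk' : (k : ℚ) < 16 := by exact_mod_cast hk
  have hk0 : (0 : ℚ) ≤ k := Nat.cast_nonneg k
  have h1 : ⌊a⌋₊ ≤ ⌊a + (k : ℚ) / 16⌋₊ := Nat.floor_mono (by linarith)
  have h2 : ⌊a + (k : ℚ) / 16⌋₊ < ⌊a⌋₊ + 2 := by
    rw [Nat.floor_lt (by linarith)]
    have := Nat.lt_floor_add_one a
    push_cast
    linarith
  omega

theorem PlaneB_mono (a : ℚ) (k k' : ℕ)
    (h : ⌊a + (k : ℚ) / 16⌋₊ < ⌊a + (k' : ℚ) / 16⌋₊) : k < k' := by
  by_contra hcon
  push Not at hcon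
  have h1 : ((k' : ℕ) : ℚ) ≤ k := by exact_mod_cast hcon
  have : ⌊a + (k' : ℚ) / 16⌋₊ ≤ ⌊a + (k : ℚ) / 16⌋₊ := Nat.floor_mono (by linarith)
  omega

theorem PlaneB_small (a : ℚ) (ha : 0 ≤ a) (h : a ≤ 1 / 4) (k : ℕ) (hk : k < 16) :
    ⌊a + (k : ℚ) / 16⌋₊ < 2 := by
  have hk' : (k : ℚ) ≤ 15 := by exact_mod_cast (by omega : k ≤ 15)
  rw [Nat.floor_lt (by positivity)]
  push_cast
  linarith

theorem PlaneB_large (a : ℚ) (M : ℕ) (hM : 1 ≤ M) (h : (M : ℚ) - 1 / 4 ≤ a) (k : ℕ) :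
    M ≤ ⌊a + (k : ℚ) / 16⌋₊ + 1 := by
  have hk0 : (0 : ℚ) ≤ k := Nat.cast_nonneg k
  have h1 : M - 1 ≤ ⌊a + (k : ℚ) / 16⌋₊ := by
    apply Nat.le_floor
    rw [Nat.cast_sub hM]
    push_cast
    linarith
  omega

/-- An approximate fixed point of the averaged displacement lies in a cell with a trichromatic
triple.  Here `r k c` is the value of the test whether sample `k` has colour `c`. -/
theorem plane (col : ℕ → ℕ → ℕ) (M : ℕ) (hM : 4 ≤ M) (a b : ℚ) (ha : 0 ≤ a) (hb : 0 ≤ b)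
    (r : ℕ → ℕ → ℚ) (hcol : ∀ x y, col x y < 3)
    (r01 : ∀ k < 16, ∀ c < 3, 0 ≤ r k c ∧ r k c ≤ 1)
    (hr : ∀ k < 16, Good a k → Good b k → ∀ c < 3,
      r k c = if col ⌊a + k / 16⌋₊ ⌊b + k / 16⌋₊ = c then 1 else 0)
    (hx : |a - (max 0 (a + ∑ k ∈ range 16, (r k 1 - r k 0)) -
      max 0 (a + ∑ k ∈ range 16, (r k 1 - r k 0) - M))| ≤ 1 / 4)
    (hy : |b - (max 0 (b + ∑ k ∈ range 16, (r k 2 - r k 0)) -
      max 0 (b + ∑ k ∈ range 16, (r k 2 - r k 0) - M))| ≤ 1 / 4)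
    (B0 : ∀ x y, (x < 2 ∨ y < 2) → col x y ≠ 0)
    (B1 : ∀ x y, M ≤ x + 1 → col x y ≠ 1)
    (B2 : ∀ x y, M ≤ y + 1 → col x y ≠ 2) :
    ∃ x' y', ((x' = ⌊a⌋₊ + 1 ∧ y' = ⌊b⌋₊) ∨ (x' = ⌊a⌋₊ ∧ y' = ⌊b⌋₊ + 1)) ∧
      ¬ noTri (col ⌊a⌋₊ ⌊b⌋₊) (col x' y') (col (⌊a⌋₊ + 1) (⌊b⌋₊ + 1)) := by
  classical
  by_contra hcon
  push Not at hcon
  have hM1 : (1 : ℚ) ≤ M := by exact_mod_cast (by omega : 1 ≤ M)
  -- a colour is missing
  obtain ⟨cs, hcs3, hcs⟩ : ∃ c < 3, ∀ k : ℕ, k < 16 →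
      col ⌊a + (k : ℚ) / 16⌋₊ ⌊b + (k : ℚ) / 16⌋₊ ≠ c := by
    by_cases hmid : ∃ k : ℕ, k < 16 ∧ ⌊a + (k : ℚ) / 16⌋₊ = ⌊a⌋₊ + 1 ∧ ⌊b + (k : ℚ) / 16⌋₊ = ⌊b⌋₊
    · obtain ⟨k0, hk0, e1, e2⟩ := hmid
      obtain ⟨c, hc, c1, c2, c3⟩ := PlaneB_miss _ _ _ (hcol _ _) (hcol _ _) (hcol _ _)
        (hcon (⌊a⌋₊ + 1) ⌊b⌋₊ (Or.inl ⟨rfl, rfl⟩))
      refine ⟨c, hc, fun k hk => ?_⟩
      rcases PlaneB_floor a ha k hk with f1 | f1 <;> rcases PlaneB_floor b hb k hk with f2 | f2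
      · rw [f1, f2]; exact c1
      · exfalso
        have g1 := PlaneB_mono a k k0 (by omega)
        have g2 := PlaneB_mono b k0 k (by omega)
        omega
      · rw [f1, f2]; exact c2
      · rw [f1, f2]; exact c3
    · push Not at hmid
      obtain ⟨c, hc, c1, c2, c3⟩ := PlaneB_miss _ _ _ (hcol _ _) (hcol _ _) (hcol _ _)
        (hcon ⌊a⌋₊ (⌊b⌋₊ + 1) (Or.inr ⟨rfl, rfl⟩))
      refine ⟨c, hc, fun k hk => ?_⟩
      rcases PlaneB_floor a ha k hk with f1 | f1 <;> rcases PlaneB_floor b hb k hk with f2 | f2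
      · rw [f1, f2]; exact c1
      · rw [f1, f2]; exact c2
      · exact absurd f2 (hmid k hk f1)
      · rw [f1, f2]; exact c3
  -- counting
  set C : ℕ → ℕ := fun k => col ⌊a + (k : ℚ) / 16⌋₊ ⌊b + (k : ℚ) / 16⌋₊ with hC
  set nn : ℕ → ℚ := fun c => ∑ k ∈ range 16, (if (Good a k ∧ Good b k) ∧ C k = c then (1 : ℚ) else 0)
    with hnn
  set bd : ℚ := ∑ k ∈ range 16, (if Good a k ∧ Good b k then (0 : ℚ) else 1) with hbd
  have hbd2 : bd ≤ 2 := PlaneB_badcard a b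
  have htot : nn 0 + nn 1 + nn 2 + bd = 16 := by
    simp only [hnn, hbd, ← sum_add_distrib]
    have : ∀ k ∈ range 16, ((if (Good a k ∧ Good b k) ∧ C k = 0 then (1 : ℚ) else 0) +
        (if (Good a k ∧ Good b k) ∧ C k = 1 then (1 : ℚ) else 0) +
        (if (Good a k ∧ Good b k) ∧ C k = 2 then (1 : ℚ) else 0) +
        (if Good a k ∧ Good b k then (0 : ℚ) else 1)) = 1 := by
      intro k _
      have h3 : C k < 3 := hcol _ _
      by_cases hg : Good a k ∧ Good b k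
      · interval_cases hck : C k <;> simp [hg]
      · simp [hg]
    rw [sum_congr rfl this]
    simp
  have hnn0 : ∀ c, 0 ≤ nn c := by
    intro c
    apply sum_nonneg
    intro k _
    split_ifs <;> norm_num
  have hmiss : nn cs = 0 := by
    apply sum_eq_zero
    intro k hk
    rw [if_neg]
    rintro ⟨-, h⟩
    exact hcs k (mem_range.1 hk) h
  have hpos : ∀ c, 0 < nn c → ∃ k < 16, C k = c := by
    intro c hc
    by_contra hno
    push Not at hno
    have : nn c = 0 := by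
      apply sum_eq_zero
      intro k hk
      rw [if_neg]
      rintro ⟨-, h⟩
      exact hno k (mem_range.1 hk) h
    linarith
  -- the sums
  have hsum : ∀ e < 3, e ≠ 0 → nn e - nn 0 - bd ≤ ∑ k ∈ range 16, (r k e - r k 0) ∧
      ∑ k ∈ range 16, (r k e - r k 0) ≤ nn e - nn 0 + bd := by
    intro e he he0
    constructor
    · simp only [hnn, hbd, ← sum_sub_distrib]
      apply sum_le_sum
      intro k hk
      rw [mem_range] at hk
      by_cases hg : Good a k ∧ Good b k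
      · have h1 := hr k hk hg.1 hg.2 e he
        have h2 := hr k hk hg.1 hg.2 0 (by norm_num)
        rw [h1, h2]
        simp [hg, hC]
      · have h1 := r01 k hk e he
        have h2 := r01 k hk 0 (by norm_num)
        simp only [hg, false_and, if_false]
        linarith
    · simp only [hnn, hbd, ← sum_sub_distrib, ← sum_add_distrib]
      apply sum_le_sum
      intro k hk
      rw [mem_range] at hk
      by_cases hg : Good a k ∧ Good b k
      · have h1 := hr k hk hg.1 hg.2 e he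
        have h2 := hr k hk hg.1 hg.2 0 (by norm_num)
        rw [h1, h2]
        simp [hg, hC]
      · have h1 := r01 k hk e he
        have h2 := r01 k hk 0 (by norm_num)
        simp only [hg, false_and, if_false]
        linarith
  obtain ⟨sx1, sx2⟩ := hsum 1 (by norm_num) (by norm_num)
  obtain ⟨sy1, sy2⟩ := hsum 2 (by norm_num) (by norm_num)
  obtain ⟨cx1, cx2⟩ := PlaneB_clamp a _ M ha hM1 hx
  obtain ⟨cy1, cy2⟩ := PlaneB_clamp b _ M hb hM1 hy
  set sx := ∑ k ∈ range 16, (r k 1 - r k 0)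
  set sy := ∑ k ∈ range 16, (r k 2 - r k 0)
  -- the four exclusions
  have X1 : 1 ≤ sx → nn 1 ≤ 0 := by
    intro h
    by_contra hlt
    push Not at hlt
    obtain ⟨k, hk, hk1⟩ := hpos 1 hlt
    exact B1 _ _ (PlaneB_large a M (by omega) (cx1 h) k) hk1
  have Y1 : 1 ≤ sy → nn 2 ≤ 0 := by
    intro h
    by_contra hlt
    push Not at hlt
    obtain ⟨k, hk, hk1⟩ := hpos 2 hlt
    exact B2 _ _ (PlaneB_large b M (by omega) (cy1 h) k) hk1
  have X0 : sx ≤ -1 → nn 0 ≤ 0 := by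
    intro h
    by_contra hlt
    push Not at hlt
    obtain ⟨k, hk, hk1⟩ := hpos 0 hlt
    exact B0 _ _ (Or.inl (PlaneB_small a ha (cx2 h) k hk)) hk1
  have Y0 : sy ≤ -1 → nn 0 ≤ 0 := by
    intro h
    by_contra hlt
    push Not at hlt
    obtain ⟨k, hk, hk1⟩ := hpos 0 hlt
    exact B0 _ _ (Or.inr (PlaneB_small b hb (cy2 h) k hk)) hk1
  have p0 := hnn0 0
  have p1 := hnn0 1
  have p2 := hnn0 2
  interval_cases cs
  · -- colour 0 missing
    rcases le_total 7 (nn 1) with h | h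
    · have := X1 (by linarith)
      linarith
    · have := Y1 (by linarith)
      linarith
  · -- colour 1 missing
    rcases le_total 3 (nn 0) with h | h
    · have := X0 (by linarith)
      linarith
    · have := Y1 (by linarith)
      linarith
  · -- colour 2 missing
    rcases le_total 3 (nn 0) with h | h
    · have := Y0 (by linarith)
      linarith
    · have := X1 (by linarith)
      linarith

end Pool.Agent.H424R2.SG
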