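import Pool.Agent.H424R2.SG.Net
import Pool.Agent.H424R2.SG.NetB
import Pool.Agent.H424R2.SG.MachA
import Pool.Agent.H424R2.SG.PlaneA
import Pool.Agent.H424R2.SG.PlaneB

namespace Pool.Agent.H424R2.SG

open Pool.Agent.NPC Pool.Agent.NPC.Cnt

variable {K C A : Type} [DecidableEq K] [DecidableEq C] [DecidableEq A] [Fintype K] [Fintype C]
  [Fintype A] {D : Tab K C A}

theorem NetC_range (m : ℕ) (f : ℕ → ℚ) :
    ((List.range m).map f).sum = ∑ i ∈ Finset.range m, f i := by
  induction m with
  | zero => simp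
  | succ m ih => rw [List.range_succ, List.map_append, List.sum_append, ih,
      Finset.sum_range_succ]; simp

theorem NetC_sum_filter (m i : ℕ) (f : ℕ → ℚ) :
    (((List.range m).filter fun i' => decide (i < i')).map f).sum =
      ∑ i' ∈ Finset.Ioo i m, f i' := by
  have h1 : Finset.Ioo i m = (Finset.range m).filter fun i' => i < i' := by
    ext j; simp [and_comm]
  rw [h1, Finset.sum_filter]
  have h2 : ∀ l : List ℕ, ((l.filter fun i' => decide (i < i')).map f).sum =
      (l.map fun i' => if i < i' then f i' else 0).sum := by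
    intro l
    induction l with
    | nil => simp
    | cons a l ih =>
      by_cases h : i < a
      · rw [List.filter_cons_of_pos (by simpa using h), List.map_cons, List.sum_cons, ih,
          List.map_cons, List.sum_cons, if_pos h]
      · rw [List.filter_cons_of_neg (by simpa using h), ih, List.map_cons, List.sum_cons,
          if_neg h, zero_add]
  rw [h2, NetC_range]

/-- Exact evaluation together with approximately equal inputs and outputs leads to a
trichromatic triple. -/
theorem net_spec (hD : D.Ok) (hcs : D.cs.Nodup) (has : D.as.Nodup) {m : ℕ} (hm : 4 ≤ m)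
    {pre : ℕ → List Bool} {N T : ℕ} {v : Name → ℚ}
    (hv : ∀ g ∈ net D m pre N T, g.1 ≠ nIn 0 → g.1 ≠ nIn 1 → v g.1 = max 0 (ev v g.2.2))
    (h0 : ∀ e < 2, 0 ≤ v (nIn e)) (hfix : ∀ e < 2, |v (nIn e) - v (nOut e)| ≤ 1 / 4)
    (hN : ∀ c < 3, (pre c).length + 2 * m + T < N) (col : ℕ → ℕ → ℕ)
    (hcol : ∀ x y, col x y < 3)
    (hacc : ∀ c < 3, ∀ x < 2 ^ m, ∀ y < 2 ^ m, ∀ w : List Bool, w.length = 2 * m →
      (∀ i < m, w.getD i false = x.testBit i) → (∀ i < m, w.getD (m + i) false = y.testBit i) →
      ((D.good ((D.conf (pre c ++ w) T).2 D.k1)[0]? = true ∧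
        ((D.conf (pre c ++ w) T).2 D.k1)[1]? = none) ↔ col x y = c))
    (B0 : ∀ x y, (x < 2 ∨ y < 2) → col x y ≠ 0)
    (B1 : ∀ x y, 2 ^ m - 2 ≤ x + 1 → col x y ≠ 1)
    (B2 : ∀ x y, 2 ^ m - 2 ≤ y + 1 → col x y ≠ 2) :
    ∃ x' y', ((x' = ⌊v (nIn 0)⌋₊ + 1 ∧ y' = ⌊v (nIn 1)⌋₊) ∨
        (x' = ⌊v (nIn 0)⌋₊ ∧ y' = ⌊v (nIn 1)⌋₊ + 1)) ∧
      ¬ noTri (col ⌊v (nIn 0)⌋₊ ⌊v (nIn 1)⌋₊) (col x' y')
        (col (⌊v (nIn 0)⌋₊ + 1) (⌊v (nIn 1)⌋₊ + 1)) := by
  have h2m : 16 ≤ 2 ^ m := by
    calc 16 = 2 ^ 4 := by norm_num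
      _ ≤ 2 ^ m := Nat.pow_le_pow_right (by norm_num) hm
  have hMc : ((2 ^ m - 2 : ℕ) : ℚ) = 2 ^ m - 2 := by
    rw [Nat.cast_sub (by omega)]; push_cast; rfl
  have hMq : (16 : ℚ) ≤ 2 ^ m := by exact_mod_cast h2m
  -- output gates
  have hY : ∀ e < 2, v (nOut e) = max 0 (ev v (fY e)) - max 0 (ev v (fY e) - (2 ^ m - 2)) := by
    intro e he
    have h0 := hv _ (NetB_mem (NetB_y0 (m := m) (T := T) he)) (by simp [nY, nIn])
      (by simp [nY, nIn])
    have h1 := hv _ (NetB_mem (NetB_y1 (m := m) (T := T) he)) (by simp [nY, nIn])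
      (by simp [nY, nIn])
    have h2 := hv _ (NetB_mem (NetB_out (m := m) (T := T) he)) (by simp [nOut, nIn])
      (by simp [nOut, nIn])
    simp only [ev_fadd, ev_cst, ev_fsmul, ev_vr] at h0 h1 h2
    push_cast at h0 h1 h2
    rw [h2, h0, h1]
    have e1 : ev v (fY e) + -(2 ^ m - 2) = ev v (fY e) - (2 ^ m - 2) := by ring
    rw [e1]
    have e2 : max 0 (ev v (fY e) - (2 ^ m - 2)) ≤ max 0 (ev v (fY e)) :=
      max_le_max le_rfl (by linarith)
    rw [max_eq_right (by linarith)]
    ring
  have hfY : ∀ e, ev v (fY e) = v (nIn e) + ∑ k ∈ Finset.range 16,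
      ((1 - v (nRej (tgM k (e + 1)))) - (1 - v (nRej (tgM k 0)))) := by
    intro e
    unfold fY
    rw [ev_fadd, ev_vr, ev_fsum, List.map_map, ← NetC_range]
    congr 2
    apply List.map_congr_left
    intro k _
    simp only [Function.comp_apply, ev_fadd, ev_fsmul, ev_vr]
    push_cast
    ring
  have hle : ∀ e < 2, v (nIn e) ≤ 2 ^ m - 2 + 1 / 4 := by
    intro e he
    have h1 := (abs_le.1 (hfix e he)).2
    have h2 := hY e he
    have h3 : v (nOut e) ≤ 2 ^ m - 2 := by
      rw [h2]
      have h4 := le_max_left (0 : ℚ) (ev v (fY e) - (2 ^ m - 2))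
      have h5 := le_max_right (0 : ℚ) (ev v (fY e) - (2 ^ m - 2))
      have h6 : max 0 (ev v (fY e)) ≤ max 0 (ev v (fY e) - (2 ^ m - 2)) + (2 ^ m - 2) := by
        rw [max_le_iff]
        constructor <;> linarith
      linarith
    linarith
  -- machines
  have hmach : ∀ k < 16, ∀ c < 3, ∀ g ∈ mach D (tgM k c) (m + 1) (pre c) (wsOf m k) N T,
      v g.1 = max 0 (ev v g.2.2) := by
    intro k hk c hc g hg
    have hg' : g ∈ net D m pre N T := by
      unfold net
      refine List.mem_append_left _ (List.mem_append_right _ ?_)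
      simp only [netMach, List.mem_flatMap, List.mem_range]
      exact ⟨k, hk, c, hc, hg⟩
    have hne : ∀ e, g.1 ≠ nIn e := by
      intro e
      have h1 : ∃ l, g.1 = tgM k c ++ l := by
        unfold mach at hg
        rw [List.mem_append] at hg
        rcases hg with hg | hg
        · simp only [List.mem_flatMap, List.mem_range] at hg
          obtain ⟨t, _, c', _, o, _, hg⟩ := hg
          rw [List.mem_cons] at hg
          rcases hg with rfl | hg
          · exact ⟨_, rfl⟩
          · simp only [List.mem_flatMap, List.mem_range, List.mem_map] at hg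
            obtain ⟨k', _, i, _, o', _, rfl⟩ := hg
            exact ⟨_, rfl⟩
        · simp only [List.mem_cons, List.not_mem_nil, or_false] at hg
          rcases hg with rfl | rfl
          · exact ⟨_, rfl⟩
          · exact ⟨_, rfl⟩
      obtain ⟨l, hl⟩ := h1
      rw [hl]
      simp [tgM, nIn]
    exact hv g hg' (hne 0) (hne 1)
  -- bits
  have hbits : ∀ k : ℕ, k < 16 → ∀ e < 2, IsBits m (v (nIn e) + k / 16) fun i => ev v (fBit k e i) := by
    intro k hk e he i hi
    have hmem0 : ((nBit k e i 0, m - i, fZ m k e i) : Gate) ∈ net D m pre N T := by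
      unfold net
      refine List.mem_append_left _ (List.mem_append_left _ (List.mem_append_right _ ?_))
      simp only [netBits, List.mem_flatMap, List.mem_range]
      exact ⟨k, hk, e, he, i, hi, by simp⟩
    have hmem1 : ((nBit k e i 1, m - i, fadd (fZ m k e i) (cst (-1))) : Gate) ∈
        net D m pre N T := by
      unfold net
      refine List.mem_append_left _ (List.mem_append_left _ (List.mem_append_right _ ?_))
      simp only [netBits, List.mem_flatMap, List.mem_range]
      exact ⟨k, hk, e, he, i, hi, by simp⟩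
    have h1 := hv _ hmem0 (by simp [nBit, nIn]) (by simp [nBit, nIn])
    have h2 := hv _ hmem1 (by simp [nBit, nIn]) (by simp [nBit, nIn])
    simp only [ev_fadd, ev_cst] at h1 h2
    have hz : ev v (fZ m k e i) = 16 * (v (nIn e) + k / 16) - 16 * 2 ^ i -
        ∑ i' ∈ Finset.Ioo i m, 16 * 2 ^ i' * ev v (fBit k e i') := by
      unfold fZ
      rw [ev_fadd, ev_fadd, ev_fsmul, ev_vr, ev_cst, ev_fsum, List.map_map, NetC_sum_filter]
      have h3 : ∀ i' ∈ Finset.Ioo i m, (ev v ∘ fun i' => fsmul (-(16 * 2 ^ i')) (fBit k e i')) i' =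
          -(16 * 2 ^ i' * ev v (fBit k e i')) := by
        intro i' _
        simp only [Function.comp_apply, ev_fsmul]
        push_cast
        ring
      rw [Finset.sum_congr rfl h3, Finset.sum_neg_distrib]
      push_cast
      ring
    rw [← hz]
    have h4 : ev v (fBit k e i) = v (nBit k e i 0) - v (nBit k e i 1) := by
      unfold fBit
      rw [ev_fadd, ev_fsmul, ev_vr, ev_vr]
      push_cast
      ring
    change ev v (fBit k e i) = _
    rw [h4, h1, h2]
    push_cast
    rw [← sub_eq_add_neg]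
  -- application of the plane lemma
  have key := plane col (2 ^ m - 2) (by omega) (v (nIn 0)) (v (nIn 1)) (h0 0 (by norm_num))
    (h0 1 (by norm_num)) (fun k c => 1 - v (nRej (tgM k c))) hcol ?_ ?_ ?_ ?_ B0 B1 B2
  · exact key
  · intro k hk c hc
    have h1 := mach_range (hmach k hk c hc)
    constructor <;> linarith
  · intro k hk hg0 hg1 c hc
    have hk0 : (0 : ℚ) ≤ k / 16 := by positivity
    have hk1 : (k : ℚ) / 16 ≤ 15 / 16 := by
      have : (k : ℚ) ≤ 15 := by exact_mod_cast Nat.lt_succ_iff.1 hk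
      linarith
    have p0 : ∀ e < 2, 0 ≤ v (nIn e) + k / 16 := fun e he => by
      have := h0 e he
      linarith
    have p1 : ∀ e < 2, v (nIn e) + k / 16 < 2 ^ m := fun e he => by
      have := hle e he
      linarith
    set x := ⌊v (nIn 0) + k / 16⌋₊ with hx
    set y := ⌊v (nIn 1) + k / 16⌋₊ with hy
    have hx2 : x < 2 ^ m := by
      rw [hx, Nat.floor_lt (p0 0 (by norm_num))]
      push_cast
      exact p1 0 (by norm_num)
    have hy2 : y < 2 ^ m := by
      rw [hy, Nat.floor_lt (p0 1 (by norm_num))]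
      push_cast
      exact p1 1 (by norm_num)
    have b0 := (hbits k hk 0 (by norm_num)).eq (p0 0 (by norm_num)) (p1 0 (by norm_num)) hg0
    have b1 := (hbits k hk 1 (by norm_num)).eq (p0 1 (by norm_num)) (p1 1 (by norm_num)) hg1
    set w : List Bool := (List.range m).map (fun i => x.testBit i) ++
      (List.range m).map (fun i => y.testBit i) with hw
    have hwl : w.length = 2 * m := by simp [hw]; omega
    have hw0 : ∀ i < m, w.getD i false = x.testBit i := by
      intro i hi
      rw [hw, List.getD_append _ _ _ _ (by simpa using hi)]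
      simp [List.getD_eq_getElem?_getD, hi]
    have hw1 : ∀ i < m, w.getD (m + i) false = y.testBit i := by
      intro i hi
      rw [hw, List.getD_append_right _ _ _ _ (by simp)]
      simp [List.getD_eq_getElem?_getD, hi]
    have hws : (wsOf m k).length = w.length := by rw [hwl]; simp [wsOf]; omega
    have hwv : ∀ i < w.length, ev v ((wsOf m k).getD i (cst 0)) =
        if w.getD i false then 1 else 0 := by
      intro i hi
      rw [hwl] at hi
      by_cases h1 : i < m
      · rw [hw0 i h1, wsOf, List.getD_append _ _ _ _ (by simpa using h1)]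
        have : ((List.range m).map (fBit k 0)).getD i (cst 0) = fBit k 0 i := by
          simp [List.getD_eq_getElem?_getD, h1]
        rw [this]
        exact b0 i h1
      · obtain ⟨j, rfl⟩ : ∃ j, i = m + j := ⟨i - m, by omega⟩
        have hj : j < m := by omega
        rw [hw1 j hj, wsOf, List.getD_append_right _ _ _ _ (by simp)]
        have : ((List.range m).map (fBit k 1)).getD (m + j - ((List.range m).map
            (fBit k 0)).length) (cst 0) = fBit k 1 j := by
          simp [List.getD_eq_getElem?_getD, hj]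
        rw [this]
        exact b1 j hj
    have hNc : (pre c).length + w.length + T < N := by rw [hwl]; exact hN c hc
    have hs := mach_spec hD hcs has (hmach k hk c hc) w hws hwv hNc
    have ha := hacc c hc x hx2 y hy2 w hwl hw0 hw1
    rw [hs]
    by_cases h1 : col x y = c
    · rw [if_pos h1, if_pos (ha.2 h1)]; norm_num
    · rw [if_neg h1, if_neg fun h => h1 (ha.1 h)]; norm_num
  · have h1 := hfix 0 (by norm_num)
    rw [hY 0 (by norm_num), hfY 0] at h1
    rw [hMc]
    exact h1
  · have h1 := hfix 1 (by norm_num)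
    rw [hY 1 (by norm_num), hfY 1] at h1
    rw [hMc]
    exact h1

end Pool.Agent.H424R2.SG
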