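import Pool.Agent.H424R2.SG.Col
import Pool.Agent.H671R2.PolyAuto
import Pool.Agent.H532R2.RatPoly

/-!
# The colour test is polynomial time (task POLYA, helper584)
-/

namespace Pool.Agent.H424R2.SG

open Pool.Agent.NPC Pool.Agent.H424R2.PPAD

namespace PolyA

attribute [local fun_prop] Poly.natBits

section

variable {α β : Type} [TEnc α] [TEnc β]

theorem take_eq (l : List β) : ∀ n k : ℕ,
    ((l.zipIdx k).filter (fun q => decide (q.2 < n + k))).map (fun q => q.1) = l.take n := by
  induction l with
  | nil => intro n k; simp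
  | cons b l ih =>
    intro n k
    rw [List.zipIdx_cons, List.filter_cons]
    cases n with
    | zero =>
      have h := ih 0 (k + 1)
      simp only [Nat.zero_add, List.take_zero] at h ⊢
      rw [if_neg (by simp)]
      have h2 : (l.zipIdx (k + 1)).filter (fun q => decide (q.2 < k)) = [] := by
        rw [List.filter_eq_nil_iff]
        intro q hq
        have := List.le_snd_of_mem_zipIdx hq
        simp
        omega
      rw [h2]
      rfl
    | succ n =>
      rw [if_pos (by simp), List.map_cons, List.take_succ_cons]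
      congr 1
      have h := ih n (k + 1)
      rw [show n + 1 + k = n + (k + 1) by ring]
      exact h

theorem drop_eq (l : List β) : ∀ n k : ℕ,
    ((l.zipIdx k).filter (fun q => decide (n + k ≤ q.2))).map (fun q => q.1) = l.drop n := by
  induction l with
  | nil => intro n k; simp
  | cons b l ih =>
    intro n k
    rw [List.zipIdx_cons, List.filter_cons]
    cases n with
    | zero =>
      rw [if_pos (by simp), List.map_cons, List.drop_zero]
      congr 1
      have h2 : (l.zipIdx (k + 1)).filter (fun q => decide (0 + k ≤ q.2)) = l.zipIdx (k + 1) := by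
        rw [List.filter_eq_self]
        intro q hq
        have := List.le_snd_of_mem_zipIdx hq
        simp
        omega
      rw [h2, List.zipIdx_map_fst]
    | succ n =>
      rw [if_neg (by simp), List.drop_succ_cons]
      have h := ih n (k + 1)
      rw [show n + 1 + k = n + (k + 1) by ring]
      exact h

theorem poly_take {l : α → List β} {n : α → ℕ} (hl : NPC.Poly l) (hn : NPC.Poly n) :
    NPC.Poly fun a => (l a).take (n a) := by
  have h : NPC.Poly fun a => ((l a).zipIdx.filter (fun q => decide (q.2 < n a))).map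
      (fun q => q.1) := by fun_prop
  exact h.congr fun a => take_eq (l a) (n a) 0

theorem poly_drop {l : α → List β} {n : α → ℕ} (hl : NPC.Poly l) (hn : NPC.Poly n) :
    NPC.Poly fun a => (l a).drop (n a) := by
  have h : NPC.Poly fun a => ((l a).zipIdx.filter (fun q => decide (n a ≤ q.2))).map
      (fun q => q.1) := by fun_prop
  exact h.congr fun a => drop_eq (l a) (n a) 0

theorem poly_two_pow {n : α → ℕ} (hn : UPoly n) : NPC.Poly fun a => 2 ^ n a := by
  have h1 : NPC.Poly fun a => valB ((List.range (n a)).map (fun _ => false) ++ [true]) := by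
    have h2 := hn.range
    exact NPC.Poly.valBits (NPC.Poly.append (NPC.Poly.map (F := fun _ _ => false) h2
      (NPC.Poly.const false)) (NPC.Poly.const [true]))
  refine h1.congr fun a => ?_
  have h2 := valB_replicate_false (n a) true
  have h3 : (List.range (n a)).map (fun _ => false) = List.replicate (n a) false := by
    simp
  rw [h3, h2]
  simp

theorem poly_bl {n u : α → ℕ} (hn : UPoly n) (hu : NPC.Poly u) :
    NPC.Poly fun a => bl (n a) (u a) := by
  have h2 := hn.range
  exact NPC.Poly.map (l := fun a => List.range (n a)) (F := fun a i => (u a).bits.getD i false) h2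
    (by fun_prop)

theorem sz_wires (l : List (ℕ × ℕ)) : ∀ x : List Bool,
    sz (l.foldl (fun w g => w ++ [!(w.getD g.1 false && w.getD g.2 false)]) x) ≤
      sz x + 4 * l.length := by
  induction l with
  | nil => intro x; simp
  | cons g l ih =>
    intro x
    rw [List.foldl_cons, List.length_cons]
    refine (ih _).trans ?_
    have h1 := sz_append x [!(x.getD g.1 false && x.getD g.2 false)]
    have h2 := sz_bool_le (!(x.getD g.1 false && x.getD g.2 false))
    rw [sz_list_cons, sz_list_nil] at h1
    omega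

theorem poly_wires {C : α → Circ} {x : α → List Bool} (hC : NPC.Poly C) (hx : NPC.Poly x) :
    NPC.Poly fun a => (C a).wires (x a) := by
  obtain ⟨qx, hqx⟩ := hx.sz_le
  have hC1 : NPC.Poly fun a => (C a).1 := NPC.Poly.fst hC
  obtain ⟨qC, hqC⟩ := hC1.sz_le
  refine NPC.Poly.foldl (l := fun a => (C a).1) (s := x)
    (F := fun _ w g => w ++ [!(w.getD g.1 false && w.getD g.2 false)]) hC1 hx ?_
    (qx + 4 * qC) ?_
  · fun_prop
  · intro a k hk
    have h1 := sz_wires ((C a).1.take k) (x a)
    have h2 := hqx a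
    have h3 := hqC a
    have h4 := length_lt_sz (C a).1
    have h5 : ((C a).1.take k).length ≤ (C a).1.length := by
      rw [List.length_take]; exact min_le_right _ _
    simp only [Polynomial.eval_add, Polynomial.eval_mul, Polynomial.eval_ofNat]
    omega

theorem poly_eval {C : α → Circ} {x : α → List Bool} (hC : NPC.Poly C) (hx : NPC.Poly x) :
    NPC.Poly fun a => (C a).eval (x a) := by
  have h1 := poly_wires hC hx
  have h2 : NPC.Poly fun a => (C a).2 := NPC.Poly.snd hC
  exact NPC.Poly.map (l := fun a => (C a).2) (F := fun a i => ((C a).wires (x a)).getD i false) h2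
    (NPC.Poly.getD (h1.comp (NPC.Poly.fst NPC.Poly.id)) (NPC.Poly.snd NPC.Poly.id)
      (NPC.Poly.const false))

theorem upoly_eolN {I : α → Circ × Circ} (hI : NPC.Poly I) : UPoly fun a => eolN (I a) :=
  UPoly.length (NPC.Poly.snd (NPC.Poly.fst hI))

variable {I : α → Circ × Circ} {u x y : α → ℕ}

theorem poly_N (hI : NPC.Poly I) : NPC.Poly fun a => 2 ^ eolN (I a) :=
  poly_two_pow (upoly_eolN hI)

theorem poly_sN (hI : NPC.Poly I) (hu : NPC.Poly u) : NPC.Poly fun a => sN (I a) (u a) :=
  NPC.Poly.valBits (poly_eval (NPC.Poly.fst hI) (poly_bl (upoly_eolN hI) hu))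

theorem poly_pN (hI : NPC.Poly I) (hu : NPC.Poly u) : NPC.Poly fun a => pN (I a) (u a) :=
  NPC.Poly.valBits (poly_eval (NPC.Poly.snd hI) (poly_bl (upoly_eolN hI) hu))

theorem poly_outb (hI : NPC.Poly I) (hu : NPC.Poly u) :
    NPC.Poly fun a => outb (2 ^ eolN (I a)) (sN (I a)) (pN (I a)) (u a) := by
  have h1 := poly_sN hI hu
  have h2 := poly_pN hI h1
  exact NPC.Poly.decide_and (NPC.Poly.decide_lt hu (poly_N hI)) (NPC.Poly.decide_and
    (NPC.Poly.dec_eq h2 hu) (NPC.Poly.decide_not (NPC.Poly.dec_eq h1 hu)))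

theorem poly_inb (hI : NPC.Poly I) (hu : NPC.Poly u) :
    NPC.Poly fun a => inb (2 ^ eolN (I a)) (sN (I a)) (pN (I a)) (u a) := by
  have h1 := poly_pN hI hu
  have h2 := poly_sN hI h1
  exact NPC.Poly.decide_and (NPC.Poly.decide_lt hu (poly_N hI)) (NPC.Poly.decide_and
    (NPC.Poly.dec_eq h2 hu) (NPC.Poly.decide_not (NPC.Poly.dec_eq h1 hu)))

theorem poly_sigH (hI : NPC.Poly I) (hx : NPC.Poly x) (hy : NPC.Poly y) :
    NPC.Poly fun a => sigH (2 ^ eolN (I a)) (sN (I a)) (pN (I a)) (x a) (y a) := by
  have g1 : NPC.Poly fun a => (x a - 1) / 2 := by fun_prop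
  have g2 : NPC.Poly fun a => y a - 2 := by fun_prop
  have h1 := poly_inb hI g1
  have h2 := poly_outb hI g1
  have h3 := poly_outb hI g2
  have h4 := poly_sN hI g2
  unfold sigH
  fun_prop

theorem poly_sigV (hI : NPC.Poly I) (hx : NPC.Poly x) (hy : NPC.Poly y) :
    NPC.Poly fun a => sigV (2 ^ eolN (I a)) (sN (I a)) (pN (I a)) (x a) (y a) := by
  have g1 : NPC.Poly fun a => (x a - 1) / 2 := by fun_prop
  have g2 : NPC.Poly fun a => (x a - 2) / 2 := by fun_prop
  have h1 := poly_inb hI g1
  have h2 := poly_outb hI g2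
  have h3 := poly_pN hI g1
  unfold sigV
  fun_prop

theorem poly_tile {l b r t : α → ℕ} (hl : NPC.Poly l) (hb : NPC.Poly b) (hr : NPC.Poly r)
    (ht : NPC.Poly t) (hx : NPC.Poly x) (hy : NPC.Poly y) :
    NPC.Poly fun a => tile (l a) (b a) (r a) (t a) (x a) (y a) := by
  unfold tile
  exact NPC.Poly.getD (NPC.Poly.getD (NPC.Poly.const tileTab) (by fun_prop) (NPC.Poly.const []))
    (by fun_prop) (NPC.Poly.const 0)

theorem poly_colI (hI : NPC.Poly I) (hx : NPC.Poly x) (hy : NPC.Poly y) :
    NPC.Poly fun a => colI (I a) (x a) (y a) := by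
  have g1 : NPC.Poly fun a => x a / 7 - 1 := by fun_prop
  have g2 : NPC.Poly fun a => y a / 7 := by fun_prop
  have g3 : NPC.Poly fun a => x a / 7 := by fun_prop
  have g4 : NPC.Poly fun a => y a / 7 - 1 := by fun_prop
  have g5 : NPC.Poly fun a => x a % 7 := by fun_prop
  have g6 : NPC.Poly fun a => y a % 7 := by fun_prop
  have h := poly_tile (poly_sigH hI g1 g2) (poly_sigV hI g3 g4) (poly_sigH hI g3 g2)
    (poly_sigV hI g3 g2) g5 g6
  unfold colI colN
  exact NPC.Poly.ite (by fun_prop) (NPC.Poly.const 1) (NPC.Poly.ite (by fun_prop) (by fun_prop) h)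

end

end PolyA

theorem poly_bitsI : UPoly bitsI :=
  UPoly.add (PolyA.upoly_eolN NPC.Poly.id) (UPoly.const 6)

theorem poly_colTest : NPC.Poly (fun q : ((Circ × Circ) × ℕ) × List Bool =>
    decide (colI q.1.1 (valB (q.2.take (bitsI q.1.1))) (valB (q.2.drop (bitsI q.1.1))) =
      q.1.2)) := by
  have hI : NPC.Poly (fun q : ((Circ × Circ) × ℕ) × List Bool => q.1.1) := by fun_prop
  have hc : NPC.Poly (fun q : ((Circ × Circ) × ℕ) × List Bool => q.1.2) := by fun_prop
  have hl : NPC.Poly (fun q : ((Circ × Circ) × ℕ) × List Bool => q.2) := by fun_prop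
  have hb : NPC.Poly (fun q : ((Circ × Circ) × ℕ) × List Bool => bitsI q.1.1) :=
    (poly_bitsI.comp hI).toPoly
  exact NPC.Poly.dec_eq (PolyA.poly_colI hI (NPC.Poly.valBits (PolyA.poly_take hl hb))
    (NPC.Poly.valBits (PolyA.poly_drop hl hb))) hc

theorem poly_ansI : NPC.Poly (fun q : (Circ × Circ) × ℕ => ansI q.1 q.2) := by
  have hI : NPC.Poly (fun q : (Circ × Circ) × ℕ => q.1) := by fun_prop
  exact PolyA.poly_bl (PolyA.upoly_eolN hI) (by fun_prop)

end Pool.Agent.H424R2.SG
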