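import Pool.Agent.H424R2.SG.Net
import Pool.Agent.H527R2.GenPoly

namespace Pool.Agent.H424R2.SG

open Pool.Agent.NPC Pool.Agent.NPC.Cnt
open Pool.Agent.NPC.CL (polyOfFintype encFintype)

section

variable {K C A : Type} [DecidableEq K] [DecidableEq C] [DecidableEq A] [Fintype K]
  [Fintype C] [Fintype A] [TEnc K] [TEnc C] [TEnc A] {α : Type} [TEnc α]

theorem PolyB_ix {Q : Type} [Fintype Q] [TEnc Q] {c : α → Q} (hc : NPC.Poly c) :
    NPC.Poly fun a => ix (c a) := (polyOfFintype (fun q : Q => ix q)).comp hc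

attribute [local fun_prop] PolyB_ix

theorem PolyB_nA {tg : α → List ℕ} {t : α → ℕ} {c : α → C} {o : α → Option A}
    (h1 : NPC.Poly tg) (h2 : NPC.Poly t) (h3 : NPC.Poly c) (h4 : NPC.Poly o) :
    NPC.Poly fun a => nA (tg a) (t a) (c a) (o a) := by
  unfold nA
  fun_prop

theorem PolyB_nB {tg : α → List ℕ} {t i : α → ℕ} {c : α → C} {o o' : α → Option A} {k : α → K}
    (h1 : NPC.Poly tg) (h2 : NPC.Poly t) (h3 : NPC.Poly c) (h4 : NPC.Poly o) (h5 : NPC.Poly k)
    (h6 : NPC.Poly i) (h7 : NPC.Poly o') :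
    NPC.Poly fun a => nB (tg a) (t a) (c a) (o a) (k a) (i a) (o' a) := by
  unfold nB
  fun_prop

attribute [local fun_prop] PolyB_nA PolyB_nB

theorem PolyB_ind {p : α → Prop} [∀ a, Decidable (p a)] (hp : NPC.Poly fun a => decide (p a)) :
    NPC.Poly fun a => ind (p a) := by
  unfold ind
  refine poly_cst ?_
  exact NPC.Poly.ite hp (NPC.Poly.const 1) (NPC.Poly.const 0)

theorem PolyB_wget {ws : α → List Form} {i : α → ℕ} (h : NPC.Poly ws) (hi : NPC.Poly i) :
    NPC.Poly fun a => (ws a).getD (i a) (cst 0) :=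
  NPC.Poly.getD h hi (NPC.Poly.const _)

attribute [local fun_prop] PolyB_ind PolyB_wget

variable (D : Tab K C A)

theorem PolyB_fX0 {pre : α → List Bool} {ws : α → List Form} {k : α → K} {i : α → ℕ}
    {o : α → Option A} (h1 : NPC.Poly pre) (h2 : NPC.Poly ws) (h3 : NPC.Poly k)
    (h4 : NPC.Poly i) (h5 : NPC.Poly o) :
    NPC.Poly fun a => fX0 D (pre a) (ws a) (k a) (i a) (o a) := by
  unfold fX0
  have hsym : NPC.Poly D.sym := polyOfFintype D.sym
  have e1 : NPC.Poly fun a => (pre a).getD (i a) false :=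
    NPC.Poly.getD h1 h4 (NPC.Poly.const _)
  have e2 : NPC.Poly fun a => D.sym ((pre a).getD (i a) false) := hsym.comp e1
  have e3 : NPC.Poly fun a => (ws a).getD (i a - (pre a).length) (cst 0) :=
    PolyB_wget h2 (by fun_prop)
  refine NPC.Poly.ite (by fun_prop) (NPC.Poly.ite (by fun_prop) ?_
    (NPC.Poly.ite (by fun_prop) (NPC.Poly.ite (by fun_prop) e3
      (NPC.Poly.ite (by fun_prop) ?_ (by fun_prop))) ?_)) ?_
  · exact PolyB_ind (NPC.Poly.dec_eq h5 (NPC.Poly.some e2))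
  · exact poly_fadd (NPC.Poly.const _) (poly_fsmul (NPC.Poly.const _) e3)
  · exact PolyB_ind (NPC.Poly.dec_eq h5 (NPC.Poly.const _))
  · exact PolyB_ind (NPC.Poly.dec_eq h5 (NPC.Poly.const _))

theorem PolyB_fC {tg : α → List ℕ} {t : α → ℕ} {c : α → C} (h1 : NPC.Poly tg)
    (h2 : NPC.Poly t) (h3 : NPC.Poly c) : NPC.Poly fun a => fC D (tg a) (t a) (c a) := by
  unfold fC
  refine NPC.Poly.ite (by fun_prop) (PolyB_ind (by fun_prop)) ?_
  refine poly_fsum (NPC.Poly.flatMap (F := fun a c' => D.os.map fun o' =>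
    if D.M.nxt c' o' = c a then vr (nA (tg a) (t a - 1) c' o') else cst 0)
    (NPC.Poly.const _) ?_)
  refine NPC.Poly.map (F := fun (p : α × C) o' =>
    if D.M.nxt p.2 o' = c p.1 then vr (nA (tg p.1) (t p.1 - 1) p.2 o') else cst 0)
    (NPC.Poly.const _) ?_
  have hn : NPC.Poly fun q : (α × C) × Option A => D.M.nxt q.1.2 q.2 :=
    (polyOfFintype (fun p : C × Option A => D.M.nxt p.1 p.2)).comp
      (NPC.Poly.pair (by fun_prop) (by fun_prop))
  refine NPC.Poly.ite (NPC.Poly.dec_eq hn (by fun_prop)) (by fun_prop) (NPC.Poly.const _)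

theorem PolyB_src {c : α → C} {o : α → Option A} {k : α → K} {i : α → ℕ}
    (hc : NPC.Poly c) (ho : NPC.Poly o) (hk : NPC.Poly k) (hi : NPC.Poly i) :
    NPC.Poly fun a => D.M.src (c a) (o a) (k a) (i a) := by
  have hop : NPC.Poly (fun a => D.M.opK (c a) (o a) (k a)) :=
    (polyOfFintype (fun p : C × Option A × K => D.M.opK p.1 p.2.1 p.2.2)).comp
      (NPC.Poly.pair hc (NPC.Poly.pair ho hk))
  exact pSrcOf hop hi

theorem PolyB_fX {tg : α → List ℕ} {pre : α → List Bool} {ws : α → List Form} {N t : α → ℕ}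
    {k : α → K} {i : α → ℕ} {o : α → Option A} (h0 : NPC.Poly tg) (h1 : NPC.Poly pre)
    (h2 : NPC.Poly ws) (hN : NPC.Poly N) (ht : NPC.Poly t) (h3 : NPC.Poly k)
    (h4 : NPC.Poly i) (h5 : NPC.Poly o) :
    NPC.Poly fun a => fX D (tg a) (pre a) (ws a) (N a) (t a) (k a) (i a) (o a) := by
  unfold fX
  refine NPC.Poly.ite (by fun_prop) (PolyB_ind (by fun_prop))
    (NPC.Poly.ite (by fun_prop) (PolyB_fX0 D h1 h2 h3 h4 h5) ?_)
  refine poly_fsum (NPC.Poly.flatMap (F := fun a c' => D.os.map fun o' =>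
    match D.M.src c' o' (k a) (i a) with
    | Sum.inl _ => vr (nB (tg a) (t a - 1) c' o' (k a) (i a) (o a))
    | Sum.inr b => if o a = some b then vr (nA (tg a) (t a - 1) c' o') else cst 0)
    (NPC.Poly.const _) ?_)
  refine NPC.Poly.map (F := fun (p : α × C) o' =>
    match D.M.src p.2 o' (k p.1) (i p.1) with
    | Sum.inl _ => vr (nB (tg p.1) (t p.1 - 1) p.2 o' (k p.1) (i p.1) (o p.1))
    | Sum.inr b => if o p.1 = some b then vr (nA (tg p.1) (t p.1 - 1) p.2 o') else cst 0)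
    (NPC.Poly.const _) ?_
  have hs : NPC.Poly fun q : (α × C) × Option A => D.M.src q.1.2 q.2 (k q.1.1) (i q.1.1) :=
    PolyB_src D (by fun_prop) (by fun_prop) (by fun_prop) (by fun_prop)
  refine (NPC.Poly.sumElim
    (g := fun (q : (α × C) × Option A) (_ : ℕ) =>
      vr (nB (tg q.1.1) (t q.1.1 - 1) q.1.2 q.2 (k q.1.1) (i q.1.1) (o q.1.1)))
    (h := fun (q : (α × C) × Option A) (b : A) =>
      if o q.1.1 = some b then vr (nA (tg q.1.1) (t q.1.1 - 1) q.1.2 q.2) else cst 0)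
    hs (by fun_prop) (by fun_prop)).congr fun q => ?_
  cases D.M.src q.1.2 q.2 (k q.1.1) (i q.1.1) <;> rfl

attribute [local fun_prop] PolyB_fC PolyB_fX

theorem PolyB_gA {tg : α → List ℕ} {b : α → ℕ} {pre : α → List Bool} {ws : α → List Form}
    {N t : α → ℕ} {c : α → C} {o : α → Option A} (h0 : NPC.Poly tg) (hb : NPC.Poly b)
    (h1 : NPC.Poly pre) (h2 : NPC.Poly ws) (hN : NPC.Poly N) (ht : NPC.Poly t)
    (h3 : NPC.Poly c) (h5 : NPC.Poly o) :
    NPC.Poly fun a => gA D (tg a) (b a) (pre a) (ws a) (N a) (t a) (c a) (o a) := by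
  have hs : NPC.Poly fun a => D.M.stk (c a) := (polyOfFintype D.M.stk).comp h3
  unfold gA
  fun_prop

theorem PolyB_gB {tg : α → List ℕ} {b : α → ℕ} {pre : α → List Bool} {ws : α → List Form}
    {N t : α → ℕ} {c : α → C} {o o' : α → Option A} {k : α → K} {i : α → ℕ}
    (h0 : NPC.Poly tg) (hb : NPC.Poly b)
    (h1 : NPC.Poly pre) (h2 : NPC.Poly ws) (hN : NPC.Poly N) (ht : NPC.Poly t)
    (h3 : NPC.Poly c) (h5 : NPC.Poly o) (h6 : NPC.Poly k) (h7 : NPC.Poly i)
    (h8 : NPC.Poly o') :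
    NPC.Poly fun a => gB D (tg a) (b a) (pre a) (ws a) (N a) (t a) (c a) (o a) (k a) (i a)
      (o' a) := by
  unfold gB
  have hs : NPC.Poly fun a => D.M.src (c a) (o a) (k a) (i a) := PolyB_src D h3 h5 h6 h7
  refine NPC.Poly.pair (by fun_prop) (NPC.Poly.pair (by fun_prop) ?_)
  refine (NPC.Poly.sumElim
    (g := fun (q : α) (j : ℕ) => fadd (fadd (vr (nA (tg q) (t q) (c q) (o q)))
      (fX D (tg q) (pre q) (ws q) (N q) (t q) (k q) j (o' q))) (cst (-1)))
    (h := fun (q : α) (_ : A) => cst 0) hs (by fun_prop) (by fun_prop)).congr fun q => ?_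
  cases D.M.src (c q) (o q) (k q) (i q) <;> rfl

theorem PolyB_fAcc {tg : α → List ℕ} {pre : α → List Bool} {ws : α → List Form}
    {N T : α → ℕ} (h0 : NPC.Poly tg) (h1 : NPC.Poly pre) (h2 : NPC.Poly ws)
    (hN : NPC.Poly N) (hT : NPC.Poly T) :
    NPC.Poly fun a => fAcc D (tg a) (pre a) (ws a) (N a) (T a) := by
  unfold fAcc
  fun_prop

attribute [local fun_prop] PolyB_gA PolyB_gB PolyB_fAcc

theorem PolyB_cs : NPC.Poly fun _ : α => D.cs := NPC.Poly.const _
theorem PolyB_os : NPC.Poly fun _ : α => D.os := NPC.Poly.const _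
theorem PolyB_ks : NPC.Poly fun _ : α => D.ks := NPC.Poly.const _

theorem PolyB_m1 {tg : α → List ℕ} {b : α → ℕ} {pre : α → List Bool} {ws : α → List Form}
    {N t : α → ℕ} {c : α → C} {o : α → Option A} {k : α → K} (h0 : NPC.Poly tg)
    (hb : NPC.Poly b) (h1 : NPC.Poly pre)
    (h2 : NPC.Poly ws) (hN : UPoly N) (ht : NPC.Poly t) (h3 : NPC.Poly c) (h5 : NPC.Poly o)
    (h6 : NPC.Poly k) :
    NPC.Poly fun a => (List.range (N a)).flatMap fun i => D.os.map fun o' =>
      gB D (tg a) (b a) (pre a) (ws a) (N a) (t a) (c a) (o a) (k a) i o' := by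
  have hN' := hN.toPoly
  have hNr := hN.range
  refine NPC.Poly.flatMap (F := fun a i => D.os.map fun o' =>
      gB D (tg a) (b a) (pre a) (ws a) (N a) (t a) (c a) (o a) (k a) i o') hNr ?_
  refine NPC.Poly.map (F := fun (p : α × ℕ) o' =>
      gB D (tg p.1) (b p.1) (pre p.1) (ws p.1) (N p.1) (t p.1) (c p.1) (o p.1) (k p.1) p.2 o')
      (NPC.Poly.const _) ?_
  fun_prop

theorem PolyB_m2 {tg : α → List ℕ} {b : α → ℕ} {pre : α → List Bool} {ws : α → List Form}
    {N t : α → ℕ} {c : α → C} {o : α → Option A} (h0 : NPC.Poly tg)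
    (hb : NPC.Poly b) (h1 : NPC.Poly pre)
    (h2 : NPC.Poly ws) (hN : UPoly N) (ht : NPC.Poly t) (h3 : NPC.Poly c) (h5 : NPC.Poly o) :
    NPC.Poly fun a => D.ks.flatMap fun k => (List.range (N a)).flatMap fun i =>
      D.os.map fun o' =>
      gB D (tg a) (b a) (pre a) (ws a) (N a) (t a) (c a) (o a) k i o' := by
  refine NPC.Poly.flatMap (F := fun a k => (List.range (N a)).flatMap fun i =>
      D.os.map fun o' => gB D (tg a) (b a) (pre a) (ws a) (N a) (t a) (c a) (o a) k i o')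
      (NPC.Poly.const _) ?_
  exact PolyB_m1 D (by fun_prop) (by fun_prop) (by fun_prop) (by fun_prop)
    (hN.comp (NPC.Poly.fst NPC.Poly.id)) (by fun_prop) (by fun_prop) (by fun_prop) (by fun_prop)

theorem PolyB_m3 {tg : α → List ℕ} {b : α → ℕ} {pre : α → List Bool} {ws : α → List Form}
    {N t : α → ℕ} (h0 : NPC.Poly tg)
    (hb : NPC.Poly b) (h1 : NPC.Poly pre)
    (h2 : NPC.Poly ws) (hN : UPoly N) (ht : NPC.Poly t) :
    NPC.Poly fun a => D.cs.flatMap fun c => D.os.flatMap fun o =>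
      gA D (tg a) (b a) (pre a) (ws a) (N a) (t a) c o ::
      D.ks.flatMap fun k => (List.range (N a)).flatMap fun i =>
      D.os.map fun o' =>
      gB D (tg a) (b a) (pre a) (ws a) (N a) (t a) c o k i o' := by
  have hN' := hN.toPoly
  refine NPC.Poly.flatMap (F := fun a c => D.os.flatMap fun o =>
      gA D (tg a) (b a) (pre a) (ws a) (N a) (t a) c o ::
      D.ks.flatMap fun k => (List.range (N a)).flatMap fun i =>
      D.os.map fun o' =>
      gB D (tg a) (b a) (pre a) (ws a) (N a) (t a) c o k i o') (NPC.Poly.const _) ?_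
  refine NPC.Poly.flatMap (F := fun (p : α × C) o =>
      gA D (tg p.1) (b p.1) (pre p.1) (ws p.1) (N p.1) (t p.1) p.2 o ::
      D.ks.flatMap fun k => (List.range (N p.1)).flatMap fun i =>
      D.os.map fun o' =>
      gB D (tg p.1) (b p.1) (pre p.1) (ws p.1) (N p.1) (t p.1) p.2 o k i o')
      (NPC.Poly.const _) ?_
  refine NPC.Poly.cons (by fun_prop) ?_
  exact PolyB_m2 D (by fun_prop) (by fun_prop) (by fun_prop) (by fun_prop)
    (hN.comp (NPC.Poly.fst (NPC.Poly.fst NPC.Poly.id))) (by fun_prop) (by fun_prop)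
    (by fun_prop)

theorem PolyB_mach {tg : α → List ℕ} {b : α → ℕ} {pre : α → List Bool} {ws : α → List Form}
    {N T : α → ℕ} (h0 : NPC.Poly tg) (hb : NPC.Poly b) (h1 : NPC.Poly pre)
    (h2 : NPC.Poly ws) (hN : UPoly N) (hT : UPoly T) :
    NPC.Poly fun a => mach D (tg a) (b a) (pre a) (ws a) (N a) (T a) := by
  have hN' := hN.toPoly
  have hT' := hT.toPoly
  have hNr := hN.range
  have hTr := hT.range
  unfold mach nRej
  refine NPC.Poly.append ?_ (by fun_prop)
  refine NPC.Poly.flatMap (F := fun a t => D.cs.flatMap fun c => D.os.flatMap fun o =>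
      gA D (tg a) (b a) (pre a) (ws a) (N a) t c o ::
      D.ks.flatMap fun k => (List.range (N a)).flatMap fun i =>
      D.os.map fun o' =>
      gB D (tg a) (b a) (pre a) (ws a) (N a) t c o k i o') hTr ?_
  exact PolyB_m3 D (by fun_prop) (by fun_prop) (by fun_prop) (by fun_prop)
    (hN.comp (NPC.Poly.fst NPC.Poly.id)) (by fun_prop)

end

section

variable {α : Type} [TEnc α]

theorem PolyB_two_pow {n : α → ℕ} (hn : UPoly n) : NPC.Poly (fun a => (2 : ℤ) ^ n a) := by
  have h1 : NPC.Poly (fun a => (List.replicate (n a) ()).map (fun _ => false)) :=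
    NPC.Poly.map (F := fun _ _ => false) hn (NPC.Poly.const false)
  have h2 : NPC.Poly (fun a => 2 ^ n a) :=
    (NPC.Poly.valBits (NPC.Poly.append h1 (NPC.Poly.const [true]))).congr fun a => by
      rw [List.map_replicate, valB_replicate_false]
      simp
  exact (NPC.Poly.natCast_int h2).congr fun a => by push_cast; rfl

theorem PolyB_pow {m i : α → ℕ} (hm : UPoly m) (hi : NPC.Poly i) :
    NPC.Poly (fun a => (2 : ℤ) ^ min (i a) (m a)) :=
  PolyB_two_pow (UPoly.of_le (NPC.Poly.min hi hm.toPoly) hm fun _ => min_le_right _ _)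

/-- copy of `fZ` with bounded exponents -/
def PolyB_fZ (m k e i : ℕ) : Form :=
  fadd (fadd (fsmul 16 (vr (nIn e))) (cst ((k : ℤ) - 16 * 2 ^ min i m)))
    (fsum (((List.range m).filter fun i' => decide (i < i')).map fun i' =>
      fsmul (-(16 * 2 ^ min i' m)) (fBit k e i')))

theorem PolyB_fZ_eq {m k e i : ℕ} (hi : i < m) : PolyB_fZ m k e i = fZ m k e i := by
  unfold PolyB_fZ fZ
  rw [min_eq_left hi.le]
  congr 2
  apply List.map_congr_left
  intro i' hi'
  have h1 : i' < m := by simpa using (List.mem_filter.1 hi').1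
  rw [min_eq_left h1.le]

attribute [local fun_prop] H532.Poly_addZ H532.Poly_subZ H532.Poly_mulZ H532.Poly_neg

theorem PolyB_fBit {k e i : α → ℕ} (hk : NPC.Poly k) (he : NPC.Poly e) (hi : NPC.Poly i) :
    NPC.Poly fun a => fBit (k a) (e a) (i a) := by
  unfold fBit nBit
  fun_prop

attribute [local fun_prop] PolyB_fBit

theorem PolyB_polyfZ {m k e i : α → ℕ} (hm : UPoly m) (hk : NPC.Poly k) (he : NPC.Poly e)
    (hi : NPC.Poly i) : NPC.Poly fun a => PolyB_fZ (m a) (k a) (e a) (i a) := by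
  unfold PolyB_fZ nIn
  have h1 := PolyB_pow hm hi
  have hr := hm.range
  refine poly_fadd (by fun_prop) (poly_fsum ?_)
  refine NPC.Poly.map (F := fun a i' => fsmul (-(16 * 2 ^ min i' (m a))) (fBit (k a) (e a) i'))
    (by fun_prop) ?_
  have h2 : NPC.Poly fun q : α × ℕ => (2 : ℤ) ^ min q.2 (m q.1) :=
    PolyB_pow (hm.comp (NPC.Poly.fst NPC.Poly.id)) (NPC.Poly.snd NPC.Poly.id)
  fun_prop

theorem PolyB_b1 {m k e : α → ℕ} (hm : UPoly m) (hk : NPC.Poly k) (he : NPC.Poly e) :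
    NPC.Poly fun a => (List.range (m a)).flatMap fun i =>
      [(nBit (k a) (e a) i 0, m a - i, fZ (m a) (k a) (e a) i),
        (nBit (k a) (e a) i 1, m a - i, fadd (fZ (m a) (k a) (e a) i) (cst (-1)))] := by
  have hm' := hm.toPoly
  have hr := hm.range
  refine (NPC.Poly.flatMap (F := fun a i =>
    [(nBit (k a) (e a) i 0, m a - i, PolyB_fZ (m a) (k a) (e a) i),
      (nBit (k a) (e a) i 1, m a - i, fadd (PolyB_fZ (m a) (k a) (e a) i) (cst (-1)))])
    hr ?_).congr fun a => ?_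
  · have h1 : NPC.Poly fun q : α × ℕ => PolyB_fZ (m q.1) (k q.1) (e q.1) q.2 :=
      PolyB_polyfZ (hm.comp (NPC.Poly.fst NPC.Poly.id)) (by fun_prop) (by fun_prop) (by fun_prop)
    unfold nBit
    fun_prop
  · refine List.flatMap_congr fun i hi => ?_
    rw [PolyB_fZ_eq (List.mem_range.1 hi)]

theorem PolyB_netBits {m : α → ℕ} (hm : UPoly m) : NPC.Poly fun a => netBits (m a) := by
  unfold netBits
  refine NPC.Poly.flatMap (F := fun a k => (List.range 2).flatMap fun e =>
    (List.range (m a)).flatMap fun i =>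
      [(nBit k e i 0, m a - i, fZ (m a) k e i),
        (nBit k e i 1, m a - i, fadd (fZ (m a) k e i) (cst (-1)))]) (NPC.Poly.const _) ?_
  refine NPC.Poly.flatMap (F := fun (p : α × ℕ) e =>
    (List.range (m p.1)).flatMap fun i =>
      [(nBit p.2 e i 0, m p.1 - i, fZ (m p.1) p.2 e i),
        (nBit p.2 e i 1, m p.1 - i, fadd (fZ (m p.1) p.2 e i) (cst (-1)))])
        (NPC.Poly.const _) ?_
  exact PolyB_b1 (hm.comp (NPC.Poly.fst (NPC.Poly.fst NPC.Poly.id))) (by fun_prop) (by fun_prop)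

theorem PolyB_wsOf {m k : α → ℕ} (hm : UPoly m) (hk : NPC.Poly k) :
    NPC.Poly fun a => wsOf (m a) (k a) := by
  have hr := hm.range
  unfold wsOf
  fun_prop

theorem PolyB_netFin {m T : α → ℕ} (hm : UPoly m) (hT : UPoly T) :
    NPC.Poly fun a => netFin (m a) (T a) := by
  have hm' := hm.toPoly
  have hT' := hT.toPoly
  have h2 := PolyB_two_pow hm
  unfold netFin netStage
  refine NPC.Poly.flatMap (F := fun a e =>
    [(nY e 0, m a + 3 + 2 * T a, fY e),
     (nY e 1, m a + 3 + 2 * T a, fadd (fY e) (cst (-(2 ^ m a - 2)))),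
     (nOut e, m a + 4 + 2 * T a, fadd (vr (nY e 0)) (fsmul (-1) (vr (nY e 1))))])
     (NPC.Poly.const _) ?_
  have h3 : NPC.Poly fun q : α × ℕ => fY q.2 := by
    unfold fY nIn nRej tgM
    fun_prop
  have h4 : NPC.Poly fun q : α × ℕ => (2 : ℤ) ^ m q.1 := h2.comp (NPC.Poly.fst NPC.Poly.id)
  have h5 : NPC.Poly fun q : α × ℕ => cst (-(2 ^ m q.1 - 2)) :=
    poly_cst (H532.Poly_neg (H532.Poly_subZ h4 (NPC.Poly.const 2)))
  unfold nY nOut
  fun_prop

end

theorem PolyB_netMach {K C A : Type} [DecidableEq K] [DecidableEq C] [DecidableEq A]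
    [Fintype K] [Fintype C] [Fintype A] [TEnc K] [TEnc C] [TEnc A] (D : Tab K C A)
    {α : Type} [TEnc α] {m N T : α → ℕ}
    {pre : α → ℕ → List Bool} (hm : UPoly m) (hN : UPoly N) (hT : UPoly T)
    (hp : NPC.Poly fun q : α × ℕ => pre q.1 q.2) :
    NPC.Poly fun a => netMach D (m a) (pre a) (N a) (T a) := by
  have hm' := hm.toPoly
  unfold netMach
  refine NPC.Poly.flatMap (F := fun a k => (List.range 3).flatMap fun c =>
    mach D (tgM k c) (m a + 1) (pre a c) (wsOf (m a) k) (N a) (T a)) (NPC.Poly.const _) ?_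
  refine NPC.Poly.flatMap (F := fun (p : α × ℕ) c =>
    mach D (tgM p.2 c) (m p.1 + 1) (pre p.1 c) (wsOf (m p.1) p.2) (N p.1) (T p.1))
    (NPC.Poly.const _) ?_
  have f1 : NPC.Poly fun q : (α × ℕ) × ℕ => q.1.1 := NPC.Poly.fst (NPC.Poly.fst NPC.Poly.id)
  refine PolyB_mach D ?_ (by fun_prop)
    (hp.comp (NPC.Poly.pair f1 (NPC.Poly.snd NPC.Poly.id)))
    (PolyB_wsOf (hm.comp f1) (by fun_prop)) (hN.comp f1) (hT.comp f1)
  unfold tgM
  fun_prop

theorem poly_net {K C A : Type} [DecidableEq K] [DecidableEq C] [DecidableEq A] [Fintype K]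
    [Fintype C] [Fintype A] (D : Tab K C A) {α : Type} [TEnc α] {m N T : α → ℕ}
    {pre : α → ℕ → List Bool} (hm : UPoly m) (hN : UPoly N) (hT : UPoly T)
    (hp : NPC.Poly fun q : α × ℕ => pre q.1 q.2) :
    NPC.Poly fun a => net D (m a) (pre a) (N a) (T a) := by
  let _ := encFintype K
  let _ := encFintype C
  let _ := encFintype A
  unfold net
  exact NPC.Poly.append (NPC.Poly.append (NPC.Poly.append (NPC.Poly.const _)
    (PolyB_netBits hm)) (PolyB_netMach D hm hN hT hp)) (PolyB_netFin hm hT)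

end Pool.Agent.H424R2.SG
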