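import Pool.Agent.H424R2.SG.Net
import Pool.Agent.H424R2.SG.Game

namespace Pool.Agent.H424R2.SG

open Pool.Agent.NPC Pool.Agent.H424R2.PPAD

attribute [local fun_prop] H532.Poly_mulZ H532.Poly_addZ H532.Poly_subZ H532.Poly_sumZ
  H532.Poly_neg H532.Poly_natAbs H532.RP.Poly_num H532.RP.Poly_den Poly.natBits

namespace PolyCN

/-- power of two with a unary bound on the exponent -/
def pC (l : List Unit) (e : ℕ) : ℤ := H532.RP.pw l.length 2 e

theorem pC_eq {l : List Unit} {e : ℕ} (h : e ≤ l.length) : pC l e = 2 ^ e :=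
  H532.RP.pw_eq h 2

@[fun_prop] theorem poly_pC {α : Type} [TEnc α] {l : α → List Unit} {e : α → ℕ} (hl : NPC.Poly l)
    (he : NPC.Poly e) : NPC.Poly fun a => pC (l a) (e a) :=
  H532.RP.Poly_pw (UPoly.length hl) (NPC.Poly.const 2) he

/-- numerical parameters: unary bound, `s`, `e0`, `h`, `F`, `Dx` -/
abbrev CPar := List Unit × ℕ × ℕ × ℕ × ℕ × ℕ

/-- input gate -/
def isIC (e : ℕ) (x : St) : Bool := decide (x.1 = 2 ∧ x.2.2.2.1 = [0, e])

/-- output gate -/
def isOC (e : ℕ) (x : St) : Bool := decide (x.1 = 1 ∧ x.2.2.2.1 = [4, e])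

section

variable {α : Type} [TEnc α]

@[fun_prop] theorem poly_isIC {e : α → ℕ} {x : α → St} (he : NPC.Poly e) (hx : NPC.Poly x) :
    NPC.Poly fun a => isIC (e a) (x a) := by
  unfold isIC
  fun_prop

@[fun_prop] theorem poly_isOC {e : α → ℕ} {x : α → St} (he : NPC.Poly e) (hx : NPC.Poly x) :
    NPC.Poly fun a => isOC (e a) (x a) := by
  unfold isOC
  fun_prop

/-- exponent -/
def exC (P : CPar) (g : Gate) : ℕ := P.2.1 * g.2.1 + P.2.2.1

@[fun_prop] theorem poly_exC {P : α → CPar} {g : α → Gate} (hP : NPC.Poly P) (hg : NPC.Poly g) :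
    NPC.Poly fun a => exC (P a) (g a) := by
  unfold exC
  fun_prop

/-- vectors -/
def avecC (P : CPar) (e : ℕ) (x : St) : ℤ :=
  if isIC e x = true ∨ isOC e x = true then pC P.1 P.2.2.2.1 else 0

@[fun_prop] theorem poly_avecC {P : α → CPar} {e : α → ℕ} {x : α → St} (hP : NPC.Poly P)
    (he : NPC.Poly e) (hx : NPC.Poly x) : NPC.Poly fun a => avecC (P a) (e a) (x a) := by
  unfold avecC
  fun_prop

/-- vectors -/
def avecC' (P : CPar) (e : ℕ) (x : St) : ℤ :=
  if isIC e x = true then pC P.1 P.2.2.2.1 else if isOC e x = true then -pC P.1 P.2.2.2.1 else 0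

@[fun_prop] theorem poly_avecC' {P : α → CPar} {e : α → ℕ} {x : α → St} (hP : NPC.Poly P)
    (he : NPC.Poly e) (hx : NPC.Poly x) : NPC.Poly fun a => avecC' (P a) (e a) (x a) := by
  unfold avecC'
  fun_prop

/-- constants -/
def qvC (P : CPar) (x : St) : ℤ :=
  if x.1 = 1 then -1 + pC P.1 (P.2.2.2.1 + 2) * (avecC' P 0 x + avecC' P 1 x)
  else if x.1 = 2 then x.2.2.2.2.2.2 + pC P.1 (P.2.2.2.1 + 2) * (avecC' P 0 x + avecC' P 1 x)
  else if x.1 = 3 then
    pC P.1 (2 * P.2.2.2.1 + 4 + P.2.2.2.2.1 - x.2.2.1) -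
      pC P.1 (2 * P.2.2.2.1 + 4 + P.2.2.2.2.1 - 2 * x.2.2.1)
  else if x.1 = 4 then -pC P.1 P.2.2.2.2.2
  else 0

@[fun_prop] theorem poly_qvC {P : α → CPar} {x : α → St} (hP : NPC.Poly P)
    (hx : NPC.Poly x) : NPC.Poly fun a => qvC (P a) (x a) := by
  unfold qvC
  fun_prop

@[fun_prop] theorem poly_coef {f : α → Form} {n : α → Name} (hf : NPC.Poly f) (hn : NPC.Poly n) :
    NPC.Poly fun a => coef (f a) (n a) := by
  unfold coef
  fun_prop

/-- one half of the skew symmetric part -/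
def kvC (P : CPar) (x y : St) : ℤ :=
  if x.1 = 2 ∧ y.1 = 1 then
    coef x.2.2.2.2.2 y.2.2.2.1 * pC P.1 (exC P y.2.2.2) -
      (if x.2.2.2.1 = y.2.2.2.1 then pC P.1 (exC P y.2.2.2) else 0) +
      (if (isIC 0 x = true ∧ isOC 0 y = true) ∨ (isIC 1 x = true ∧ isOC 1 y = true) then
        pC P.1 (2 * P.2.2.2.1 + 1) else 0)
  else if x.1 = 3 ∧ (y.1 = 1 ∨ y.1 = 2) then
    avecC' P x.2.1 y * pC P.1 (P.2.2.2.1 + 2 + P.2.2.2.2.1 - x.2.2.1)
  else if x.1 = 3 ∧ y.1 = 3 then
    (if x.2.1 = y.2.1 ∧ y.2.2.1 < x.2.2.1 then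
      -pC P.1 (2 * P.2.2.2.1 + 4 + 2 * P.2.2.2.2.1 - x.2.2.1 - y.2.2.1) else 0)
  else if x.1 = 4 ∧ y.1 = 3 then
    (if x.2.1 = y.2.1 ∧ x.2.2.1 = y.2.2.1 then pC P.1 (P.2.2.2.2.2 + P.2.2.2.2.1) else 0)
  else 0

@[fun_prop] theorem poly_kvC {P : α → CPar} {x y : α → St} (hP : NPC.Poly P)
    (hx : NPC.Poly x) (hy : NPC.Poly y) : NPC.Poly fun a => kvC (P a) (x a) (y a) := by
  unfold kvC
  fun_prop

/-- payoffs -/
def entryC (P : CPar) (x y : St) : ℤ :=
  kvC P x y - kvC P y x + (avecC P 0 x * avecC P 0 y + avecC P 1 x * avecC P 1 y) +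
    (qvC P x - qvC P y)

@[fun_prop] theorem poly_entryC {P : α → CPar} {x y : α → St} (hP : NPC.Poly P)
    (hx : NPC.Poly x) (hy : NPC.Poly y) : NPC.Poly fun a => entryC (P a) (x a) (y a) := by
  unfold entryC
  fun_prop

@[fun_prop] theorem poly_castQ {f : α → ℤ} (hf : NPC.Poly f) :
    NPC.Poly fun a => ((f a : ℤ) : ℚ) :=
  NPC.Poly.of_toT ((NPC.Poly.toT' (NPC.Poly.pair hf (NPC.Poly.const (1 : ℕ)))).congr fun a => by
    change toT (f a, 1) = toT (((f a : ℤ) : ℚ).num, ((f a : ℤ) : ℚ).den)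
    simp)

theorem poly_gsz {G : α → List Gate} (hG : NPC.Poly G) : UPoly fun a => gsz (G a) := by
  unfold gsz
  exact UPoly.length (by fun_prop)

end

section

variable {P : Par} {l : List Unit} {S : ℕ}

/-- the numerical parameters of a game -/
def toC (P : Par) (l : List Unit) : CPar := (l, P.s, P.e0, P.h, P.F, P.Dx)

/-- all exponents are small -/
def Big (P : Par) (S : ℕ) (l : List Unit) : Prop :=
  P.s * S + P.e0 + (2 * P.h + 4 + 2 * P.F) + (P.Dx + P.F) ≤ l.length

theorem isIC_eq (hi : P.inn = nIn) (e : ℕ) (x : St) : isIC e x = isI P e x := by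
  simp only [isIC, isI, hi, nIn]

theorem isOC_eq (ho : P.out = nOut) (e : ℕ) (x : St) : isOC e x = isO P e x := by
  simp only [isOC, isO, ho, nOut]

theorem pC_h (hb : Big P S l) : pC l P.h = 2 ^ P.h := pC_eq (by unfold Big at hb; omega)

theorem avecC_eq (hi : P.inn = nIn) (ho : P.out = nOut) (hb : Big P S l) (e : ℕ) (x : St) :
    avecC (toC P l) e x = avec P e x := by
  simp only [avecC, avec, isIC_eq hi, isOC_eq ho, toC, pC_h hb]

theorem avecC'_eq (hi : P.inn = nIn) (ho : P.out = nOut) (hb : Big P S l) (e : ℕ) (x : St) :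
    avecC' (toC P l) e x = avec' P e x := by
  simp only [avecC', avec', isIC_eq hi, isOC_eq ho, toC, pC_h hb]

theorem qvC_eq (hi : P.inn = nIn) (ho : P.out = nOut) (hb : Big P S l) (x : St) :
    qvC (toC P l) x = qv P x := by
  unfold qvC
  simp only [avecC'_eq hi ho hb]
  simp only [qv, toC]
  unfold Big at hb
  rw [pC_eq (e := P.h + 2) (by omega), pC_eq (e := 2 * P.h + 4 + P.F - x.2.2.1) (by omega),
    pC_eq (e := 2 * P.h + 4 + P.F - 2 * x.2.2.1) (by omega), pC_eq (e := P.Dx) (by omega)]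

theorem kvC_eq (hi : P.inn = nIn) (ho : P.out = nOut) (hb : Big P S l) (x y : St)
    (hy : y.2.2.2.2.1 ≤ S) : kvC (toC P l) x y = kv P x y := by
  unfold kvC
  simp only [avecC'_eq hi ho hb]
  simp only [kv, isIC_eq hi, isOC_eq ho, toC]
  unfold Big at hb
  have h1 : exC (l, P.s, P.e0, P.h, P.F, P.Dx) y.2.2.2 = ex P y.2.2.2 := rfl
  have h2 : ex P y.2.2.2 ≤ P.s * S + P.e0 := by
    unfold ex
    have := Nat.mul_le_mul_left P.s hy
    omega
  rw [h1, pC_eq (e := ex P y.2.2.2) (by omega), pC_eq (e := 2 * P.h + 1) (by omega),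
    pC_eq (e := P.h + 2 + P.F - x.2.2.1) (by omega),
    pC_eq (e := 2 * P.h + 4 + 2 * P.F - x.2.2.1 - y.2.2.1) (by omega),
    pC_eq (e := P.Dx + P.F) (by omega)]

theorem entryC_eq (hi : P.inn = nIn) (ho : P.out = nOut) (hb : Big P S l) (x y : St)
    (hx : x.2.2.2.2.1 ≤ S) (hy : y.2.2.2.2.1 ≤ S) : entryC (toC P l) x y = entry P x y := by
  simp only [entryC, entry, kvC_eq hi ho hb x y hy, kvC_eq hi ho hb y x hx, avecC_eq hi ho hb,
    qvC_eq hi ho hb]

theorem strats_stage {G : List Gate} (hG : ∀ g ∈ G, g.2.1 ≤ S) {x : St} (hx : x ∈ strats P G) :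
    x.2.2.2.2.1 ≤ S := by
  simp only [strats, List.mem_cons, List.mem_append, List.mem_map, List.mem_flatMap,
    List.mem_range, List.not_mem_nil, or_false] at hx
  rcases hx with rfl | ⟨g, hg, rfl⟩ | ⟨g, hg, rfl⟩ | ⟨e, _, j, _, rfl | rfl⟩
  · exact Nat.zero_le _
  · exact hG g hg
  · exact hG g hg
  · exact Nat.zero_le _
  · exact Nat.zero_le _

end

section

variable {α : Type} [TEnc α]

theorem poly_strats' {G : α → List Gate} {r : α → List ℕ} (hG : NPC.Poly G) (hr : NPC.Poly r) :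
    NPC.Poly fun a => ((0, 0, 0, g0) :: ((G a).map (fun g => (1, 0, 0, g)) ++
      ((G a).map (fun g => (2, 0, 0, g)) ++
      (List.range 2).flatMap fun e => (r a).flatMap fun j =>
        [(3, e, j, g0), (4, e, j, g0)])) : List St) := by
  fun_prop

theorem poly_table {s : α → List St} {C : α → CPar} (hs : NPC.Poly s) (hC : NPC.Poly C) :
    NPC.Poly fun a => (s a).map fun x => (s a).map fun y => ((entryC (C a) x y : ℤ) : ℚ) := by
  fun_prop

theorem poly_toC {l : α → List Unit} {s e h F D : α → ℕ} (p0 : NPC.Poly l) (p1 : NPC.Poly s)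
    (p2 : NPC.Poly e) (p3 : NPC.Poly h) (p4 : NPC.Poly F) (p5 : NPC.Poly D) :
    NPC.Poly fun a => ((l a, s a, e a, h a, F a, D a) : CPar) := by
  fun_prop

end

end PolyCN

open PolyCN in
theorem poly_gameMat {α : Type} [TEnc α] {G : α → List Gate} {m S : α → ℕ} (hG : NPC.Poly G)
    (hm : UPoly m) (hS : UPoly S) (hst : ∀ a, ∀ g ∈ G a, g.2.1 ≤ S a) :
    NPC.Poly fun a => gameMat (parOf nIn nOut (G a) (m a) (S a)) (G a) := by
  have hg := poly_gsz hG
  have hs : UPoly fun a => (parOf nIn nOut (G a) (m a) (S a)).s :=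
    (UPoly.const 2).mul (hg.add (UPoly.const 4))
  have he : UPoly fun a => (parOf nIn nOut (G a) (m a) (S a)).e0 :=
    (UPoly.const 2).mul ((hg.add hm).add (UPoly.const 20))
  have hh : UPoly fun a => (parOf nIn nOut (G a) (m a) (S a)).h :=
    ((((hg.add (UPoly.const 4)).mul hS).add hg).add hm).add (UPoly.const 19)
  have hN : UPoly fun a => (parOf nIn nOut (G a) (m a) (S a)).Nb :=
    ((UPoly.const 2).mul hh).add (UPoly.const 10)
  have hF : UPoly fun a => (parOf nIn nOut (G a) (m a) (S a)).F :=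
    ((UPoly.const 4).mul hh).add (UPoly.const 20)
  have hD : UPoly fun a => (parOf nIn nOut (G a) (m a) (S a)).Dx :=
    ((UPoly.const 2).mul hh).add (UPoly.const 12)
  generalize hP : (fun a => parOf nIn nOut (G a) (m a) (S a)) = P at *
  have hPi : ∀ a, (P a).inn = nIn := fun a => by rw [← hP]; rfl
  have hPo : ∀ a, (P a).out = nOut := fun a => by rw [← hP]; rfl
  have hs' : UPoly fun a => (P a).s := by rw [← hP]; exact hs
  have he' : UPoly fun a => (P a).e0 := by rw [← hP]; exact he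
  have hh' : UPoly fun a => (P a).h := by rw [← hP]; exact hh
  have hN' : UPoly fun a => (P a).Nb := by rw [← hP]; exact hN
  have hF' : UPoly fun a => (P a).F := by rw [← hP]; exact hF
  have hD' : UPoly fun a => (P a).Dx := by rw [← hP]; exact hD
  have hU : UPoly fun a => (P a).s * S a + (P a).e0 + (2 * (P a).h + 4 + 2 * (P a).F) +
      ((P a).Dx + (P a).F) :=
    (((hs'.mul hS).add he').add ((((UPoly.const 2).mul hh').add (UPoly.const 4)).add
      ((UPoly.const 2).mul hF'))).add (hD'.add hF')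
  have hU' : NPC.Poly fun a => List.replicate ((P a).s * S a + (P a).e0 +
      (2 * (P a).h + 4 + 2 * (P a).F) + ((P a).Dx + (P a).F)) () := hU
  have p1 := hs'.toPoly
  have p2 := he'.toPoly
  have p3 := hh'.toPoly
  have p4 := hF'.toPoly
  have p5 := hD'.toPoly
  have p6 := hN'.range
  have hstr : NPC.Poly fun a => strats (P a) (G a) := by
    unfold strats
    exact poly_strats' hG p6
  have hC : NPC.Poly fun a => toC (P a) (List.replicate ((P a).s * S a + (P a).e0 +
      (2 * (P a).h + 4 + 2 * (P a).F) + ((P a).Dx + (P a).F)) ()) := by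
    unfold toC
    exact poly_toC hU' p1 p2 p3 p4 p5
  have hfin : NPC.Poly fun a => (strats (P a) (G a)).map fun x => (strats (P a) (G a)).map fun y =>
      ((entryC (toC (P a) (List.replicate ((P a).s * S a + (P a).e0 +
      (2 * (P a).h + 4 + 2 * (P a).F) + ((P a).Dx + (P a).F)) ())) x y : ℤ) : ℚ) :=
    poly_table hstr hC
  refine hfin.congr fun a => ?_
  have e1 : parOf nIn nOut (G a) (m a) (S a) = P a := congrFun hP a
  rw [e1]
  unfold gameMat
  refine List.map_congr_left fun x hx => List.map_congr_left fun y hy => ?_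
  have hb : Big (P a) (S a) (List.replicate ((P a).s * S a + (P a).e0 +
      (2 * (P a).h + 4 + 2 * (P a).F) + ((P a).Dx + (P a).F)) ()) := by
    unfold Big
    rw [List.length_replicate]
  rw [entryC_eq (hPi a) (hPo a) hb x y (strats_stage (hst a) hx) (strats_stage (hst a) hy)]

end Pool.Agent.H424R2.SG
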