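import Pool.Agent.H424R2.SG.Net
import Pool.Agent.H424R2.SG.Game

namespace Pool.Agent.H424R2.SG

open Pool.Agent.NPC Pool.Agent.H424R2.PPAD

theorem PolyD_floor (q : ℚ) (e : ℕ) : ⌊q * 2 ^ e⌋₊ = (q.num.toNat * 2 ^ e) / q.den := by
  by_cases hq : 0 ≤ q
  · have h1 : (q.num.toNat : ℤ) = q.num := Int.toNat_of_nonneg (Rat.num_nonneg.2 hq)
    have h2 : (q.num.toNat : ℚ) = q * q.den := by
      have h3 : ((q.num.toNat : ℤ) : ℚ) = (q.num : ℚ) := by rw [h1]
      rw [Rat.mul_den_eq_num, ← h3, Int.cast_natCast]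
    have hd : (q.den : ℚ) ≠ 0 := by exact_mod_cast q.den_nz
    have h3 : q * 2 ^ e = ((q.num.toNat * 2 ^ e : ℕ) : ℚ) / (q.den : ℕ) := by
      push_cast
      rw [h2]
      field_simp
    rw [h3, Nat.floor_div_eq_div]
  · push Not at hq
    have h1 : q.num.toNat = 0 := Int.toNat_of_nonpos (by
      have := Rat.num_neg.2 hq
      omega)
    rw [h1, zero_mul, Nat.zero_div]
    apply Nat.floor_of_nonpos
    have : (0 : ℚ) < 2 ^ e := by positivity
    nlinarith

theorem PolyD_idxOf {β : Type} [BEq β] [LawfulBEq β] [DecidableEq β] (y : β) (l : List β) :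
    ∀ k : ℕ,
    ((((l.zipIdx k).filter (fun p => decide (p.1 = y))).head?).map fun p => p.2).getD
      (k + l.length) = k + l.idxOf y := by
  induction l with
  | nil => intro k; simp
  | cons a l ih =>
    intro k
    rw [List.zipIdx_cons]
    by_cases h : a = y
    · subst h
      rw [List.filter_cons_of_pos (by simp)]
      simp
    · rw [List.filter_cons_of_neg (by simpa using h)]
      have h1 := ih (k + 1)
      have h2 : (a :: l).idxOf y = l.idxOf y + 1 := by
        rw [List.idxOf_cons_ne _ h]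
      rw [h2, List.length_cons]
      have e1 : k + (l.length + 1) = k + 1 + l.length := by ring
      have e2 : k + (l.idxOf y + 1) = k + 1 + l.idxOf y := by ring
      rw [e1, e2]
      exact h1

section

variable {α : Type} [TEnc α]

theorem PolyD_poly_idxOf {β : Type} [TEnc β] [BEq β] [LawfulBEq β] {y : α → β}
    {l : α → List β} (hy : NPC.Poly y) (hl : NPC.Poly l) :
    NPC.Poly fun a => (l a).idxOf (y a) := by
  classical
  have h1 : NPC.Poly fun a => (((l a).zipIdx.filter fun p => decide (p.1 = y a)).head?) :=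
    NPC.Poly.head? (NPC.Poly.filter (p := fun a (p : β × ℕ) => decide (p.1 = y a))
      (NPC.Poly.zipIdx hl)
      (NPC.Poly.decide_eq (NPC.Poly.fst (NPC.Poly.snd NPC.Poly.id))
        (hy.comp (NPC.Poly.fst NPC.Poly.id))))
  refine (NPC.Poly.optCases (g := fun a => (l a).length) (h := fun _ (p : β × ℕ) => p.2) h1
    (NPC.Poly.length hl) (NPC.Poly.snd (NPC.Poly.snd NPC.Poly.id))).congr fun a => ?_
  have h2 := PolyD_idxOf (y a) (l a) 0
  rw [Nat.zero_add, Nat.zero_add] at h2
  rw [← h2]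
  cases ((l a).zipIdx.filter fun p => decide (p.1 = y a)).head? <;> rfl

theorem PolyD_gsz {G : α → List Gate} (hG : NPC.Poly G) : UPoly fun a => gsz (G a) := by
  unfold gsz
  refine UPoly.length (NPC.Poly.flatMap (F := fun _ (g : Gate) =>
    (g.2.2.1.flatMap fun t => false :: t.1.natAbs.bits) ++
      (false :: false :: g.2.2.2.natAbs.bits)) hG ?_)
  have hg : NPC.Poly fun p : α × Gate => p.2 := NPC.Poly.snd NPC.Poly.id
  refine NPC.Poly.append ?_ ?_
  · refine NPC.Poly.flatMap (F := fun _ (t : ℤ × Name) => false :: t.1.natAbs.bits)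
      (NPC.Poly.fst (NPC.Poly.snd (NPC.Poly.snd hg))) ?_
    exact NPC.Poly.cons (NPC.Poly.const false) (NPC.Poly.natBits
      (H532.Poly_natAbs (NPC.Poly.fst (NPC.Poly.snd NPC.Poly.id))))
  · exact NPC.Poly.cons (NPC.Poly.const false) (NPC.Poly.cons (NPC.Poly.const false)
      (NPC.Poly.natBits (H532.Poly_natAbs (NPC.Poly.snd (NPC.Poly.snd (NPC.Poly.snd hg))))))

theorem PolyD_two_pow {n : α → ℕ} (hn : UPoly n) : NPC.Poly (fun a => 2 ^ (n a)) := by
  have h1 : NPC.Poly (fun a => (List.replicate (n a) ()).map (fun _ => false)) :=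
    NPC.Poly.map (F := fun _ _ => false) hn (NPC.Poly.const false)
  refine (NPC.Poly.valBits (NPC.Poly.append h1 (NPC.Poly.const [true]))).congr fun a => ?_
  have h2 : ∀ k, valB (List.replicate k false ++ [true]) = 2 ^ k := by
    intro k
    rw [valB_append]
    have h3 : valB (List.replicate k false) = 0 := by
      induction k with
      | zero => rfl
      | succ k ih => simp [List.replicate_succ, valB, ih]
    rw [h3]
    simp [valB]
  rw [List.map_replicate, h2]

theorem PolyD_strats {G : α → List Gate} {m S : α → ℕ} (hG : NPC.Poly G)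
    (hm : UPoly m) (hS : UPoly S) :
    NPC.Poly fun a => strats (parOf nIn nOut (G a) (m a) (S a)) (G a) := by
  have hgs := PolyD_gsz hG
  have hNb : UPoly fun a => (parOf nIn nOut (G a) (m a) (S a)).Nb := by
    change UPoly fun a => 2 * ((gsz (G a) + 4) * S a + gsz (G a) + m a + 19) + 10
    exact UPoly.add (UPoly.mul (UPoly.const 2) (UPoly.add (UPoly.add (UPoly.add
      (UPoly.mul (UPoly.add hgs (UPoly.const 4)) hS) hgs) hm) (UPoly.const 19))) (UPoly.const 10)
  unfold strats
  refine NPC.Poly.cons (NPC.Poly.const _) (NPC.Poly.append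
    (NPC.Poly.map (F := fun _ (g : Gate) => ((1, 0, 0, g) : St)) hG
      (NPC.Poly.pair (NPC.Poly.const 1) (NPC.Poly.pair (NPC.Poly.const 0)
        (NPC.Poly.pair (NPC.Poly.const 0) (NPC.Poly.snd NPC.Poly.id)))))
    (NPC.Poly.append (NPC.Poly.map (F := fun _ (g : Gate) => ((2, 0, 0, g) : St)) hG
      (NPC.Poly.pair (NPC.Poly.const 2) (NPC.Poly.pair (NPC.Poly.const 0)
        (NPC.Poly.pair (NPC.Poly.const 0) (NPC.Poly.snd NPC.Poly.id))))) ?_))
  refine NPC.Poly.flatMap (F := fun a (e : ℕ) =>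
    (List.range (parOf nIn nOut (G a) (m a) (S a)).Nb).flatMap fun j =>
      ([(3, e, j, g0), (4, e, j, g0)] : List St)) (NPC.Poly.const _) ?_
  refine NPC.Poly.flatMap (F := fun (p : α × ℕ) (j : ℕ) =>
      ([(3, p.2, j, g0), (4, p.2, j, g0)] : List St))
    ((UPoly.range hNb).comp (NPC.Poly.fst NPC.Poly.id)) ?_
  have he : NPC.Poly fun q : (α × ℕ) × ℕ => q.1.2 := NPC.Poly.snd (NPC.Poly.fst NPC.Poly.id)
  have hj : NPC.Poly fun q : (α × ℕ) × ℕ => q.2 := NPC.Poly.snd NPC.Poly.id
  exact NPC.Poly.cons (NPC.Poly.pair (NPC.Poly.const 3) (NPC.Poly.pair he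
    (NPC.Poly.pair hj (NPC.Poly.const g0)))) (NPC.Poly.cons (NPC.Poly.pair (NPC.Poly.const 4)
      (NPC.Poly.pair he (NPC.Poly.pair hj (NPC.Poly.const g0)))) (NPC.Poly.const []))

theorem poly_floor {α : Type} [TEnc α] {G : α → List Gate} {m S : α → ℕ} (hG : NPC.Poly G)
    (hm : UPoly m) (hS : UPoly S) (hst : ∀ a, ∀ g ∈ G a, g.2.1 ≤ S a) {x : α → List ℚ} (hx : NPC.Poly x) :
    NPC.Poly fun a => ⌊gval (parOf nIn nOut (G a) (m a) (S a)) (G a) (x a) (nIn 0)⌋₊ := by
  have hgs := PolyD_gsz hG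
  set s : α → ℕ := fun a => 2 * (gsz (G a) + 4) with hs
  set e0 : α → ℕ := fun a => 2 * (gsz (G a) + m a + 20) with he0
  have us : UPoly s := UPoly.mul (UPoly.const 2) (UPoly.add hgs (UPoly.const 4))
  have ue0 : UPoly e0 := UPoly.mul (UPoly.const 2) (UPoly.add (UPoly.add hgs hm) (UPoly.const 20))
  set B : α → ℕ := fun a => s a * S a + e0 a with hB
  have uB : UPoly B := UPoly.add (UPoly.mul us hS) ue0
  have hfind : NPC.Poly fun a => (((G a).filter fun g => decide (g.1 = nIn 0)).head?) :=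
    NPC.Poly.head? (NPC.Poly.filter (p := fun _ (g : Gate) => decide (g.1 = nIn 0)) hG
      (NPC.Poly.decide_eq (NPC.Poly.fst (NPC.Poly.snd NPC.Poly.id)) (NPC.Poly.const _)))
  -- the value for a given gate
  set val : α → Gate → ℕ := fun a g =>
    (((x a).getD ((strats (parOf nIn nOut (G a) (m a) (S a)) (G a)).idxOf (1, 0, 0, g)) 0).num.toNat
      * 2 ^ (min (s a * g.2.1 + e0 a) (B a))) /
      ((x a).getD ((strats (parOf nIn nOut (G a) (m a) (S a)) (G a)).idxOf (1, 0, 0, g)) 0).den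
    with hval
  have pval : NPC.Poly fun p : α × Gate => val p.1 p.2 := by
    have h1 : NPC.Poly fun p : α × Gate => p.1 := NPC.Poly.fst NPC.Poly.id
    have h2 : NPC.Poly fun p : α × Gate => p.2 := NPC.Poly.snd NPC.Poly.id
    have hq : NPC.Poly fun p : α × Gate => (x p.1).getD
        ((strats (parOf nIn nOut (G p.1) (m p.1) (S p.1)) (G p.1)).idxOf (1, 0, 0, p.2)) 0 :=
      NPC.Poly.getD (hx.comp h1) (PolyD_poly_idxOf
        (NPC.Poly.pair (NPC.Poly.const 1) (NPC.Poly.pair (NPC.Poly.const 0)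
          (NPC.Poly.pair (NPC.Poly.const 0) h2)))
        ((PolyD_strats hG hm hS).comp h1)) (NPC.Poly.const 0)
    have hnum : NPC.Poly fun p : α × Gate => ((x p.1).getD
        ((strats (parOf nIn nOut (G p.1) (m p.1) (S p.1)) (G p.1)).idxOf
          (1, 0, 0, p.2)) 0).num.toNat := by
      have h3 := H532.RP.Poly_num hq
      refine (NPC.Poly.cond (H532.Poly_isNeg h3) (NPC.Poly.const 0)
        (H532.Poly_natAbs h3)).congr fun p => ?_
      by_cases h : ((x p.1).getD ((strats (parOf nIn nOut (G p.1) (m p.1) (S p.1))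
        (G p.1)).idxOf (1, 0, 0, p.2)) 0).num < 0
      · rw [decide_eq_true h, cond_true, Int.toNat_of_nonpos h.le]
      · rw [decide_eq_false h, cond_false]
        omega
    refine NPC.Poly.div (NPC.Poly.mul hnum (PolyD_two_pow ?_)) (H532.RP.Poly_den hq)
    refine UPoly.of_le (n := fun p : α × Gate => B p.1) ?_ (UPoly.comp uB h1)
      fun p => min_le_right _ _
    exact NPC.Poly.min (NPC.Poly.add (NPC.Poly.mul (us.toPoly.comp h1)
      (NPC.Poly.fst (NPC.Poly.snd h2))) (ue0.toPoly.comp h1)) (uB.toPoly.comp h1)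
  refine (NPC.Poly.optCases (g := fun _ => 0) (h := val) hfind (NPC.Poly.const 0) pval).congr
    fun a => ?_
  unfold gval
  rw [← List.head?_filter]
  cases hh : ((G a).filter fun g => decide (g.1 = nIn 0)).head? with
  | none => simp
  | some g =>
    simp only
    have hg : g ∈ G a := (List.mem_filter.1 (List.mem_of_mem_head? hh)).1
    have hle : s a * g.2.1 + e0 a ≤ B a :=
      Nat.add_le_add_right (Nat.mul_le_mul_left _ (hst a g hg)) _
    rw [hval]
    simp only
    rw [min_eq_left hle]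
    exact (PolyD_floor _ _).symm

end

end Pool.Agent.H424R2.SG
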