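import Pool.Agent.H424R2.SG.ColA
import Pool.Agent.H424R2.SG.ColB
import Pool.Agent.H424R2.SG.NetA
import Pool.Agent.H424R2.SG.NetB
import Pool.Agent.H424R2.SG.NetC
import Pool.Agent.H424R2.SG.GameA
import Pool.Agent.H424R2.SG.GameE
import Pool.Agent.H424R2.SG.PolyA
import Pool.Agent.H424R2.SG.PolyB
import Pool.Agent.H424R2.SG.PolyC
import Pool.Agent.H424R2.SG.PolyD
import Pool.Agent.H424R2.SG.MainA

/-!
# Finding symmetric equilibria of symmetric games of rank two is PPAD-hard
-/

namespace Pool.Agent.H424R2.SG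

open Pool.Agent.NPC Pool.Agent.NPC.Cnt Pool.Agent.H424R2.PPAD Turing

/-- the test function on bit strings -/
noncomputable def vfun (y : List Bool) : List Bool :=
  [match unbits ((Circ × Circ) × ℕ) (unpair y).1 with
    | none => false
    | some a => decide (colI a.1 (valB ((unpair y).2.take (bitsI a.1)))
        (valB ((unpair y).2.drop (bitsI a.1))) = a.2)]

theorem polyTime_vfun : PolyTime vfun := by
  refine polyTime_of_poly (NPC.Poly.congr (NPC.Poly.optCases
    (o := fun y : List Bool => unbits ((Circ × Circ) × ℕ) (unpair y).1) (g := fun _ => false)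
    (h := fun (y : List Bool) (a : (Circ × Circ) × ℕ) =>
      decide (colI a.1 (valB ((unpair y).2.take (bitsI a.1)))
        (valB ((unpair y).2.drop (bitsI a.1))) = a.2))
    (poly_unbits.comp (NPC.Poly.fst poly_unpair)) (NPC.Poly.const _)
    (poly_colTest.comp (f := fun p : List Bool × ((Circ × Circ) × ℕ) =>
    (p.2, (unpair p.1).2)) (NPC.Poly.pair (NPC.Poly.snd NPC.Poly.id)
      (NPC.Poly.snd (poly_unpair.comp (NPC.Poly.fst NPC.Poly.id))))))
    fun y => by
      cases unbits ((Circ × Circ) × ℕ) (unpair y).1 <;> rfl)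

theorem vfun_pair (I : Circ × Circ) (c : ℕ) (w : List Bool) :
    vfun (CL.pairPre (bits (I, c)) ++ w) =
      [decide (colI I (valB (w.take (bitsI I))) (valB (w.drop (bitsI I))) = c)] := by
  unfold vfun
  rw [← CL.pairBits_eq, unpair_pairBits]
  simp only [unbits_bits]

open Classical in
theorem reduces (r : ℕ) (hr : 2 ≤ r) : EOL.Reduces (SymNE r) := by
  obtain ⟨hV⟩ := polyTime_vfun
  set D := tabOf hV.tm hV.inputAlphabet hV.outputAlphabet with hDdef
  have hD : D.Ok := tabOf_ok _ _ _
  have hcs : D.cs.Nodup := Finset.nodup_toList _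
  have has : D.as.Nodup := Finset.nodup_toList _
  have hks : D.ks.Nodup := Finset.nodup_toList _
  set T : Circ × Circ → ℕ := fun I => hV.time.eval (lenI I) * CL.maxDepth hV.tm with hT
  set N : Circ × Circ → ℕ := fun I => lenI I + T I + 1 with hN
  set G : Circ × Circ → List Gate := fun I => net D (bitsI I) (preI I) (N I) (T I) with hG
  set S : Circ × Circ → ℕ := fun I => netStage (bitsI I) (T I) with hS
  have uLen : UPoly lenI := upoly_lenI
  have uT : UPoly T := UPoly.mul (UPoly.eval uLen _) (UPoly.const _)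
  have uN : UPoly N := UPoly.add (UPoly.add uLen uT) (UPoly.const _)
  have uS : UPoly S := UPoly.add (UPoly.add poly_bitsI (UPoly.const _))
    (UPoly.mul (UPoly.const _) uT)
  have pG : NPC.Poly G := poly_net D poly_bitsI uN uT poly_preI
  have pF : NPC.Poly fun I : Circ × Circ => gameMat (parOf nIn nOut (G I) (bitsI I) (S I)) (G I) :=
    poly_gameMat pG poly_bitsI uS fun _ _ hg => net_stage hg
  have pA : NPC.Poly fun q : (Circ × Circ) × List ℚ =>
      ansI q.1 ⌊gval (parOf nIn nOut (G q.1) (bitsI q.1) (S q.1)) (G q.1) q.2 (nIn 0)⌋₊ :=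
    poly_ansI.comp (f := fun q : (Circ × Circ) × List ℚ =>
      (q.1, ⌊gval (parOf nIn nOut (G q.1) (bitsI q.1) (S q.1)) (G q.1) q.2 (nIn 0)⌋₊))
      (Poly.pair (Poly.fst Poly.id)
      (poly_floor (α := (Circ × Circ) × List ℚ) (pG.comp (Poly.fst Poly.id))
        (UPoly.comp poly_bitsI (Poly.fst Poly.id)) (UPoly.comp uS (Poly.fst Poly.id))
        (fun _ _ hg => net_stage hg) (Poly.snd Poly.id)))
  have tF : PTime fun I : Circ × Circ => gameMat (parOf nIn nOut (G I) (bitsI I) (S I)) (G I) :=
    PTime.of_poly pF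
  have tA : PTime fun q : (Circ × Circ) × List ℚ =>
      ansI q.1 ⌊gval (parOf nIn nOut (G q.1) (bitsI q.1) (S q.1)) (G q.1) q.2 (nIn 0)⌋₊ :=
    PTime.of_poly pA
  refine ⟨fun I => gameMat (parOf nIn nOut (G I) (bitsI I) (S I)) (G I),
    fun q => ansI q.1 ⌊gval (parOf nIn nOut (G q.1) (bitsI q.1) (S q.1)) (G q.1) q.2 (nIn 0)⌋₊,
    tF, tA, ?_⟩
  intro I hI
  refine ⟨gameMat_valid _ _ hr, fun x hx => ?_⟩
  have hm : 6 ≤ bitsI I := by unfold bitsI; omega
  have hGI : G I = net D (bitsI I) (preI I) (N I) (T I) := rfl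
  have key := game_spec nIn nOut (G I) (bitsI I) (S I)
    (by rw [hGI]; exact net_nodup hcs has hks)
    (by rw [hGI]; intro g hg; exact net_in hD hg)
    (by intro e he; rw [hGI]; simp only [net]; interval_cases e <;> simp [cst])
    (by
      intro e he
      refine ⟨fadd (vr (nY e 0)) (fsmul (-1) (vr (nY e 1))), ?_⟩
      rw [hGI]
      simp only [net, netFin, List.mem_append, List.mem_flatMap, List.mem_range]
      exact Or.inr ⟨e, he, by simp [hS]⟩)
    (by refine ⟨by simp [nIn], by simp [nOut], fun e e' => by simp [nIn, nOut]⟩)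
    (by rw [hGI]; intro v κ hκ hv; exact net_cap (by omega) hκ hv)
    (by omega) hx
  obtain ⟨k1, k2, k3⟩ := key
  have hok := graphOK I hI
  obtain ⟨x', y', h', ht⟩ := net_spec (m := bitsI I) hD hcs has (by omega)
    (by rw [← hGI]; exact k1)
    (fun e _ => k2 _) k3 (T := T I) (N := N I) (pre := preI I)
    (by
      intro c hc
      have h1 : (preI I c).length + 2 * bitsI I ≤ lenI I := by
        unfold lenI
        interval_cases c <;> omega
      have h2 : N I = lenI I + T I + 1 := rfl
      omega) (colI I) (colN_lt _ _ _)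
    (by
      intro c hc a ha b hb w hw h1 h2
      have hB : ((preI I c ++ w).length) ≤ lenI I := by
        rw [List.length_append, hw]
        unfold lenI
        interval_cases c <;> omega
      rw [tabOf_correct hV.tm hV.inputAlphabet hV.outputAlphabet vfun
        (hV.time.eval (preI I c ++ w).length) (T I) (preI I c ++ w)
        (hV.outputsFun (preI I c ++ w)) (Nat.mul_le_mul_right _ (eval_mono _ hB))]
      unfold preI
      rw [vfun_pair, valB_take ha hw h1, valB_drop hb hw h2]
      simp)
    (colN_B0 _ _ _)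
    (by
      intro a b hab
      refine colN_B1 hok a b ?_
      have h1 : 2 ^ bitsI I = 64 * 2 ^ eolN I := by unfold bitsI; rw [pow_add]; ring
      have h2 := Nat.one_le_two_pow (n := eolN I)
      omega)
    (by
      intro a b hab
      refine colN_B2 hok a b ?_
      have h1 : 2 ^ bitsI I = 64 * 2 ^ eolN I := by unfold bitsI; rw [pow_add]; ring
      have h2 := Nat.one_le_two_pow (n := eolN I)
      omega)
  exact colI_sol I hI _ _ x' y' h' ht

theorem main (r : ℕ) (hr : 2 ≤ r) : PPADHard (SymNE r) := (reduces r hr).ppadHard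

end Pool.Agent.H424R2.SG
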