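import Mathlib
import Pool.Agent.H424R2.SG.Tile

/-!
# Sixteen samples on a diagonal
-/

namespace Pool.Agent.H424R2.SG

open Finset

/-- the bits of a number extracted from the number `z` by steep clamps: `bitv m z i` for `i < m`
is the value of the clamp for the bit `i` (to be read from the top). -/
def IsBits (m : ℕ) (z : ℚ) (b : ℕ → ℚ) : Prop :=
  ∀ i < m, b i =
    max 0 (16 * z - 16 * 2 ^ i - ∑ i' ∈ Ioo i m, 16 * 2 ^ i' * b i') -
    max 0 (16 * z - 16 * 2 ^ i - ∑ i' ∈ Ioo i m, 16 * 2 ^ i' * b i' - 1)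

/-- the sample `k` is good for the coordinate `a` -/
def Good (a : ℚ) (k : ℕ) : Prop := 1 / 16 ≤ Int.fract (a + k / 16)

end Pool.Agent.H424R2.SG
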