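import Pool.Agent.H424R2.SG.Mach
import Pool.Agent.H424R2.SG.Plane

/-!
# The net
-/

namespace Pool.Agent.H424R2.SG

open Pool.Agent.NPC Pool.Agent.NPC.Cnt

/-- input gates -/
def nIn (e : ℕ) : Name := [0, e]

/-- gates for the bits -/
def nBit (k e i r : ℕ) : Name := [1, k, e, i, r]

/-- tag of a copy of the machine: sample `k`, colour `c` -/
def tgM (k c : ℕ) : Name := [2, k, c]

/-- gates for the sums -/
def nY (e r : ℕ) : Name := [3, e, r]

/-- output gates -/
def nOut (e : ℕ) : Name := [4, e]

/-- bit `i` of the coordinate `e` of the sample `k` -/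
def fBit (k e i : ℕ) : Form := fadd (vr (nBit k e i 0)) (fsmul (-1) (vr (nBit k e i 1)))

/-- the form defining the bit `i` -/
def fZ (m k e i : ℕ) : Form :=
  fadd (fadd (fsmul 16 (vr (nIn e))) (cst ((k : ℤ) - 16 * 2 ^ i)))
    (fsum (((List.range m).filter fun i' => decide (i < i')).map fun i' =>
      fsmul (-(16 * 2 ^ i')) (fBit k e i')))

/-- the gates for the bits -/
def netBits (m : ℕ) : List Gate :=
  (List.range 16).flatMap fun k => (List.range 2).flatMap fun e => (List.range m).flatMap fun i =>
    [(nBit k e i 0, m - i, fZ m k e i), (nBit k e i 1, m - i, fadd (fZ m k e i) (cst (-1)))]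

/-- the input forms of the machines for the sample `k` -/
def wsOf (m k : ℕ) : List Form :=
  (List.range m).map (fBit k 0) ++ (List.range m).map (fBit k 1)

/-- new position before clamping -/
def fY (e : ℕ) : Form :=
  fadd (vr (nIn e)) (fsum ((List.range 16).map fun k =>
    fadd (vr (nRej (tgM k 0))) (fsmul (-1) (vr (nRej (tgM k (e + 1)))))))

section

variable {K C A : Type} [DecidableEq K] [DecidableEq C] [DecidableEq A] [Fintype K] [Fintype C]
  [Fintype A] (D : Tab K C A)

/-- the gates of the machines -/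
noncomputable def netMach (m : ℕ) (pre : ℕ → List Bool) (N T : ℕ) : List Gate :=
  (List.range 16).flatMap fun k => (List.range 3).flatMap fun c =>
    mach D (tgM k c) (m + 1) (pre c) (wsOf m k) N T

/-- the stage of the output gates -/
def netStage (m T : ℕ) : ℕ := m + 4 + 2 * T

/-- the final gates -/
def netFin (m T : ℕ) : List Gate :=
  (List.range 2).flatMap fun e =>
    [(nY e 0, m + 3 + 2 * T, fY e),
     (nY e 1, m + 3 + 2 * T, fadd (fY e) (cst (-(2 ^ m - 2)))),
     (nOut e, netStage m T, fadd (vr (nY e 0)) (fsmul (-1) (vr (nY e 1))))]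

/-- the whole net -/
noncomputable def net (m : ℕ) (pre : ℕ → List Bool) (N T : ℕ) : List Gate :=
  [(nIn 0, 0, cst 0), (nIn 1, 0, cst 0)] ++ netBits m ++ netMach D m pre N T ++ netFin m T

end

end Pool.Agent.H424R2.SG
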